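import Pool.Agent.Work.MP_499dc6_lc.HD.Stmts

/-!
# Block HD, item CFR: distance to the slope `1 + P/Q`
-/

set_option autoImplicit false

namespace Pool.Agent.Work.MP_499dc6_lc.HD

theorem pr_CFR (hQs : S_Qs) (hCF : S_CF) : S_CFR := by
  intro Λ h j u v hΛ hj hjh huv hq
  obtain ⟨q1, -, -, -, q5, -, -⟩ := hQs Λ hΛ
  have hPQ : (qs Λ (h + 1) : ℝ) ≤ ps Λ (h + 1) := by exact_mod_cast (q5 (h + 1) (by omega)).1
  have hQ1 : (1 : ℝ) ≤ qs Λ (h + 1) := by exact_mod_cast q1 (h + 1) (by omega)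
  have hj1 : (1 : ℝ) ≤ qs Λ j := by exact_mod_cast q1 j hj
  have hj2 : (1 : ℝ) ≤ qs Λ (j + 1) := by exact_mod_cast q1 (j + 1) (by omega)
  have hjj : 1 ≤ (qs Λ j : ℝ) * qs Λ (j + 1) := by nlinarith
  push_cast
  rcases le_or_gt v u with hvu | hvu
  · have h1 := hCF Λ h j (u - v) v hΛ hj hjh (by omega) (by omega)
    have h2 : u - v + v = u := by omega
    have h3 : ((u - v : ℕ) : ℝ) = (u : ℝ) - v := Nat.cast_sub hvu
    rw [h2, h3] at h1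
    have h4 : ((u : ℝ) - v) * qs Λ (h + 1) - v * ps Λ (h + 1) =
        (u : ℝ) * qs Λ (h + 1) - v * ((ps Λ (h + 1) : ℝ) + qs Λ (h + 1)) := by ring
    rw [h4] at h1
    have h5 : (v : ℝ) ≤ u := by exact_mod_cast hvu
    have h6 : ((u : ℝ) + v) * qs Λ (h + 1) ≤ 2 * ((u : ℝ) * qs Λ (h + 1)) := by nlinarith
    linarith
  · have h5 : (u : ℝ) ≤ v := by exact_mod_cast hvu.le
    have hu0 : (0 : ℝ) ≤ u := Nat.cast_nonneg u
    have hv0 : (0 : ℝ) ≤ v := Nat.cast_nonneg v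
    have h6 : ((u : ℝ) + v) * qs Λ (h + 1) ≤
        2 * |(u : ℝ) * qs Λ (h + 1) - v * ((ps Λ (h + 1) : ℝ) + qs Λ (h + 1))| := by
      have g1 := neg_abs_le ((u : ℝ) * qs Λ (h + 1) - v * ((ps Λ (h + 1) : ℝ) + qs Λ (h + 1)))
      have g2 : (v : ℝ) * qs Λ (h + 1) ≤ v * ps Λ (h + 1) := mul_le_mul_of_nonneg_left hPQ hv0
      have g3 : (u : ℝ) * qs Λ (h + 1) ≤ v * qs Λ (h + 1) :=
        mul_le_mul_of_nonneg_right h5 (by linarith)
      linarith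
    have h7 := abs_nonneg ((u : ℝ) * qs Λ (h + 1) - v * ((ps Λ (h + 1) : ℝ) + qs Λ (h + 1)))
    generalize |(u : ℝ) * qs Λ (h + 1) - v * ((ps Λ (h + 1) : ℝ) + qs Λ (h + 1))| = A at *
    have h8 : A ≤ (qs Λ j : ℝ) * qs Λ (j + 1) * A := le_mul_of_one_le_left h7 hjj
    linarith

end Pool.Agent.Work.MP_499dc6_lc.HD
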