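import Pool.Agent.Work.MP_499dc6_lc.HD.Stmts

/-!
# Block HD, item CntY: windows
-/

set_option autoImplicit false

namespace Pool.Agent.Work.MP_499dc6_lc.HD

/-- The positions of a window of steps. -/
theorem CntY_window (a m : ℕ) [NeZero m] (j k : ℕ) (hjk : j ≤ k) (hk : k < m) :
    ((k + 1 - j : ℕ) : ℝ) * ((a + m : ℕ) : ℝ) ≤
      (((Finset.univ.filter (fun p : Fin (a + m) => j ≤ (it a m p : ℕ) ∧
        (it a m p : ℕ) ≤ k)).card : ℝ) + 1) * m := by
  have hm : 0 < m := Nat.pos_of_ne_zero (NeZero.ne m)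
  obtain ⟨d, hd⟩ : ∃ d : ℕ, d = a + m := ⟨_, rfl⟩
  have hd0 : 0 < d := by omega
  obtain ⟨q0, hq0⟩ : ∃ q0 : ℕ, q0 = (j * d + (m - 1)) / m := ⟨_, rfl⟩
  obtain ⟨q1, hq1⟩ : ∃ q1 : ℕ, q1 = ((k + 1) * d + (m - 1)) / m := ⟨_, rfl⟩
  have a1 : j * d ≤ q0 * m := by
    have h := Nat.lt_div_mul_add (a := j * d + (m - 1)) hm
    rw [← hq0] at h
    omega
  have a2 : q0 * m ≤ j * d + (m - 1) := by
    rw [hq0]; exact Nat.div_mul_le_self _ _
  have b1 : (k + 1) * d ≤ q1 * m := by
    have h := Nat.lt_div_mul_add (a := (k + 1) * d + (m - 1)) hm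
    rw [← hq1] at h
    omega
  have b2 : q1 * m ≤ (k + 1) * d + (m - 1) := by
    rw [hq1]; exact Nat.div_mul_le_self _ _
  have hsub : Finset.Ico q0 q1 ⊆ (Finset.univ.filter (fun p : Fin (a + m) =>
      j ≤ (it a m p : ℕ) ∧ (it a m p : ℕ) ≤ k)).map Fin.valEmbedding := by
    intro p hp
    rw [Finset.mem_Ico] at hp
    have hpm1 : j * d ≤ p * m := a1.trans (Nat.mul_le_mul_right m hp.1)
    have hpm2 : p * m < (k + 1) * d := by
      have h1 : (p + 1) * m ≤ q1 * m := Nat.mul_le_mul_right m hp.2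
      have h2 : (p + 1) * m = p * m + m := by ring
      omega
    have hpd : p < a + m := by
      rw [← hd]
      have h1 : (k + 1) * d ≤ m * d := Nat.mul_le_mul_right d hk
      have h2 : p * m < d * m := by rw [Nat.mul_comm d m]; omega
      exact Nat.lt_of_mul_lt_mul_right h2
    rw [Finset.mem_map]
    refine ⟨⟨p, hpd⟩, ?_, rfl⟩
    rw [Finset.mem_filter]
    refine ⟨Finset.mem_univ _, ?_, ?_⟩
    · show j ≤ p * m / (a + m)
      rw [← hd]
      exact (Nat.le_div_iff_mul_le hd0).2 hpm1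
    · show p * m / (a + m) ≤ k
      rw [← hd]
      have := (Nat.div_lt_iff_lt_mul hd0).2 hpm2
      omega
  have hcard := Finset.card_le_card hsub
  rw [Finset.card_map, Nat.card_Ico] at hcard
  -- in natural numbers
  have hq : q1 ≤ (Finset.univ.filter (fun p : Fin (a + m) => j ≤ (it a m p : ℕ) ∧
        (it a m p : ℕ) ≤ k)).card + q0 := by omega
  have hmul := Nat.mul_le_mul_right m hq
  have e1 : (k + 1 - j) * d + j * d = (k + 1) * d := by
    rw [← Nat.add_mul]; congr 1; omega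
  have hfin : (k + 1 - j) * (a + m) ≤ ((Finset.univ.filter (fun p : Fin (a + m) =>
      j ≤ (it a m p : ℕ) ∧ (it a m p : ℕ) ≤ k)).card + 1) * m := by
    have e3 : (k + 1 - j) * (a + m) = (k + 1 - j) * d := congrArg _ hd.symm
    rw [Nat.add_mul] at hmul
    rw [Nat.add_mul, Nat.one_mul, e3]
    omega
  exact_mod_cast hfin

theorem pr_CntY (hZ : S_CntZ) : S_CntY := by
  intro a m _ j k hjk hk
  have hm : 0 < m := Nat.pos_of_ne_zero (NeZero.ne m)
  have hmR : (0 : ℝ) < m := by exact_mod_cast hm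
  have hfib : (Finset.univ.filter (fun p : Fin (a + m) => j ≤ (it a m p : ℕ) ∧
        (it a m p : ℕ) ≤ k)).card =
      (∑ i ∈ Finset.Icc j k, (Finset.univ.filter
        (fun p : Fin (a + m) => ¬ Bd a m p ∧ (it a m p : ℕ) = i)).card) + (k + 1 - j) := by
    have h1 := Finset.card_eq_sum_card_fiberwise
      (s := Finset.univ.filter (fun p : Fin (a + m) => j ≤ (it a m p : ℕ) ∧ (it a m p : ℕ) ≤ k))
      (t := Finset.Icc j k) (f := fun p : Fin (a + m) => (it a m p : ℕ))
      (fun p hp => by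
        have hp' := (Finset.mem_filter.1 (Finset.mem_coe.1 hp)).2
        exact Finset.mem_coe.2 (Finset.mem_Icc.2 hp'))
    rw [h1]
    have h2 : ∀ i ∈ Finset.Icc j k,
        ((Finset.univ.filter (fun p : Fin (a + m) => j ≤ (it a m p : ℕ) ∧
          (it a m p : ℕ) ≤ k)).filter (fun p : Fin (a + m) => (it a m p : ℕ) = i)).card =
        (Finset.univ.filter
          (fun p : Fin (a + m) => ¬ Bd a m p ∧ (it a m p : ℕ) = i)).card + 1 := by
      intro i hi
      rw [Finset.mem_Icc] at hi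
      have him : i < m := by omega
      have hz := hZ a m ⟨i, him⟩
      have e1 : (Finset.univ.filter (fun p : Fin (a + m) => j ≤ (it a m p : ℕ) ∧
          (it a m p : ℕ) ≤ k)).filter (fun p : Fin (a + m) => (it a m p : ℕ) = i) =
          (Finset.univ.filter (fun p : Fin (a + m) => ¬ Bd a m p ∧ (it a m p : ℕ) = i)) ∪
          (Finset.univ.filter (fun p : Fin (a + m) => Bd a m p ∧ it a m p = ⟨i, him⟩)) := by
        ext p
        simp only [Finset.mem_filter, Finset.mem_univ, true_and, Finset.mem_union]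
        constructor
        · rintro ⟨_, h⟩
          by_cases hb : Bd a m p
          · exact Or.inr ⟨hb, Fin.ext h⟩
          · exact Or.inl ⟨hb, h⟩
        · rintro (⟨_, h⟩ | ⟨_, h⟩)
          · exact ⟨⟨by omega, by omega⟩, h⟩
          · have h' : (it a m p : ℕ) = i := by rw [h]
            exact ⟨⟨by omega, by omega⟩, h'⟩
      rw [e1, Finset.card_union_of_disjoint, hz]
      rw [Finset.disjoint_left]
      intro p hp1 hp2
      exact (Finset.mem_filter.1 hp1).2.1 (Finset.mem_filter.1 hp2).2.1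
    rw [Finset.sum_congr rfl h2, Finset.sum_add_distrib]
    congr 1
    rw [Finset.sum_const, smul_eq_mul, mul_one, Nat.card_Icc]
  have hw := CntY_window a m j k hjk hk
  rw [hfib] at hw
  push_cast [Nat.cast_sub (show j ≤ k + 1 by omega)] at hw ⊢
  have e2 : (a : ℝ) / m * ((k : ℝ) + 1 - j) - 1 =
      (((k : ℝ) + 1 - j) * ((a : ℝ) + m) - (((k : ℝ) + 1 - j) + 1) * m) / m := by
    field_simp; ring
  rw [e2, div_le_iff₀ hmR]
  linarith

end Pool.Agent.Work.MP_499dc6_lc.HD
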