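import Pool.Agent.Work.MP_499dc6_lc.HD.Stmts

set_option autoImplicit false

namespace Pool.Agent.Work.MP_499dc6_lc.HD

theorem pr_Code : S_Code := by
  intro n N z0 z h
  let e : Fin n × Fin n → Fin N := fun p => Fin.castLE h (finProdFinEquiv p)
  have he : Function.Injective e := (Fin.castLE_injective h).comp finProdFinEquiv.injective
  let s : Equiv.Perm (Fin N) := Equiv.swap (e (z0, z0)) z
  refine ⟨fun x y => s (e (x, y)), fun x y x' y' hh => ?_, ?_⟩
  · have h1 := he (s.injective hh)
    exact ⟨congrArg Prod.fst h1, congrArg Prod.snd h1⟩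
  · exact Equiv.swap_apply_left _ _

end Pool.Agent.Work.MP_499dc6_lc.HD
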