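import Pool.Agent.Work.MP_499dc6_lc.HD.Stmts

/-!
# Homogeneous circuits of constant depth: item Comb
-/

set_option autoImplicit false

namespace Pool.Agent.Work.MP_499dc6_lc.HD

open MvPolynomial

/-- The case of large degree. -/
theorem Comb_large {al : ℝ} {Λ s l k : ℕ} (h2 : 2 * rho al Λ (l + 1) ≤ rho al Λ l)
    (hA : 2 * Real.log ((s : ℝ) + 1) ≤ rho al Λ l * k) :
    ((s : ℝ) + 1) * Real.exp (-(rho al Λ l * k)) ≤ Real.exp (-(rho al Λ (l + 1) * k)) := by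
  have hs : (0 : ℝ) < (s : ℝ) + 1 := by positivity
  have hk : (0 : ℝ) ≤ k := Nat.cast_nonneg k
  conv_lhs => rw [← Real.exp_log hs]
  rw [← Real.exp_add, Real.exp_le_exp]
  have h3 : 2 * rho al Λ (l + 1) * k ≤ rho al Λ l * k := mul_le_mul_of_nonneg_right h2 hk
  linarith

/-- The degree is small. -/
theorem Comb_small {al : ℝ} {Λ s l k : ℕ} (hal : 0 < al) (hq : 1 ≤ qs Λ (l + 1))
    (h256 : 256 * Real.log ((s : ℝ) + 1) / al ≤ Λ)
    (hmul : Λ * max (qs Λ l) 1 * qs Λ (l + 1) ≤ qs Λ (l + 2))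
    (hB : rho al Λ l * k < 2 * Real.log ((s : ℝ) + 1)) : 2 * k ≤ qs Λ (l + 2) := by
  have hq' : (0 : ℝ) < qs Λ (l + 1) := by exact_mod_cast hq
  have hm : (0 : ℝ) < ((max (qs Λ l) 1 : ℕ) : ℝ) := by
    exact_mod_cast lt_of_lt_of_le Nat.one_pos (le_max_right _ _)
  have h1 : al * k < 2 * Real.log ((s : ℝ) + 1) *
      (64 * ((max (qs Λ l) 1 : ℕ) : ℝ) * qs Λ (l + 1)) := by
    have h2 : rho al Λ l * k = al * k / (64 * ((max (qs Λ l) 1 : ℕ) : ℝ) * qs Λ (l + 1)) := by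
      unfold rho
      ring
    rw [h2, div_lt_iff₀ (by positivity)] at hB
    exact hB
  have h3 : 256 * Real.log ((s : ℝ) + 1) ≤ Λ * al := by
    rwa [div_le_iff₀ hal] at h256
  have h4 : (2 : ℝ) * k * al < (Λ * ((max (qs Λ l) 1 : ℕ) : ℝ) * qs Λ (l + 1)) * al := by
    calc (2 : ℝ) * k * al = 2 * (al * k) := by ring
      _ < 2 * (2 * Real.log ((s : ℝ) + 1) * (64 * ((max (qs Λ l) 1 : ℕ) : ℝ) * qs Λ (l + 1))) := by
          linarith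
      _ = (256 * Real.log ((s : ℝ) + 1)) * (((max (qs Λ l) 1 : ℕ) : ℝ) * qs Λ (l + 1)) := by ring
      _ ≤ (Λ * al) * (((max (qs Λ l) 1 : ℕ) : ℝ) * qs Λ (l + 1)) :=
          mul_le_mul_of_nonneg_right h3 (by positivity)
      _ = (Λ * ((max (qs Λ l) 1 : ℕ) : ℝ) * qs Λ (l + 1)) * al := by ring
  have h5 : (2 : ℝ) * k < Λ * ((max (qs Λ l) 1 : ℕ) : ℝ) * qs Λ (l + 1) :=
    lt_of_mul_lt_mul_right h4 hal.le
  have h6 : 2 * k < Λ * max (qs Λ l) 1 * qs Λ (l + 1) := by exact_mod_cast h5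
  exact (h6.trans_le hmul).le

/-- The distances. -/
theorem Comb_dist (hCFR : S_CFR) {al : ℝ} {Λ Δ l k : ℕ} (hΛ : 4 ≤ Λ) (hal : 0 < al)
    (hq : ∀ j, 1 ≤ j → 1 ≤ qs Λ j) (hl : l + 1 < Δ) (hk : 1 ≤ k) (h2k : 2 * k ≤ qs Λ (l + 2))
    (u : ℕ) (hu : u ≤ k) :
    4 * rho al Λ (l + 1) * k ≤ |(u : ℝ) * al - ((k : ℝ) - u) * (sl Λ Δ * al)| := by
  obtain ⟨h, rfl⟩ : ∃ h, Δ = h + 1 := ⟨Δ - 1, by omega⟩
  have h1 := hCFR Λ h (l + 1) u (k - u) hΛ (by omega) (by omega) (by omega)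
    (by rw [show u + (k - u) = k by omega]; exact h2k)
  rw [show u + (k - u) = k by omega, Nat.cast_sub hu] at h1
  have q1 : (0 : ℝ) < qs Λ (l + 1) := by exact_mod_cast hq (l + 1) (by omega)
  have q2 : (0 : ℝ) < qs Λ (l + 2) := by exact_mod_cast hq (l + 2) (by omega)
  have q3 : (0 : ℝ) < qs Λ (h + 1) := by exact_mod_cast hq (h + 1) (by omega)
  have e1 : 4 * rho al Λ (l + 1) * k = al * k / (16 * qs Λ (l + 1) * qs Λ (l + 2)) := by
    unfold rho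
    rw [max_eq_left (hq (l + 1) (by omega))]
    field_simp
    norm_num
  have e2 : (u : ℝ) * al - ((k : ℝ) - u) * (sl Λ (h + 1) * al) = al / qs Λ (h + 1) *
      ((u : ℝ) * qs Λ (h + 1) - ((k : ℝ) - u) * ((ps Λ (h + 1) : ℝ) + qs Λ (h + 1))) := by
    unfold sl
    field_simp
    ring
  rw [e1, e2, abs_mul, abs_of_pos (by positivity : 0 < al / (qs Λ (h + 1) : ℝ)),
    div_le_iff₀ (by positivity)]
  calc al * (k : ℝ) = al / qs Λ (h + 1) * ((k : ℝ) * qs Λ (h + 1)) := by field_simp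
    _ ≤ al / qs Λ (h + 1) * (16 * (qs Λ (l + 1) : ℝ) * qs Λ (l + 1 + 1) *
        |(u : ℝ) * qs Λ (h + 1) - ((k : ℝ) - u) * ((ps Λ (h + 1) : ℝ) + qs Λ (h + 1))|) :=
        mul_le_mul_of_nonneg_left h1 (by positivity)
    _ = al / qs Λ (h + 1) *
        |(u : ℝ) * qs Λ (h + 1) - ((k : ℝ) - u) * ((ps Λ (h + 1) : ℝ) + qs Λ (h + 1))| *
        (16 * qs Λ (l + 1) * qs Λ (l + 2)) := by ring

/-- The rate is not too small. -/
theorem Comb_rate {al : ℝ} {Λ Δ l : ℕ} (hΛ : 4 ≤ Λ) (hal : 21 ≤ al)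
    (hq : ∀ j, 1 ≤ j → 1 ≤ qs Λ j) (hmono : ∀ j, qs Λ j ≤ qs Λ (j + 1))
    (hmul : ∀ j, Λ * max (qs Λ j) 1 * qs Λ (j + 1) ≤ qs Λ (j + 2))
    (h22 : 22 * (qs Λ (Δ + 1) : ℝ) ≤ Real.exp (al / 2)) (hl : l + 1 < Δ) :
    7 * Real.exp (-(al / 2)) ≤ rho al Λ (l + 1) := by
  have q1 : (0 : ℝ) < qs Λ (l + 1) := by exact_mod_cast hq (l + 1) (by omega)
  have q2 : (0 : ℝ) < qs Λ (l + 2) := by exact_mod_cast hq (l + 2) (by omega)
  have hm : Monotone (qs Λ) := monotone_nat_of_le_succ hmono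
  obtain ⟨D, rfl⟩ : ∃ D, Δ = D + 1 := ⟨Δ - 1, by omega⟩
  have h1 : qs Λ (l + 1) * qs Λ (l + 2) ≤ qs Λ (D + 2) := by
    calc qs Λ (l + 1) * qs Λ (l + 2) ≤ qs Λ D * qs Λ (D + 1) :=
          Nat.mul_le_mul (hm (by omega)) (hm (by omega))
      _ ≤ Λ * max (qs Λ D) 1 * qs Λ (D + 1) := by
          refine Nat.mul_le_mul_right _ ?_
          calc qs Λ D ≤ max (qs Λ D) 1 := le_max_left _ _
            _ ≤ Λ * max (qs Λ D) 1 := Nat.le_mul_of_pos_left _ (by omega)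
      _ ≤ qs Λ (D + 2) := hmul D
  have h1' : (qs Λ (l + 1) : ℝ) * qs Λ (l + 2) ≤ qs Λ (D + 1 + 1) := by exact_mod_cast h1
  have e1 : rho al Λ (l + 1) = al / (64 * (qs Λ (l + 1) : ℝ) * qs Λ (l + 2)) := by
    unfold rho
    rw [max_eq_left (hq (l + 1) (by omega))]
  rw [e1, le_div_iff₀ (by positivity)]
  have hE : 0 < Real.exp (-(al / 2)) := Real.exp_pos _
  have hEE : Real.exp (-(al / 2)) * Real.exp (al / 2) = 1 := by
    rw [← Real.exp_add, neg_add_cancel, Real.exp_zero]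
  have h3 : (0 : ℝ) ≤ qs Λ (D + 1 + 1) := Nat.cast_nonneg _
  calc 7 * Real.exp (-(al / 2)) * (64 * (qs Λ (l + 1) : ℝ) * qs Λ (l + 2))
      = Real.exp (-(al / 2)) * (448 * ((qs Λ (l + 1) : ℝ) * qs Λ (l + 2))) := by ring
    _ ≤ Real.exp (-(al / 2)) * (21 * (22 * (qs Λ (D + 1 + 1) : ℝ))) := by
        refine mul_le_mul_of_nonneg_left ?_ hE.le
        linarith
    _ ≤ Real.exp (-(al / 2)) * (al * Real.exp (al / 2)) := by
        refine mul_le_mul_of_nonneg_left ?_ hE.le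
        exact mul_le_mul hal h22 (by positivity) (by linarith)
    _ = al * (Real.exp (-(al / 2)) * Real.exp (al / 2)) := by ring
    _ = al := by rw [hEE, mul_one]

/-- Item Comb. -/
theorem pr_Comb (hQs : S_Qs) (hCFR : S_CFR) (hPhi : S_Phi) (hRho : S_Rho) (hphi : CD.S_BBphi) :
    S_Comb := by
  intro Y Z _ _ K _ al Λ Δ s l k f hΛ hal h22 h256 hl hk hf hBB
  have hal0 : (0 : ℝ) < al := by linarith
  obtain ⟨hq, hmono, -⟩ := hQs Λ hΛ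
  obtain ⟨-, h2, hmul, hsl⟩ := hRho al Λ hal0 hΛ
  rcases le_or_gt (2 * Real.log ((s : ℝ) + 1)) (rho al Λ l * k) with hA | hB
  · exact CD.BB.mono hBB (Comb_large (h2 l) hA)
  · have h2k := Comb_small hal0 (hq (l + 1) (by omega)) h256 (hmul l) hB
    obtain ⟨s1, s2⟩ := hsl Δ (by omega)
    refine CD.BB.mono (hphi Y Z K al (sl Λ Δ * al) f k hf) ?_
    refine hPhi al (sl Λ Δ * al) (rho al Λ (l + 1)) k hal ?_ ?_ hk
      (Comb_rate hΛ hal hq hmono hmul h22 hl) (fun u hu => Comb_dist hCFR hΛ hal0 hq hl hk h2k u hu)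
    · nlinarith
    · exact mul_le_mul_of_nonneg_right s2 hal0.le

end Pool.Agent.Work.MP_499dc6_lc.HD
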