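import Pool.Agent.Work.MP_499dc6_lc.HD.Stmts

set_option autoImplicit false

namespace Pool.Agent.Work.MP_499dc6_lc.HD

open MvPolynomial

theorem pr_Deg : S_Deg := by
  intro k σ _ P S μ d k' hP hμ hF
  have h1 := hP (d := μ) (by rw [hμ]; exact one_ne_zero)
  have h2 : coeff μ (MvPolynomial.map (algebraMap (PowerSeries k) (LaurentSeries k))
      (P + C PowerSeries.X * S)) ≠ 0 := by
    rw [coeff_map, coeff_add, hμ, coeff_C_mul]
    intro h
    have h3 : (1 : PowerSeries k) + PowerSeries.X * coeff μ S = 0 := by
      apply IsFractionRing.injective (PowerSeries k) (LaurentSeries k)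
      rw [h, map_zero]
    have h4 := congrArg (PowerSeries.constantCoeff (R := k)) h3
    rw [map_add, map_mul, PowerSeries.constantCoeff_X, zero_mul, add_zero, map_one, map_zero] at h4
    exact one_ne_zero h4
  exact (hF h2).symm.trans h1

end Pool.Agent.Work.MP_499dc6_lc.HD
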