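import Pool.Agent.Work.MP_499dc6_lc.HD.Stmts
import Pool.Agent.Work.MP_499dc6_lc.CD.I_Circ

/-!
# Block HD, item Gates: upper bound for all gates
-/

set_option autoImplicit false

namespace Pool.Agent.Work.MP_499dc6_lc.HD

open MvPolynomial

section
variable {Y Z : Type} [Fintype Y] [Fintype Z] {K : Type} [Field K] {al be : ℝ}

theorem Gates_pow (hm : CD.S_BBmul) (h1 : CD.S_BBone) (f : MvPolynomial (Y ⊕ Z) K) (x : ℝ)
    (hf : CD.BB al be f (Real.exp (-x))) (m : ℕ) :
    CD.BB al be (f ^ m) (Real.exp (-(m * x))) := by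
  induction m with
  | zero =>
    rw [pow_zero]
    exact CD.BB.mono (h1 Y Z K al be) (by simp)
  | succ m ih =>
    rw [pow_succ]
    refine CD.BB.mono (hm Y Z K al be _ _ _ _ ih hf) (le_of_eq ?_)
    rw [← Real.exp_add]
    congr 1
    push_cast
    ring

theorem Gates_prod (hm : CD.S_BBmul) (h1 : CD.S_BBone) {ι : Type} (J : Finset ι)
    (f : ι → MvPolynomial (Y ⊕ Z) K) (x : ι → ℝ)
    (hf : ∀ j ∈ J, CD.BB al be (f j) (Real.exp (-(x j)))) :
    CD.BB al be (∏ j ∈ J, f j) (Real.exp (-(∑ j ∈ J, x j))) := by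
  classical
  induction J using Finset.induction_on with
  | empty =>
    rw [Finset.prod_empty, Finset.sum_empty]
    exact CD.BB.mono (h1 Y Z K al be) (by simp)
  | insert a J ha ih =>
    rw [Finset.prod_insert ha, Finset.sum_insert ha]
    refine CD.BB.mono (hm Y Z K al be _ _ _ _ (hf a (Finset.mem_insert_self _ _))
      (ih fun j hj => hf j (Finset.mem_insert_of_mem hj))) (le_of_eq ?_)
    rw [← Real.exp_add]
    congr 1
    ring

/-- a homogeneous polynomial of degree zero -/
theorem Gates_const (hs : CD.S_BBsmul) (h1 : CD.S_BBone) (f : MvPolynomial (Y ⊕ Z) K)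
    (hf : f.IsHomogeneous 0) : CD.BB al be f 1 := by
  have h2 : f.totalDegree = 0 := (totalDegree_zero_iff_isHomogeneous _).mpr hf
  rw [totalDegree_eq_zero_iff_eq_C] at h2
  rw [h2, ← mul_one (C _)]
  exact hs Y Z K al be _ _ _ (h1 Y Z K al be)

variable {s : ℕ} {F : Fin s → MvPolynomial (Y ⊕ Z) K} {lev : Fin s → ℕ} {ρ : ℕ → ℝ}

/-- the bound for factors -/
def GatesQ (al be : ℝ) (F : Fin s → MvPolynomial (Y ⊕ Z) K) (lev : Fin s → ℕ) (ρ : ℕ → ℝ)
    (l : ℕ) : Prop :=
  ∀ i, lev i ≤ l → ∀ k, 1 ≤ k → (F i).IsHomogeneous k →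
    CD.BB al be (F i) (Real.exp (-(ρ l * k)))

theorem Gates_zero (hF : IsHom F lev)
    (h0 : ∀ l : MvPolynomial (Y ⊕ Z) K, l.IsHomogeneous 1 → CD.BB al be l (Real.exp (-(ρ 0)))) :
    GatesQ al be F lev ρ 0 := by
  intro i hi k hk hhom
  by_cases hz : F i = 0
  · rw [hz]
    exact CD.BB.mono CD.BB.zero (Real.exp_pos _).le
  · obtain ⟨l, c, hl, hc, hFi⟩ := CD.Circ_normal 1 F lev hF.1 i
    have hone : ∀ j, c j ≠ 0 → F j = 1 := by
      intro j hj
      obtain ⟨h1, m, hm, hFj⟩ := hc j hj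
      rw [hFj]
      refine Finset.prod_eq_one fun j' _ => ?_
      have : m j' = 0 := by
        by_contra hne
        have := (hm j' hne).2
        omega
      rw [this, pow_zero]
    have hdeg : (F i).totalDegree ≤ 1 := by
      rw [hFi]
      refine (totalDegree_add _ _).trans (max_le hl ?_)
      refine totalDegree_finsetSum_le fun j _ => ?_
      by_cases hcj : c j = 0
      · simp [hcj]
      · rw [hone j hcj, mul_one, totalDegree_C]
        exact Nat.zero_le _
    have h2 := hhom.totalDegree hz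
    have hk1 : k = 1 := by omega
    subst hk1
    refine CD.BB.mono (h0 _ hhom) (le_of_eq ?_)
    simp

theorem Gates_isprod (hs : CD.S_BBsmul) (hm : CD.S_BBmul) (h1 : CD.S_BBone)
    (hF : IsHom F lev) (l : ℕ) (hQ : GatesQ al be F lev ρ l) (j : Fin s) (hj : lev j ≤ l + 1)
    (hp : CD.Circ_IsProd F lev j) (k : ℕ) (hk : (F j).IsHomogeneous k) :
    CD.BB al be (F j) (Real.exp (-(ρ l * k))) := by
  by_cases hz : F j = 0
  · rw [hz]
    exact CD.BB.mono CD.BB.zero (Real.exp_pos _).le
  · obtain ⟨m, hmm, hFj⟩ := hp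
    choose D hD using hF.2
    have hfac : ∀ j' ∈ (Finset.univ : Finset (Fin s)),
        CD.BB al be (F j' ^ m j') (Real.exp (-((m j' : ℝ) * (ρ l * D j')))) := by
      intro j' _
      by_cases hm0 : m j' = 0
      · rw [hm0, pow_zero]
        exact CD.BB.mono (h1 Y Z K al be) (by simp)
      · refine Gates_pow hm h1 _ _ ?_ _
        have hlev : lev j' ≤ l := by
          have := (hmm j' hm0).2
          omega
        rcases Nat.eq_zero_or_pos (D j') with h | h
        · have h3 : (F j').IsHomogeneous 0 := h ▸ hD j'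
          refine CD.BB.mono (Gates_const hs h1 _ h3) (le_of_eq ?_)
          rw [h]
          simp
        · exact hQ j' hlev (D j') h (hD j')
    have h4 := Gates_prod hm h1 Finset.univ (fun j' => F j' ^ m j') _ hfac
    have h5 : (∏ j', F j' ^ m j').IsHomogeneous (∑ j', D j' * m j') :=
      IsHomogeneous.prod _ _ _ fun j' _ => (hD j').pow (m j')
    rw [← hFj] at h4 h5
    have h6 : k = ∑ j', D j' * m j' := hk.inj_right h5 hz
    refine CD.BB.mono h4 (le_of_eq ?_)
    rw [h6]
    congr 2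
    push_cast
    rw [Finset.mul_sum]
    exact Finset.sum_congr rfl fun j' _ => by ring

theorem Gates_claim (hs : CD.S_BBsmul) (hm : CD.S_BBmul) (h1 : CD.S_BBone)
    (hF : IsHom F lev) (hρ : ∀ j, ρ (j + 1) ≤ ρ j)
    (h0 : ∀ l : MvPolynomial (Y ⊕ Z) K, l.IsHomogeneous 1 → CD.BB al be l (Real.exp (-(ρ 0))))
    (l : ℕ) (hQ : GatesQ al be F lev ρ l) (i : Fin s) (hi : lev i ≤ l + 1) (k : ℕ) (hk : 1 ≤ k)
    (hhom : (F i).IsHomogeneous k) :
    CD.BB al be (F i) (((s : ℝ) + 1) * Real.exp (-(ρ l * k))) := by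
  obtain ⟨A, c, hA, hc, hFi⟩ := CD.Circ_normal 1 F lev hF.1 i
  have hanti : ρ l ≤ ρ 0 := by
    clear hQ hi
    induction l with
    | zero => exact le_refl _
    | succ l ih => exact (hρ l).trans ih
  have hcomp : F i = homogeneousComponent k A + ∑ j, C (c j) * homogeneousComponent k (F j) := by
    have h2 : homogeneousComponent k (F i) = F i := by
      rw [homogeneousComponent_of_mem ((mem_homogeneousSubmodule _ _).mpr hhom), if_pos rfl]
    conv_lhs => rw [← h2, hFi]
    rw [map_add, map_sum]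
    congr 1
    refine Finset.sum_congr rfl fun j _ => ?_
    rw [homogeneousComponent_C_mul]
  have hE := (Real.exp_pos (-(ρ l * k))).le
  have hp1 : CD.BB al be (homogeneousComponent k A) (Real.exp (-(ρ l * k))) := by
    by_cases hk1 : k = 1
    · subst hk1
      refine CD.BB.mono (h0 _ (homogeneousComponent_isHomogeneous 1 A)) ?_
      rw [Real.exp_le_exp]
      push_cast
      linarith
    · rw [homogeneousComponent_eq_zero _ _ (by omega)]
      exact CD.BB.mono CD.BB.zero hE
  have hp2 : CD.BB al be (∑ j, C (c j) * homogeneousComponent k (F j))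
      ((Finset.univ : Finset (Fin s)).card * Real.exp (-(ρ l * k))) := by
    apply CD.Circ_sum
    intro j _
    by_cases hcj : c j = 0
    · rw [hcj, C_0, zero_mul]
      exact CD.BB.mono CD.BB.zero hE
    · obtain ⟨h2, h3⟩ := hc j hcj
      obtain ⟨D, hD⟩ := hF.2 j
      refine hs Y Z K al be _ _ _ ?_
      rw [homogeneousComponent_of_mem ((mem_homogeneousSubmodule _ _).mpr hD)]
      split_ifs with hkD
      · exact Gates_isprod hs hm h1 hF l hQ j (h2.trans hi) h3 k (hkD ▸ hD)
      · exact CD.BB.mono CD.BB.zero hE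
  rw [hcomp]
  refine CD.BB.mono (CD.BB.add hp1 hp2) (le_of_eq ?_)
  rw [Finset.card_univ, Fintype.card_fin]
  ring

end

theorem pr_Gates (hs : CD.S_BBsmul) (hm : CD.S_BBmul) (h1 : CD.S_BBone) : S_Gates := by
  intro Y Z _ _ K _ al be s Δ F lev ρ hF _ hρ h0 hstep hΔ i hi k hk hhom
  have hQ : ∀ l, l + 1 ≤ Δ → GatesQ al be F lev ρ l := by
    intro l
    induction l with
    | zero => exact fun _ => Gates_zero hF h0
    | succ l ih =>
      intro hl j hj k' hk' hhom'
      refine hstep l k' (F j) (by omega) hk' hhom' ?_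
      exact Gates_claim hs hm h1 hF hρ h0 l (ih (by omega)) j hj k' hk' hhom'
  exact Gates_claim hs hm h1 hF hρ h0 (Δ - 1) (hQ (Δ - 1) (by omega)) i (by omega) k hk hhom

end Pool.Agent.Work.MP_499dc6_lc.HD
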