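import Pool.Agent.Work.MP_499dc6_lc.HD.Stmts

/-!
# MP_499dc6_lc, HD, item Hard: the matrix of the hard polynomial
-/

set_option autoImplicit false

namespace Pool.Agent.Work.MP_499dc6_lc.HD

open MvPolynomial

/-- The multilinear monomial of a function on a set of positions. -/
noncomputable def Hard_cf {T V : Type} (S : Finset T) (f : T → V) : T × V →₀ ℕ :=
  ∑ t ∈ S, Finsupp.single (t, f t) 1

theorem Hard_cf_apply {T V : Type} [DecidableEq T] [DecidableEq V] (S : Finset T) (f : T → V)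
    (t : T) (v : V) : Hard_cf S f (t, v) = if t ∈ S ∧ f t = v then 1 else 0 := by
  classical
  unfold Hard_cf
  rw [Finsupp.finsetSum_apply]
  by_cases ht : t ∈ S
  · rw [Finset.sum_eq_single t]
    · rw [Finsupp.single_apply]
      simp [ht]
    · intro t' _ h
      rw [Finsupp.single_apply, if_neg]
      simp [h]
    · intro h
      exact absurd ht h
  · rw [Finset.sum_eq_zero, if_neg (fun h => ht h.1)]
    intro t' ht'
    rw [Finsupp.single_apply, if_neg]
    intro h
    have h1 : t' = t := (Prod.mk.inj h).1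
    exact ht (h1 ▸ ht')

theorem Hard_cf_le {T V : Type} (S : Finset T) (f : T → V) (x : T × V) : Hard_cf S f x ≤ 1 := by
  classical
  rw [show x = (x.1, x.2) from rfl, Hard_cf_apply]
  split_ifs <;> simp

theorem Hard_cf_sum {T V : Type} [Fintype T] [Fintype V] (S : Finset T) (f : T → V) :
    ∑ x, Hard_cf S f x = S.card := by
  classical
  rw [Fintype.sum_prod_type, ← Finset.sum_subset (Finset.subset_univ S)]
  · rw [Finset.card_eq_sum_ones]
    refine Finset.sum_congr rfl fun t ht => ?_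
    rw [Finset.sum_eq_single (f t)]
    · rw [Hard_cf_apply, if_pos ⟨ht, rfl⟩]
    · intro v _ hv
      rw [Hard_cf_apply, if_neg (fun h => hv h.2.symm)]
    · simp
  · intro t _ ht
    refine Finset.sum_eq_zero fun v _ => ?_
    rw [Hard_cf_apply, if_neg (fun h => ht h.1)]

theorem Hard_cf_dist {T V : Type} [Fintype T] [Fintype V] [DecidableEq V] (S : Finset T)
    (f g : T → V) :
    ∑ x, (Hard_cf S g x - Hard_cf S f x) = ∑ t ∈ S, if g t = f t then 0 else 1 := by
  classical
  rw [Fintype.sum_prod_type, ← Finset.sum_subset (Finset.subset_univ S)]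
  · refine Finset.sum_congr rfl fun t ht => ?_
    rw [Finset.sum_eq_single (g t)]
    · rw [Hard_cf_apply, Hard_cf_apply, if_pos ⟨ht, rfl⟩]
      by_cases h : g t = f t
      · rw [if_pos ⟨ht, h.symm⟩, if_pos h]
      · rw [if_neg (fun h' => h h'.2.symm), if_neg h]
    · intro v _ hv
      rw [Hard_cf_apply, if_neg (fun h => hv h.2.symm), Nat.zero_sub]
    · simp
  · intro t _ ht
    refine Finset.sum_eq_zero fun v _ => ?_
    rw [Hard_cf_apply, if_neg (fun h => ht h.1), Nat.zero_sub]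

theorem Hard_pow {T : Type} (S : Finset T) (P : T → Prop) [DecidablePred P] (r : ℝ) :
    r ^ (∑ t ∈ S, if P t then 0 else 1) = ∏ t ∈ S, if P t then 1 else r := by
  rw [← Finset.prod_pow_eq_pow_sum]
  refine Finset.prod_congr rfl fun t _ => ?_
  split_ifs <;> simp

theorem Hard_prodX {T σ R : Type} [CommSemiring R] (S : Finset T) (f : T → σ) :
    ∏ t ∈ S, (X (f t) : MvPolynomial σ R) = monomial (∑ t ∈ S, Finsupp.single (f t) 1) 1 := by
  classical
  induction S using Finset.induction_on with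
  | empty => simp
  | insert a S ha ih =>
    rw [Finset.prod_insert ha, Finset.sum_insert ha, ih, X, monomial_mul, one_mul]

theorem Hard_elim {T U V : Type} (S : Finset T) (S' : Finset U) (f : T → V) (g : U → V) :
    Finsupp.sumElim (Hard_cf S f) (Hard_cf S' g) =
      (∑ i ∈ S', Finsupp.single (Sum.inr (i, g i)) 1 : (T × V) ⊕ (U × V) →₀ ℕ) +
        ∑ t ∈ S, Finsupp.single (Sum.inl (t, f t)) 1 := by
  classical
  ext x
  rcases x with x | x
  · rw [Finsupp.sumElim_inl, Finsupp.add_apply, Finsupp.finsetSum_apply,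
      Finsupp.finsetSum_apply]
    unfold Hard_cf
    rw [Finsupp.finsetSum_apply]
    rw [Finset.sum_eq_zero (s := S')
      (fun i _ => by rw [Finsupp.single_apply, if_neg (by simp)]), zero_add]
    refine Finset.sum_congr rfl fun t _ => ?_
    rw [Finsupp.single_apply, Finsupp.single_apply]
    simp only [Sum.inl.injEq]
  · rw [Finsupp.sumElim_inr, Finsupp.add_apply, Finsupp.finsetSum_apply,
      Finsupp.finsetSum_apply]
    unfold Hard_cf
    rw [Finsupp.finsetSum_apply]
    rw [Finset.sum_eq_zero (s := S)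
      (fun i _ => by rw [Finsupp.single_apply, if_neg (by simp)]), add_zero]
    refine Finset.sum_congr rfl fun t _ => ?_
    rw [Finsupp.single_apply, Finsupp.single_apply]
    simp only [Sum.inr.injEq]

/-- The pair read at a position. -/
def Hard_yp {a m n : ℕ} [NeZero m] (s : Fin (m + 1) → Fin n) (p : Fin (a + m)) :
    Fin n × Fin n := (s (it a m p).castSucc, s (it a m p).succ)

/-- The first positions. -/
def Hard_S1 (a m : ℕ) : Finset (Fin (a + m)) := Finset.univ.filter fun p => Bd a m p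

/-- The other positions. -/
def Hard_S0 (a m : ℕ) : Finset (Fin (a + m)) := Finset.univ.filter fun p => ¬ Bd a m p

theorem Hard_S1_card (hZ : S_CntZ) (a m : ℕ) [NeZero m] : (Hard_S1 a m).card = m := by
  classical
  rw [Finset.card_eq_sum_card_fiberwise (f := it a m) (t := Finset.univ)
    (fun _ _ => Finset.mem_coe.2 (Finset.mem_univ _))]
  have h : ∀ i ∈ (Finset.univ : Finset (Fin m)),
      ((Hard_S1 a m).filter (fun p => it a m p = i)).card = 1 := by
    intro i _
    unfold Hard_S1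
    rw [Finset.filter_filter]
    exact hZ a m i
  rw [Finset.sum_congr rfl h]
  simp

theorem Hard_S0_card (hZ : S_CntZ) (a m : ℕ) [NeZero m] : (Hard_S0 a m).card = a := by
  have h1 := Finset.card_filter_add_card_filter_not (s := (Finset.univ : Finset (Fin (a + m))))
    (fun p => Bd a m p)
  have h2 := Hard_S1_card hZ a m
  unfold Hard_S1 at h2
  unfold Hard_S0
  rw [Finset.card_univ, Fintype.card_fin] at h1
  omega

theorem Hard_pw (R : Type) [CommSemiring R] (a m n : ℕ) [NeZero m] (z0 : Fin n) :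
    pw R a m n z0 = ∑ s : CD.Walk m n z0,
      monomial (Finsupp.sumElim (Hard_cf (Hard_S0 a m) (Hard_yp s.1))
        (Hard_cf (Hard_S1 a m) (Hard_yp s.1))) (1 : R) := by
  unfold pw
  refine Finset.sum_congr rfl fun s _ => ?_
  rw [Hard_elim, ← Finset.prod_filter_mul_prod_filter_not (s := Finset.univ)
    (fun p : Fin (a + m) => Bd a m p)]
  have h1 : ∏ p ∈ Finset.univ.filter (fun p : Fin (a + m) => Bd a m p),
      (X (lb a m n p (s.1 (it a m p).castSucc) (s.1 (it a m p).succ)) :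
      MvPolynomial ((Fin (a + m) × Fin n × Fin n) ⊕ (Fin (a + m) × Fin n × Fin n)) R) =
      monomial (∑ p ∈ Hard_S1 a m, Finsupp.single (Sum.inr (p, Hard_yp s.1 p)) 1) 1 := by
    rw [← Hard_prodX (Hard_S1 a m) (fun p : Fin (a + m) => Sum.inr (p, Hard_yp s.1 p))]
    refine Finset.prod_congr rfl fun p hp => ?_
    have hb := (Finset.mem_filter.1 hp).2
    unfold lb
    rw [if_pos hb]
    rfl
  have h2 : ∏ p ∈ Finset.univ.filter (fun p : Fin (a + m) => ¬ Bd a m p),
      (X (lb a m n p (s.1 (it a m p).castSucc) (s.1 (it a m p).succ)) :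
      MvPolynomial ((Fin (a + m) × Fin n × Fin n) ⊕ (Fin (a + m) × Fin n × Fin n)) R) =
      monomial (∑ p ∈ Hard_S0 a m, Finsupp.single (Sum.inl (p, Hard_yp s.1 p)) 1) 1 := by
    rw [← Hard_prodX (Hard_S0 a m) (fun p : Fin (a + m) => Sum.inl (p, Hard_yp s.1 p))]
    refine Finset.prod_congr rfl fun p hp => ?_
    have hb := (Finset.mem_filter.1 hp).2
    unfold lb
    rw [if_neg hb]
    rfl
  rw [h1, h2, monomial_mul, one_mul]

theorem Hard_side (hWalk : CD.S_Walk) (m n : ℕ) (z0 : Fin n) (hn : 1 ≤ n) (s : CD.Walk m n z0)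
    (w : ℕ → ℝ) (hw0 : ∀ i, 0 ≤ w i) (hw1 : ∀ i, w i ≤ 1)
    (hw : ∀ j k, j < k → k < m → (n : ℝ) ^ (k - j) * ∏ i ∈ Finset.Icc j k, w i ≤
      (n : ℝ) ^ (-(1 / 2) : ℝ))
    (hm : 10 * (m : ℝ) ^ 2 ≤ (n : ℝ) ^ (1 / 2 : ℝ)) (F : CD.Walk m n z0 → ℝ)
    (hF : ∀ s' : CD.Walk m n z0, F s' = ∏ i : Fin m,
      (if s'.1 i.castSucc = s.1 i.castSucc ∧ s'.1 i.succ = s.1 i.succ then (1 : ℝ) else w i)) :
    ∑ s' ∈ Finset.univ.erase s, F s' ≤ 1 / 4 := by
  have hn0 : (0 : ℝ) < n := by exact_mod_cast hn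
  have h := hWalk m n z0 s w ((n : ℝ) ^ (-(1 / 2) : ℝ)) (Real.rpow_nonneg hn0.le _) hw0 hw1 hw
  have h1 : ∑ s' : CD.Walk m n z0, F s' ≤ Real.exp ((m : ℝ) ^ 2 * (n : ℝ) ^ (-(1 / 2) : ℝ)) := by
    refine le_trans (le_of_eq ?_) h
    exact Finset.sum_congr rfl fun s' _ => hF s'
  have h2 : F s = 1 := by
    rw [hF s]
    exact Finset.prod_eq_one fun i _ => if_pos ⟨rfl, rfl⟩
  have h3 : ∑ s' ∈ Finset.univ.erase s, F s' = ∑ s' : CD.Walk m n z0, F s' - 1 := by
    rw [← Finset.add_sum_erase _ _ (Finset.mem_univ s), h2]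
    ring
  have h4 : (m : ℝ) ^ 2 * (n : ℝ) ^ (-(1 / 2) : ℝ) ≤ 1 / 10 := by
    have e : (n : ℝ) ^ (1 / 2 : ℝ) * (n : ℝ) ^ (-(1 / 2) : ℝ) = 1 := by
      rw [← Real.rpow_add hn0, add_neg_cancel, Real.rpow_zero]
    have p : 0 ≤ (n : ℝ) ^ (-(1 / 2) : ℝ) := Real.rpow_nonneg hn0.le _
    have := mul_le_mul_of_nonneg_right hm p
    rw [e] at this
    linarith
  have h5 : Real.exp ((m : ℝ) ^ 2 * (n : ℝ) ^ (-(1 / 2) : ℝ)) ≤ 10 / 9 := by
    refine (Real.exp_le_exp.2 h4).trans ?_
    have k := Real.one_sub_le_exp_neg (1 / 10)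
    rw [Real.exp_neg] at k
    have k2 := Real.exp_pos (1 / 10)
    have k3 : (9 : ℝ) / 10 ≤ (Real.exp (1 / 10))⁻¹ := by linarith
    rw [le_inv_comm₀ (by norm_num) k2] at k3
    refine k3.trans ?_
    norm_num
  rw [h3]
  linarith

/-- The weight of the distance, sorted by the steps. -/
theorem Hard_fib (a m n : ℕ) [NeZero m] (z0 : Fin n) (ρ : ℝ) (S : Finset (Fin (a + m)))
    (c s' : CD.Walk m n z0) :
    ρ ^ (∑ x, (Hard_cf S (Hard_yp s'.1) x - Hard_cf S (Hard_yp c.1) x)) = ∏ i : Fin m,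
      (if s'.1 i.castSucc = c.1 i.castSucc ∧ s'.1 i.succ = c.1 i.succ then (1 : ℝ) else
        ρ ^ (S.filter (fun p => it a m p = i)).card) := by
  classical
  rw [Hard_cf_dist, Hard_pow, ← Finset.prod_fiberwise (s := S) (g := it a m)]
  refine Finset.prod_congr rfl fun i _ => ?_
  have hc : ∀ t ∈ S.filter (fun p => it a m p = i),
      (if Hard_yp s'.1 t = Hard_yp c.1 t then (1 : ℝ) else ρ) =
      if s'.1 i.castSucc = c.1 i.castSucc ∧ s'.1 i.succ = c.1 i.succ then 1 else ρ := by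
    intro t ht
    have ht := (Finset.mem_filter.1 ht).2
    unfold Hard_yp
    rw [ht]
    simp only [Prod.mk.injEq]
  rw [Finset.prod_congr rfl hc, Finset.prod_const]
  split_ifs <;> simp

theorem pr_Hard (hConf : CD.S_Conf) (hWalk : CD.S_Walk) (hCard : CD.S_CardWalk) (hZ : S_CntZ)
    (hY : S_CntY) : S_Hard := by
  classical
  intro R _ a m n L l _ z0 r hn hr hrm hL hl hmn
  have hm : 1 ≤ m := Nat.one_le_iff_ne_zero.2 (NeZero.ne m)
  have hm0 : (0 : ℝ) < m := by exact_mod_cast hm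
  have hn0 : (0 : ℝ) < n := by exact_mod_cast hn
  have hn1 : (1 : ℝ) ≤ n := by exact_mod_cast hn
  have hr0 : (0 : ℝ) < r := by linarith
  have hir : 1 / r ≤ 1 / 2 := one_div_le_one_div_of_le (by norm_num) hr
  have hir0 : 0 < 1 / r := by positivity
  have ham : 0 < a + m := by omega
  have : Nonempty (Fin (a + m) × Fin n × Fin n) := ⟨(⟨0, ham⟩, z0, z0)⟩
  have cY : Fintype.card (Fin (a + m) × Fin n × Fin n) = (a + m) * n * n := by
    simp [mul_assoc]
  have cYr : ((Fintype.card (Fin (a + m) × Fin n × Fin n) : ℕ) : ℝ) =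
      ((a + m : ℕ) : ℝ) * n * n := by
    rw [cY]; push_cast; ring
  have cY1 : (1 : ℝ) ≤ ((a + m : ℕ) : ℝ) * n * n := by
    have : (1 : ℝ) ≤ ((a + m : ℕ) : ℝ) := by exact_mod_cast ham
    exact one_le_mul_of_one_le_of_one_le (one_le_mul_of_one_le_of_one_le this hn1) hn1
  set ρ : ℝ := (L : ℝ) / (((a + m : ℕ) : ℝ) * n * n + L - 1) with hρ
  set ρ' : ℝ := (l : ℝ) / (((a + m : ℕ) : ℝ) * n * n + l - 1) with hρ'
  have hρ0 : 0 ≤ ρ := div_nonneg (Nat.cast_nonneg _)
    (by have : (0 : ℝ) ≤ L := Nat.cast_nonneg _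
        linarith)
  have hρ'0 : 0 ≤ ρ' := div_nonneg (Nat.cast_nonneg _)
    (by have : (0 : ℝ) ≤ l := Nat.cast_nonneg _
        linarith)
  have hρ1 : ρ ≤ 1 := hL.trans (Real.rpow_le_one_of_one_le_of_nonpos hn1
    (neg_nonpos.2 hir0.le))
  have hρ'1 : ρ' ≤ 1 := hl.trans (Real.rpow_le_one_of_one_le_of_nonpos hn1 (by norm_num))
  obtain ⟨I, i1, i2, rr, cc, e1, e2⟩ := hConf (Fin (a + m) × Fin n × Fin n)
    (Fin (a + m) × Fin n × Fin n) R (CD.Walk m n z0)
    (fun s => Hard_cf (Hard_S0 a m) (Hard_yp s.1))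
    (fun s => Hard_cf (Hard_S1 a m) (Hard_yp s.1)) a m L l (1 / 4) (fun c i => Hard_cf_le _ _ _)
    (fun c i => Hard_cf_le _ _ _)
    (fun c => by rw [Hard_cf_sum, Hard_S0_card hZ])
    (fun c => by rw [Hard_cf_sum, Hard_S1_card hZ])
    (by
      intro c
      rw [cYr]
      refine Hard_side hWalk m n z0 hn c
        (fun i => ρ ^ (Finset.univ.filter
          (fun p : Fin (a + m) => ¬ Bd a m p ∧ (it a m p : ℕ) = i)).card)
        (fun i => pow_nonneg hρ0 _) (fun i => pow_le_one₀ hρ0 hρ1) ?_ hmn _ ?_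
      · intro j k hjk hk
        have hT := hY a m j k hjk.le hk
        rw [Finset.prod_pow_eq_pow_sum]
        set N : ℕ := ∑ i ∈ Finset.Icc j k, (Finset.univ.filter
          (fun p : Fin (a + m) => ¬ Bd a m p ∧ (it a m p : ℕ) = i)).card with hN
        have hkj : (0 : ℝ) ≤ (k : ℝ) + 1 - j := by
          have : (j : ℝ) ≤ k := by exact_mod_cast hjk.le
          linarith
        have hram : r ≤ (a : ℝ) / m := by
          rw [le_div_iff₀ hm0]
          exact hrm
        have hNr : r * ((k : ℝ) + 1 - j) - 1 ≤ N := by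
          have h1 : (a : ℝ) / m * ((k : ℝ) + 1 - j) - 1 ≤ N := by
            rw [hN]; push_cast; exact hT
          have h2 := mul_le_mul_of_nonneg_right hram hkj
          linarith
        have q1 : ρ ^ N ≤ (n : ℝ) ^ (-(1 / r) * N) := by
          rw [Real.rpow_mul hn0.le, Real.rpow_natCast]
          exact pow_le_pow_left₀ hρ0 hL _
        have q2 : (n : ℝ) ^ (k - j) = (n : ℝ) ^ ((k : ℝ) - j) := by
          rw [← Nat.cast_sub hjk.le, Real.rpow_natCast]
        calc (n : ℝ) ^ (k - j) * ρ ^ N ≤ (n : ℝ) ^ ((k : ℝ) - j) * (n : ℝ) ^ (-(1 / r) * N) := by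
              rw [q2]
              exact mul_le_mul_of_nonneg_left q1 (Real.rpow_nonneg hn0.le _)
          _ = (n : ℝ) ^ ((k : ℝ) - j + -(1 / r) * N) := (Real.rpow_add hn0 _ _).symm
          _ ≤ (n : ℝ) ^ (-(1 / 2) : ℝ) := by
              refine Real.rpow_le_rpow_of_exponent_le hn1 ?_
              have q3 : (1 / r) * (r * ((k : ℝ) + 1 - j) - 1) ≤ (1 / r) * N :=
                mul_le_mul_of_nonneg_left hNr hir0.le
              have q4 : (1 / r) * (r * ((k : ℝ) + 1 - j) - 1) = ((k : ℝ) + 1 - j) - 1 / r := by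
                field_simp
              rw [q4] at q3
              linarith
      · intro s'
        rw [Hard_fib]
        refine Finset.prod_congr rfl fun i _ => ?_
        have hf : (Hard_S0 a m).filter (fun p => it a m p = i) = Finset.univ.filter
            (fun p : Fin (a + m) => ¬ Bd a m p ∧ (it a m p : ℕ) = i) := by
          unfold Hard_S0
          rw [Finset.filter_filter]
          refine Finset.filter_congr fun t _ => ?_
          rw [Fin.ext_iff]
        rw [hf])
    (by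
      intro c
      rw [cYr]
      refine Hard_side hWalk m n z0 hn c (fun _ => ρ') (fun i => hρ'0) (fun i => hρ'1) ?_ hmn _ ?_
      · intro j k hjk hk
        rw [Finset.prod_const, Nat.card_Icc]
        have q2 : (n : ℝ) ^ (k - j) = (n : ℝ) ^ ((k : ℝ) - j) := by
          rw [← Nat.cast_sub hjk.le, Real.rpow_natCast]
        have q1 : ρ' ^ (k + 1 - j) ≤ (n : ℝ) ^ (-1 * ((k : ℝ) + 1 - j)) := by
          have q3 : ((k : ℝ) + 1 - j) = ((k + 1 - j : ℕ) : ℝ) := by
            rw [Nat.cast_sub (by omega)]; push_cast; ring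
          rw [q3, Real.rpow_mul hn0.le, Real.rpow_natCast]
          exact pow_le_pow_left₀ hρ'0 hl _
        calc (n : ℝ) ^ (k - j) * ρ' ^ (k + 1 - j) ≤
            (n : ℝ) ^ ((k : ℝ) - j) * (n : ℝ) ^ (-1 * ((k : ℝ) + 1 - j)) := by
              rw [q2]
              exact mul_le_mul_of_nonneg_left q1 (Real.rpow_nonneg hn0.le _)
          _ = (n : ℝ) ^ ((k : ℝ) - j + -1 * ((k : ℝ) + 1 - j)) := (Real.rpow_add hn0 _ _).symm
          _ ≤ (n : ℝ) ^ (-(1 / 2) : ℝ) := by
              refine Real.rpow_le_rpow_of_exponent_le hn1 ?_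
              linarith
      · intro s'
        rw [Hard_fib]
        refine Finset.prod_congr rfl fun i _ => ?_
        have hf : ((Hard_S1 a m).filter (fun p => it a m p = i)).card = 1 := by
          unfold Hard_S1
          rw [Finset.filter_filter]
          exact hZ a m i
        rw [hf, pow_one])
  refine ⟨I, i1, i2, rr, cc, ?_, ?_⟩
  · rw [Hard_pw R a m n z0]
    exact e1
  · rw [cY, hCard m n z0 hm] at e2
    push_cast at e2 ⊢
    linarith

end Pool.Agent.Work.MP_499dc6_lc.HD
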