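import Pool.Agent.Work.MP_499dc6_lc.HD.Stmts

/-! # Block HD, item LEx: choice of `L` -/

set_option autoImplicit false

namespace Pool.Agent.Work.MP_499dc6_lc.HD

theorem LEx_ratio {V E x L a : ℝ} (hE : 1 < E) (hx : x * (E - 1) = V) (hx0 : 0 < x)
    (hL : x - a ≤ L + 1) (ha : 0 ≤ a) (hL0 : 0 < L + 1) :
    (V + 1 + L) / (L + 1) * (1 - a / x) ≤ E := by
  rw [div_mul_eq_mul_div, div_le_iff₀ hL0]
  have h1 : x * (1 - a / x) = x - a := by
    field_simp
  have h2 : V * (1 - a / x) = (E - 1) * (x - a) := by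
    rw [← hx, ← h1]; ring
  have h3 : (E - 1) * (x - a) ≤ (E - 1) * (L + 1) :=
    mul_le_mul_of_nonneg_left hL (by linarith)
  have h4 : 0 ≤ a / x := div_nonneg ha hx0.le
  have h5 : (V + 1 + L) * (1 - a / x) = V * (1 - a / x) + (L + 1) * (1 - a / x) := by ring
  have h6 : (L + 1) * (1 - a / x) ≤ (L + 1) * 1 :=
    mul_le_mul_of_nonneg_left (by linarith) hL0.le
  rw [h5, h2]
  linarith

theorem pr_LEx (hG : CD.S_Grow2) : S_LEx := by
  intro a m n r al hm hd hd7 hr2 hr3 hal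
  have hdd : (a + m) ^ 2 ≤ n + 1 := le_trans (Nat.pow_le_pow_right (by omega) (by norm_num)) hd7
  have hdn : a + m ≤ n + 1 := le_trans (by nlinarith) hdd
  have hn : 999 ≤ n := by omega
  have hnR : (999 : ℝ) ≤ n := by exact_mod_cast hn
  set D : ℝ := ((a + m : ℕ) : ℝ) with hD
  have hDR : (1000 : ℝ) ≤ D := by rw [hD]; exact_mod_cast hd
  have haD : (a : ℝ) + 1 ≤ D := by
    rw [hD]; push_cast
    have : (1 : ℝ) ≤ m := by exact_mod_cast hm
    linarith
  have ha0 : (0 : ℝ) ≤ a := Nat.cast_nonneg a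
  have hD2 : D ^ 2 ≤ (n : ℝ) + 1 := by rw [hD]; exact_mod_cast hdd
  -- the number `E`
  set E : ℝ := Real.exp al with hE
  have hlog : 0 < Real.log ((n : ℝ) + 1) := Real.log_pos (by linarith)
  have hal0 : 0 < al := by rw [hal]; exact div_pos hlog (by linarith)
  have hE1 : 1 < E := by rw [hE]; exact Real.one_lt_exp_iff.2 hal0
  have hE2 : E ^ 2 ≤ (n : ℝ) + 1 := by
    have h1 : E ^ 2 = Real.exp (2 * al) := by
      rw [hE, ← Real.exp_nat_mul]; norm_num
    rw [h1]
    have h2 : 2 * al ≤ Real.log ((n : ℝ) + 1) := by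
      rw [hal, mul_div_assoc', div_le_iff₀ (by linarith), mul_comm]
      exact mul_le_mul_of_nonneg_left hr2 hlog.le
    calc Real.exp (2 * al) ≤ Real.exp (Real.log ((n : ℝ) + 1)) := Real.exp_le_exp.2 h2
      _ = (n : ℝ) + 1 := Real.exp_log (by linarith)
  set q : ℝ := Real.sqrt ((n : ℝ) + 1) with hq
  have hqq : q * q = (n : ℝ) + 1 := Real.mul_self_sqrt (by linarith)
  have hEq : E ≤ q := by rw [hq]; exact Real.le_sqrt_of_sq_le hE2
  have hDq : D ≤ q := by rw [hq]; exact Real.le_sqrt_of_sq_le hD2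
  have hqn : q ≤ n := by
    rw [hq]
    apply Real.sqrt_le_iff.2
    constructor
    · linarith
    · nlinarith
  -- the numbers `V` and `x`
  set V : ℝ := D * n * n - 1 with hV
  set x : ℝ := V / (E - 1) with hx
  have hE10 : 0 < E - 1 := by linarith
  have hxE : x * (E - 1) = V := div_mul_cancel₀ V hE10.ne'
  have hn2 : D * n ≤ D * n * n := by
    have h1 : 0 ≤ D * n := by positivity
    exact le_mul_of_one_le_right h1 (by linarith)
  have hV0 : 0 < V := by
    have h1 : 1000 * 999 ≤ D * n := mul_le_mul hDR hnR (by norm_num) (by linarith)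
    rw [hV]; linarith
  have hxa : (a : ℝ) + 1 ≤ x := by
    rw [hx, le_div_iff₀ hE10, hV]
    have h1 : ((a : ℝ) + 1) * (E - 1) ≤ D * (n - 1) := by
      apply mul_le_mul haD (by linarith) hE10.le (by linarith)
    linarith
  have hx0 : 0 < x := by linarith
  have hfl : (⌊x⌋₊ : ℝ) ≤ x := Nat.floor_le hx0.le
  have hfl2 : x < (⌊x⌋₊ : ℝ) + 1 := Nat.lt_floor_add_one x
  have hflN : a + 1 ≤ ⌊x⌋₊ := Nat.le_floor (by push_cast; exact hxa)
  have hLc : ((⌊x⌋₊ - a : ℕ) : ℝ) = (⌊x⌋₊ : ℝ) - a := by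
    rw [Nat.cast_sub (by omega)]
  refine ⟨⌊x⌋₊ - a, by omega, ?_, ?_, ?_⟩
  · rw [hLc]
    have h1 : ((⌊x⌋₊ : ℝ) - a + a) = ⌊x⌋₊ := by ring
    rw [h1]
    have h2 : (0 : ℝ) < ⌊x⌋₊ := by
      have : 0 < ⌊x⌋₊ := by omega
      exact_mod_cast this
    rw [le_div_iff₀ h2]
    have h3 : (E - 1) * (⌊x⌋₊ : ℝ) ≤ (E - 1) * x := mul_le_mul_of_nonneg_left hfl hE10.le
    have h4 : D * n * n - 1 = (E - 1) * x := by rw [← hV, ← hxE]; ring
    linarith
  · rw [hLc]
    have h1 : (n : ℝ) ^ (-(1 / r)) = Real.exp (Real.log n * (-(1 / r))) :=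
      Real.rpow_def_of_pos (by linarith) _
    have h2 : 1 / E ≤ (n : ℝ) ^ (-(1 / r)) := by
      rw [h1, hE, one_div, ← Real.exp_neg]
      apply Real.exp_le_exp.2
      rw [hal]
      have h3 : Real.log (n : ℝ) ≤ Real.log ((n : ℝ) + 1) :=
        Real.log_le_log (by linarith) (by linarith)
      have h4 : Real.log (n : ℝ) / r ≤ Real.log ((n : ℝ) + 1) / r :=
        div_le_div_of_nonneg_right h3 (by linarith)
      have h5 : Real.log (n : ℝ) * (-(1 / r)) = -(Real.log (n : ℝ) / r) := by ring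
      rw [h5]
      linarith
    refine le_trans ?_ h2
    have h6 : (1 : ℝ) ≤ (⌊x⌋₊ : ℝ) - a := by
      have : ((a + 1 : ℕ) : ℝ) ≤ ⌊x⌋₊ := by exact_mod_cast hflN
      push_cast at this
      linarith
    rw [div_le_div_iff₀ (by rw [hV] at hV0; linarith) (by linarith)]
    have h7 : ((⌊x⌋₊ : ℝ) - a) * (E - 1) ≤ x * (E - 1) :=
      mul_le_mul_of_nonneg_right (by linarith) hE10.le
    rw [hxE, hV] at h7
    linarith
  · have hN1 : 1 ≤ (a + m) * n * n := by
      have h1 : 0 < a + m := by omega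
      have h2 : 0 < n := by omega
      exact Nat.mul_pos (Nat.mul_pos h1 h2) h2
    have h1 := hG ((a + m) * n * n) (⌊x⌋₊ - a) a hN1
    set L : ℕ := ⌊x⌋₊ - a with hL
    have hratio : ((((a + m) * n * n : ℕ) : ℝ) + L) / (L + 1) = (V + 1 + L) / (L + 1) := by
      rw [hV, hD]; push_cast; ring
    have hL0 : (0 : ℝ) < (L : ℝ) + 1 := by positivity
    have h2 : (V + 1 + L) / (L + 1) * (1 - a / x) ≤ E :=
      LEx_ratio hE1 hxE hx0 (by rw [hLc]; linarith) ha0 hL0
    -- `a δ ≤ 2 / 3`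
    have h3 : (a : ℝ) * (a / x) ≤ 2 / 3 := by
      rw [mul_div_assoc', div_le_iff₀ hx0]
      have h4 : 3 * ((a : ℝ) * a) * (E - 1) ≤ 2 * V := by
        have h5 : (a : ℝ) * a ≤ D * q :=
          mul_le_mul (by linarith) (by linarith) ha0 (by linarith)
        have h6 : (a : ℝ) * a * (E - 1) ≤ D * q * q :=
          mul_le_mul h5 (by linarith) hE10.le (by positivity)
        have h7 : D * q * q = D * ((n : ℝ) + 1) := by rw [mul_assoc, hqq]
        rw [hV]
        have h8 : 3 * (D * ((n : ℝ) + 1)) ≤ 2 * (D * n * n - 1) := by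
          have h10 : D * n * 999 ≤ D * n * n := mul_le_mul_of_nonneg_left hnR (by positivity)
          have h11 : D * 999 ≤ D * n := mul_le_mul_of_nonneg_left hnR (by linarith)
          linarith
        rw [h7] at h6
        linarith
      have h9 : 3 * ((a : ℝ) * a) ≤ 2 * x := by
        rw [hx, mul_div_assoc', le_div_iff₀ hE10]
        exact h4
      linarith
    have hax1 : (a : ℝ) / x ≤ 1 := by
      rw [div_le_one hx0]; linarith
    have h4 : (1 : ℝ) / 3 ≤ (1 - a / x) ^ a := by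
      have h5 := one_add_mul_le_pow (a := -((a : ℝ) / x)) (by linarith) a
      have h6 : (1 : ℝ) + -((a : ℝ) / x) = 1 - a / x := by ring
      rw [h6] at h5
      refine le_trans ?_ h5
      rw [mul_neg]
      linarith
    have hR0 : 0 ≤ (V + 1 + L) / (L + 1) := by positivity
    have h5 : ((V + 1 + L) / (L + 1)) ^ a ≤ 3 * E ^ a := by
      have h6 : ((V + 1 + L) / (L + 1)) ^ a * (1 - a / x) ^ a ≤ E ^ a := by
        rw [← mul_pow]
        exact pow_le_pow_left₀ (mul_nonneg hR0 (by linarith)) h2 a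
      have h7 : ((V + 1 + L) / (L + 1)) ^ a * (1 / 3) ≤
          ((V + 1 + L) / (L + 1)) ^ a * (1 - a / x) ^ a :=
        mul_le_mul_of_nonneg_left h4 (pow_nonneg hR0 a)
      linarith
    have h6 : Real.exp (al * a) = E ^ a := by
      rw [mul_comm, Real.exp_nat_mul]
    rw [hratio] at h1
    rw [h6]
    have hT0 : (0 : ℝ) ≤ CD.TT ((a + m) * n * n) L := Nat.cast_nonneg _
    calc (CD.TT ((a + m) * n * n) (L + a) : ℝ)
        ≤ CD.TT ((a + m) * n * n) L * ((V + 1 + L) / (L + 1)) ^ a := h1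
      _ ≤ CD.TT ((a + m) * n * n) L * (3 * E ^ a) := mul_le_mul_of_nonneg_left h5 hT0
      _ = 3 * (CD.TT ((a + m) * n * n) L * E ^ a) := by ring

end Pool.Agent.Work.MP_499dc6_lc.HD
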