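import Pool.Agent.Work.MP_499dc6_lc.HD.Stmts

/-!
# Block HD, item Lin (helper37)
-/

set_option autoImplicit false

namespace Pool.Agent.Work.MP_499dc6_lc.HD

open MvPolynomial

theorem Lin_rho (al : ℝ) (Λ : ℕ) : rho al Λ 0 = al / 64 := by
  unfold rho
  rw [show qs Λ 0 = 0 from rfl, show qs Λ (0 + 1) = 1 from rfl]
  norm_num

theorem Lin_phi (al be : ℝ) (hal : 0 ≤ al) (hbe : al ≤ be) :
    CD.phi al be 1 = Real.exp (-(be / 2)) + Real.exp (-(al / 2)) := by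
  unfold CD.phi
  rw [Finset.sum_range_succ, Finset.sum_range_succ, Finset.sum_range_zero, zero_add]
  have h1 : |((0 : ℕ) : ℝ) * al - (((1 : ℕ) : ℝ) - ((0 : ℕ) : ℝ)) * be| = be := by
    rw [show ((0 : ℕ) : ℝ) * al - (((1 : ℕ) : ℝ) - ((0 : ℕ) : ℝ)) * be = -be by push_cast; ring,
      abs_neg, abs_of_nonneg (le_trans hal hbe)]
  have h2 : |((1 : ℕ) : ℝ) * al - (((1 : ℕ) : ℝ) - ((1 : ℕ) : ℝ)) * be| = al := by
    rw [show ((1 : ℕ) : ℝ) * al - (((1 : ℕ) : ℝ) - ((1 : ℕ) : ℝ)) * be = al by push_cast; ring,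
      abs_of_nonneg hal]
  rw [h1, h2]

theorem pr_Lin (hphi : CD.S_BBphi) : S_Lin := by
  intro Y Z _ _ K _ al be Λ l hal hbe hl
  refine CD.BB.mono (hphi Y Z K al be l 1 hl) ?_
  rw [Lin_phi al be (by linarith) hbe, Lin_rho]
  have h1 : Real.exp (-(be / 2)) ≤ Real.exp (-(al / 2)) :=
    Real.exp_le_exp.mpr (by linarith)
  have h2 : (2 : ℝ) ≤ Real.exp (al / 2 - al / 64) := by
    have := Real.add_one_le_exp (al / 2 - al / 64)
    linarith
  have h3 : Real.exp (-(al / 64)) = Real.exp (al / 2 - al / 64) * Real.exp (-(al / 2)) := by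
    rw [← Real.exp_add]; congr 1; ring
  rw [h3]
  have h4 : 0 < Real.exp (-(al / 2)) := Real.exp_pos _
  nlinarith

end Pool.Agent.Work.MP_499dc6_lc.HD
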