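import Pool.Agent.Work.MP_499dc6_lc.HD.Stmts

/-!
# Block HD, item LinT: transitivity of linear substitutions
-/

set_option autoImplicit false

namespace Pool.Agent.Work.MP_499dc6_lc.HD

open MvPolynomial

theorem pr_LinT : S_LinT := by
  intro σ τ υ R _ f g h hfg hgh
  obtain ⟨θ, hθ, hf⟩ := hfg
  obtain ⟨η, hη, hg⟩ := hgh
  refine ⟨fun x => aeval η (θ x), fun x => ?_, ?_⟩
  · have := (hθ x).aeval η hη
    simpa using this
  · rw [← hg, ← hf]
    exact (comp_aeval_apply (f := θ) (aeval η) f).symm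

end Pool.Agent.Work.MP_499dc6_lc.HD
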