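import Pool.Agent.Work.MP_499dc6_lc.HD.Defs
import Pool.Agent.Work.MP_499dc6_lc.CD.Stmts

/-!
# Homogeneous circuits of constant depth over every field: statements of the items

THEOREM HD. Homogeneous circuits with `s` gates and product depth `Δ` over `k((ε))`, `k` any field,
one gate of which is `f + ε R` with `f ↦ IMM_(N,d)` by linear forms, `d^14 ≤ N`, satisfy
`d ≤ (1200 (1 + log (s+1) / log N))^(fib (Δ+2) - 1)`.

Notation of the proof. `α > 0`, `β = sl Λ Δ * α`, slope `sl Λ Δ = 1 + p_Δ / q_Δ ∈ [2, 7/3]`.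
`CD.BB α β f c`: `f` is a sum of products `g h` of bihomogeneous polynomials with
`∑ exp ((exc h - exc g)/2) ≤ c`, `exc (u, v) = u α - v β`. It is submultiplicative (`CD.S_BBmul`) and
`≤ phi α β k` for homogeneous polynomials of degree `k` (`CD.S_BBphi`).
Products of gates of level `< l` and total degree `k` get the bound `exp (- rho (l-1) k)`, linear
combinations of them `(s+1) exp (- rho (l-1) k)`, and with `phi` for small `k` again `exp (- rho l k)`.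
-/

set_option autoImplicit false

namespace Pool.Agent.Work.MP_499dc6_lc.HD

open MvPolynomial

/-! ## Part U: upper bound for the gates -/

/-- Landed (`Fib.pr_Qs`): elementary properties of the continued fraction. -/
def S_Qs : Prop :=
  ∀ Λ : ℕ, 4 ≤ Λ →
    (∀ j, 1 ≤ j → 1 ≤ qs Λ j) ∧ (∀ j, qs Λ j ≤ qs Λ (j + 1)) ∧
    (∀ j, 4 * qs Λ j ≤ qs Λ (j + 2)) ∧ (∀ j, 2 ≤ j → qs Λ j < ps Λ j) ∧
    (∀ j, 1 ≤ j → qs Λ j ≤ ps Λ j ∧ 3 * (ps Λ j - qs Λ j) ≤ qs Λ j) ∧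
    (∀ j, (ps Λ (j + 1) : ℤ) * qs Λ j - ps Λ j * qs Λ (j + 1) = (-1) ^ (j + 1)) ∧
    (∀ j, 1 ≤ j → qs Λ j ≤ (Λ + 1) ^ (Nat.fib (j + 1) - 1))

/-- Landed (`Fib.pr_CF`): distance to the slope. -/
def S_CF : Prop :=
  ∀ Λ h j u v : ℕ, 4 ≤ Λ → 1 ≤ j → j ≤ h → 1 ≤ u + v → 2 * (u + v) ≤ qs Λ (j + 1) →
    (((u + v : ℕ) : ℝ)) * qs Λ (h + 1) ≤ 8 * (qs Λ j : ℝ) * qs Λ (j + 1) *
      |(u : ℝ) * qs Λ (h + 1) - v * ps Λ (h + 1)|

/-- [Tr] EASY. `HD.qs = Fib.qs`, `HD.ps = Fib.ps` (same recursion, strong induction), hence the two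
statements above from `Fib.pr_Qs`, `Fib.pr_CF Fib.pr_Qs`. Import `Fib.I_Qs`, `Fib.I_CF`. -/
def S_Tr : Prop := S_Qs ∧ S_CF

/-- [CFR] EASY-MEDIUM (hQs : S_Qs) (hCF : S_CF). Distance to the slope `1 + P/Q`, `P = ps Λ (h+1)`,
`Q = qs Λ (h+1)`, `Q ≤ P`, `k = u + v`. If `v ≤ u` apply `S_CF` to `u - v, v` (sum `u`, if `u ≥ 1`):
`u Q ≤ 8 q_j q_(j+1) |(u-v) Q - v P|` and `|(u - v) Q - v P| = |u Q - v (P + Q)|`, `u + v ≤ 2 u`. If
`u < v`: `v (P+Q) - u Q ≥ v P ≥ v Q ≥ (u+v) Q / 2` and `q_j, q_(j+1) ≥ 1`. -/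
def S_CFR : Prop :=
  ∀ Λ h j u v : ℕ, 4 ≤ Λ → 1 ≤ j → j ≤ h → 1 ≤ u + v → 2 * (u + v) ≤ qs Λ (j + 1) →
    (((u + v : ℕ) : ℝ)) * qs Λ (h + 1) ≤ 16 * (qs Λ j : ℝ) * qs Λ (j + 1) *
      |(u : ℝ) * qs Λ (h + 1) - v * ((ps Λ (h + 1) : ℝ) + qs Λ (h + 1))|

/-- [Phi] MEDIUM. The trivial bound. `x_u = u α - (k - u) β = u γ - k β`, `γ = α + β`,
`2 α ≤ γ ≤ (10/3) α`, is an arithmetic progression with `x_0 < 0 < x_k` and all `|x_u| ≥ h`,
`h = 4 ρ k > 0`. Let `v` be the last index with `x_v < 0`, `y = -x_v`, `y' = x_(v+1) = γ - y`; so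
`y, y' ≥ h`, `h ≤ γ/2`. The terms with `u ≤ v` are `exp (-(y + i γ)/2)`, those with `u > v` are
`exp (-(y' + i γ)/2)`, `i = 0, 1, ...`; so `phi ≤ (exp(-y/2) + exp(-y'/2)) / (1 - exp(-γ/2))`. By
convexity (`y + y' = γ`, both `≥ h`; [(e^(-h/2) - e^(-y/2)) (1 - e^(-(y' - h)/2)) ≥ 0 and
`y + y' - h = γ - h`]) `exp(-y/2) + exp(-y'/2) ≤ exp(-h/2) + exp(-(γ-h)/2) ≤ exp(-h/2) + exp(-α/2)`
(`(γ - h)/2 ≥ γ/4 ≥ α/2`). `exp (-γ/2) ≤ exp(-α)`, so (`α ≥ 21`) `phi ≤ exp(-h/2) + 1.1 exp(-α/2)`.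
With `x = ρ k`: `h/2 = 2x`, `x = h/4 ≤ γ/8 ≤ (5/12) α`. `exp(-x) - exp(-2x) = exp(-x)(1 - exp(-x))` is at
least `x/(2e) ≥ ρ/6 ≥ (7/6) exp(-α/2)` if `x ≤ 1` (`1 - e^(-x) ≥ x/2`), and at least
`0.63 exp(-(5/12) α) ≥ 1.1 exp(-α/2)` if `x ≥ 1` (`exp (α/12) ≥ exp(7/4) ≥ 1.75`). -/
def S_Phi : Prop :=
  ∀ (al be ρ : ℝ) (k : ℕ), 21 ≤ al → al ≤ be → be ≤ 7 / 3 * al → 1 ≤ k →
    7 * Real.exp (-(al / 2)) ≤ ρ →
    (∀ u : ℕ, u ≤ k → 4 * ρ * k ≤ |(u : ℝ) * al - ((k : ℝ) - u) * be|) →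
    CD.phi al be k ≤ Real.exp (-(ρ * k))

/-- [Lin] EASY (hphi : CD.S_BBphi). `CD.phi α β 1 = exp (-β/2) + exp (-α/2) ≤ 2 exp (-α/2)` and
`rho α Λ 0 = α/64` (`q_0 = 0`, `q_1 = 1`); `2 ≤ exp(al (1/2 - 1/64))`. -/
def S_Lin : Prop :=
  ∀ (Y Z : Type) [Fintype Y] [Fintype Z] (K : Type) [Field K] (al be : ℝ) (Λ : ℕ)
    (l : MvPolynomial (Y ⊕ Z) K), 21 ≤ al → al ≤ be → l.IsHomogeneous 1 →
    CD.BB al be l (Real.exp (-(rho al Λ 0)))

/-- [Rho] EASY (hQs : S_Qs). Positivity, and `2 rho (j+1) ≤ rho j`: for `j ≥ 1` the quotient is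
`q_j / q_(j+2) ≤ 1/4`; for `j = 0` it is `1 / Λ`. The last claims: `q_(Δ+1) ≥ Λ max(q_(Δ-1), 1) q_Δ` for
`Δ ≥ 1`, and `sl ∈ [2, 7/3]`. -/
def S_Rho : Prop :=
  ∀ (al : ℝ) (Λ : ℕ), 0 < al → 4 ≤ Λ →
    (∀ j, 0 < rho al Λ j) ∧ (∀ j, 2 * rho al Λ (j + 1) ≤ rho al Λ j) ∧
    (∀ j, Λ * max (qs Λ j) 1 * qs Λ (j + 1) ≤ qs Λ (j + 2)) ∧
    (∀ Δ, 1 ≤ Δ → 2 ≤ sl Λ Δ ∧ sl Λ Δ ≤ 7 / 3)

/-- [Comb] MEDIUM (hQs : S_Qs) (hCFR : S_CFR) (hPhi : S_Phi) (hRho : S_Rho) (hphi : CD.S_BBphi). Put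
`ρ = rho al Λ (l+1)`, `ρ' = rho al Λ l`, `2 ρ ≤ ρ'`. If `2 log (s+1) ≤ ρ' k` then
`(s+1) exp(-ρ' k) ≤ exp (-ρ' k/2) ≤ exp(-ρ k)`, use `CD.BB.mono`. Otherwise `k < 2 log(s+1)/ρ'`, so
`2 k ≤ 4 log(s+1) * 64 max(q_l, 1) q_(l+1) / al ≤ Λ max(q_l,1) q_(l+1) ≤ q_(l+2)` (third part of `S_Rho`),
and `S_CFR` with `j = l + 1 ≤ h = Δ - 1`, `v = k - u`, multiplied by `al / Q` (`Q = q_Δ`), gives
`4 ρ k ≤ |u al - (k-u) be|` for all `u ≤ k` (here `max(q_(l+1), 1) = q_(l+1)`, `be = (1 + P/Q) al`). `7 exp(-al/2) ≤ ρ`: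
`448 q_(l+1) q_(l+2) ≤ 21 * 22 * q_(Δ+1) ≤ al exp (al/2)`, because `q_(l+1) q_(l+2) ≤ q_(Δ-1) q_Δ ≤ q_(Δ+1)`
(monotone, third part of `S_Rho`). So `S_Phi` and `CD.S_BBphi`. -/
def S_Comb : Prop :=
  ∀ (Y Z : Type) [Fintype Y] [Fintype Z] (K : Type) [Field K] (al : ℝ) (Λ Δ s l k : ℕ)
    (f : MvPolynomial (Y ⊕ Z) K), 4 ≤ Λ → 21 ≤ al →
    22 * (qs Λ (Δ + 1) : ℝ) ≤ Real.exp (al / 2) → 256 * Real.log ((s : ℝ) + 1) / al ≤ Λ →
    l + 1 < Δ → 1 ≤ k → f.IsHomogeneous k →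
    CD.BB al (sl Λ Δ * al) f (((s : ℝ) + 1) * Real.exp (-(rho al Λ l * k))) →
    CD.BB al (sl Λ Δ * al) f (Real.exp (-(rho al Λ (l + 1) * k)))

/-- [Gates] MEDIUM (hs : CD.S_BBsmul) (hm : CD.S_BBmul) (h1 : CD.S_BBone). Induction over `l`: every
gate of level `≤ l + 1` which is homogeneous of degree `k ≥ 1` has the bound
`(s+1) exp(-ρ_l k)`, `l + 1 ≤ Δ`. Use `CD.Circ_normal` (CD/I_Circ.lean, import it): every gate is an affine form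
plus a linear combination of product gates of level at most its level. (1) Product gates
`F_j = ∏ F_i^(k_i)` of level `≤ l + 1` have the bound `exp (-ρ_l k)`: the factors have level `≤ l`; a
factor of degree `0` is a constant (bound `1`); a factor of degree `k' ≥ 1` has the bound
`exp (-ρ_l k')`: for `l ≥ 1` by induction and the hypothesis on `ρ`; for `l = 0` the factor has level
`0`, so by `Circ_normal` it is an affine form (product gates of level `0` are `1`), hence `k' = 1`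
(or it is `0`) and it is a linear form. If `F_j ≠ 0` the degrees add up to `k`; if `F_j = 0` use
`CD.BB.zero`. (2) `F_i = A + ∑ c_j F_j`: take the component of degree `k` of both sides; the component
of a homogeneous `F_j` is `F_j` or `0`; the component of `A` is `0` for `k ≥ 2` and a linear form for
`k = 1`, bound `exp(-ρ_0) ≤ ... `; NOTE `ρ_l ≤ ρ_0`, so `exp (-ρ_0) ≤ exp(-ρ_l)`. At most `s + 1` summands. -/
def S_Gates : Prop :=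
  ∀ (Y Z : Type) [Fintype Y] [Fintype Z] (K : Type) [Field K] (al be : ℝ) (s Δ : ℕ)
    (F : Fin s → MvPolynomial (Y ⊕ Z) K) (lev : Fin s → ℕ) (ρ : ℕ → ℝ),
    IsHom F lev → (∀ j, 0 < ρ j) → (∀ j, ρ (j + 1) ≤ ρ j) →
    (∀ l : MvPolynomial (Y ⊕ Z) K, l.IsHomogeneous 1 → CD.BB al be l (Real.exp (-(ρ 0)))) →
    (∀ (l k : ℕ) (f : MvPolynomial (Y ⊕ Z) K), l + 1 < Δ → 1 ≤ k → f.IsHomogeneous k →
      CD.BB al be f (((s : ℝ) + 1) * Real.exp (-(ρ l * k))) →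
      CD.BB al be f (Real.exp (-(ρ (l + 1) * k)))) →
    1 ≤ Δ → ∀ i, lev i ≤ Δ → ∀ k, 1 ≤ k → (F i).IsHomogeneous k →
      CD.BB al be (F i) (((s : ℝ) + 1) * Real.exp (-(ρ (Δ - 1) * k)))

/-! ## Part L: lower bound for the hard polynomial -/

/-- [CntZ] EASY-MEDIUM. Every step has exactly one first position. With `d = a + m`, `m ≤ d`:
`p m / d = i` and `p m % d < m` iff `i d ≤ p m < i d + m` iff `p = ⌈i d / m⌉`, and this `p` is `< d`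
(`i < m`). -/
def S_CntZ : Prop :=
  ∀ (a m : ℕ) [NeZero m] (i : Fin m),
    (Finset.univ.filter (fun p : Fin (a + m) => Bd a m p ∧ it a m p = i)).card = 1

/-- [CntY] EASY-MEDIUM (hZ : S_CntZ). Windows. The positions with `j ≤ it p ≤ k` are those with
`j d ≤ p m < (k+1) d`, their number is `⌈(k+1) d/m⌉ - ⌈j d/m⌉ ≥ (k+1-j) d/m - 1`; exactly
`k + 1 - j` of them are first positions; `d = a + m`. -/
def S_CntY : Prop :=
  ∀ (a m : ℕ) [NeZero m] (j k : ℕ), j ≤ k → k < m →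
    (a : ℝ) / m * ((k : ℝ) + 1 - j) - 1 ≤ ∑ i ∈ Finset.Icc j k,
      ((Finset.univ.filter
        (fun p : Fin (a + m) => ¬ Bd a m p ∧ (it a m p : ℕ) = i)).card : ℝ)

/-- [PwBi] EASY-MEDIUM (hZ : S_CntZ) (hmul : CD.S_BiMul). Every monomial has `m` variables `Z` (one for every
step) and `a` variables `Y`. Model: `CD.pr_PWhom` (Bd/B02.lean). -/
def S_PwBi : Prop :=
  ∀ (R : Type) [CommSemiring R] (a m n : ℕ) [NeZero m] (z0 : Fin n),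
    CD.IsBi (pw R a m n z0) a m

/-- [PwCo] EASY-MEDIUM (hZ : S_CntZ). The monomial of the constant walk `z0, z0, ..., z0` has
coefficient `1`: any other walk has a step `(s_i, s_(i+1)) ≠ (z0, z0)`, and the variable
`inr (p, s_i, s_(i+1))` of the first position `p` of the step `i` does not divide it. -/
def S_PwCo : Prop :=
  ∀ (R : Type) [CommSemiring R] (a m n : ℕ) [NeZero m] (z0 : Fin n),
    ∃ μ : (Fin (a + m) × Fin n × Fin n) ⊕ (Fin (a + m) × Fin n × Fin n) →₀ ℕ,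
      coeff μ (pw R a m n z0) = 1

/-- [Hard] MEDIUM (hConf : CD.S_Conf) (hWalk : CD.S_Walk) (hCard : CD.S_CardWalk) (hZ : S_CntZ)
(hY : S_CntY). Port of `CD.pr_Hard` (Bd/B02.lean, lines 185-480): replace `aa m` by `a`, the slope
`√2` by `r`, the exponent `1 - 1/√2` by `1/2`; the monomial of the walk `s` is
`sumElim μ ν`, `ν = ∑_(p first) single (p, s_it, s_(it+1))`, `μ` the same over the other positions.
`μ, ν ≤ 1`; `∑ μ = a`, `∑ ν = m`. The distances: `∑ (ν' - ν) = #{i : the step i of s' differs}`, and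
`∑ (μ' - μ)` = number of non-first positions in the steps where `s'` differs. `S_Walk` with
`ε = n^(-1/2)` and `w i = w_Z` resp. `w i = w_Y ^ #{p : not first, it p = i}`: in a window
`n^(k-j) w_Z^(k+1-j) ≤ n^(-1)`, and `n^(k-j) w_Y^(r(k+1-j) - 1) ≤ n^(k-j) n^(-(k+1-j) + 1/r) ≤ n^(-1/2)`
(`r ≥ 2`, `S_CntY` with `a/m ≥ r`). `exp (m^2 ε) - 1 ≤ exp(1/10) - 1 ≤ 1/4`. -/
def S_Hard : Prop :=
  ∀ (R : Type) [CommSemiring R] (a m n L l : ℕ) [NeZero m] (z0 : Fin n) (r : ℝ), 1 ≤ n → 2 ≤ r →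
    r * m ≤ a →
    (L : ℝ) / (((a + m : ℕ) : ℝ) * n * n + L - 1) ≤ (n : ℝ) ^ (-(1 / r)) →
    (l : ℝ) / (((a + m : ℕ) : ℝ) * n * n + l - 1) ≤ (n : ℝ) ^ (-1 : ℝ) →
    10 * (m : ℝ) ^ 2 ≤ (n : ℝ) ^ (1 / 2 : ℝ) →
    ∃ (I : Type) (_ : Fintype I) (_ : DecidableEq I)
      (rr : I → CD.Mon (Fin (a + m) × Fin n × Fin n) L ×
        CD.Mon (Fin (a + m) × Fin n × Fin n) (l + m))
      (cc : I → CD.Mon (Fin (a + m) × Fin n × Fin n) (L + a) ×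
        CD.Mon (Fin (a + m) × Fin n × Fin n) l),
      (CD.mat (pw R a m n z0) (L + a) l L (l + m)).submatrix rr cc = 1 ∧
      (1 / 2 : ℝ) * ((n : ℝ) ^ (m - 1) * CD.TT ((a + m) * n * n) L *
        CD.TT ((a + m) * n * n) l) ≤ Fintype.card I

/-- [LEx] MEDIUM (hG : CD.S_Grow2). Choice of `L`. `d = a + m`, `V = d n^2 - 1`, `E = exp al = (n+1)^(1/r)`,
`x = V/(E-1)`, `L = ⌊x⌋ - a`. `E ≤ (n+1)^(1/2)`, so `x ≥ d n ≥ a + 2`. (1) `L + a ≤ x` gives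
`1 + V/(L+a) ≥ E`. (2) `L/(V+L) ≤ (L+a)/(V+L+a) ≤ 1/E = (n+1)^(-1/r) ≤ n^(-1/r)`. (3) `CD.S_Grow2`:
`TT (L+a) ≤ TT L ((d n^2 + L)/(L+1))^a`, `(d n^2 + L)/(L+1) = 1 + V/(L+1)`, `L + 1 > x - a`, so with
`δ = a/x ≤ 2 (n+1)^(1/2) / n^2` it is `≤ 1 + (E-1)/(1-δ) ≤ E/(1-δ)`, and
`(1-δ)^(-a) ≤ exp (2 a δ) ≤ exp (4 a (n+1)^(1/2)/n^2) ≤ 3` (`a^7 ≤ n+1`). -/
def S_LEx : Prop :=
  ∀ (a m n : ℕ) (r al : ℝ), 1 ≤ m → 1000 ≤ a + m → (a + m) ^ 7 ≤ n + 1 → 2 ≤ r → r ≤ 7 / 3 →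
    al = Real.log ((n : ℝ) + 1) / r →
    ∃ L : ℕ, 1 ≤ L ∧
      Real.exp al ≤ (((a + m : ℕ) : ℝ) * n * n + (L + a) - 1) / (L + a) ∧
      (L : ℝ) / (((a + m : ℕ) : ℝ) * n * n + L - 1) ≤ (n : ℝ) ^ (-(1 / r)) ∧
      (CD.TT ((a + m) * n * n) (L + a) : ℝ) ≤
        3 * (CD.TT ((a + m) * n * n) L * Real.exp (al * a))

/-- [Low] MEDIUM (hHard : S_Hard) (hL : S_LEx) (hRank : CD.S_BBrank) (hLow : CD.S_RankLow). With
`l = (a+m) n`: `(d n^2 + l - 1)/l ≥ n` and `(d n^2 + l)/(l + 1) ≤ n + 1 = exp (r al)`. `S_Hard`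
(`10 m^2 ≤ n^(1/2)` from `(a+m)^7 ≤ n + 1`), `S_RankLow`, `S_BBrank`:
`(1/2) n^(m-1) TT L TT l ≤ TT (L+a) TT l exp(-(a al - m be)/2) c`, `be = r al`, so with `S_LEx`
`n^(m-1) ≤ 6 c exp((a al + m be)/2)`; `a al + m be ≤ 2 m be + (10/3) al`, `be = log (n+1)`,
`al ≤ log (n+1)/2`; so `n^(m-1) ≤ 6 c (n+1)^(m+1)`, `(n+1)^m ≤ 3 n^m` (`m ≤ n`:
`(1 + 1/n)^m ≤ exp 1`). -/
def S_Low : Prop :=
  ∀ (k : Type) [Field k] (a m n : ℕ) [NeZero m] (z0 : Fin n)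
    (S : MvPolynomial ((Fin (a + m) × Fin n × Fin n) ⊕ (Fin (a + m) × Fin n × Fin n))
      (PowerSeries k)) (r al c : ℝ), 1000 ≤ a + m → (a + m) ^ 7 ≤ n + 1 → 2 ≤ r → r ≤ 7 / 3 →
    r * m ≤ a → a ≤ r * m + 10 / 3 → al = Real.log ((n : ℝ) + 1) / r →
    CD.BB al (r * al) (MvPolynomial.map (algebraMap (PowerSeries k) (LaurentSeries k))
      (pw (PowerSeries k) a m n z0 + C PowerSeries.X * S)) c →
    1 ≤ c * ((n : ℝ) + 1) ^ 3

/-! ## Part P: projections -/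

/-- [Pos] EASY. Arithmetic of the positions, `d = a + m`, `t p = p m / d`. `(p+1) m = p m + m` and `m ≤ d`. -/
def S_Pos : Prop :=
  ∀ (a m : ℕ), 1 ≤ m → Bd a m 0 ∧ Bd a m (a + m) ∧ (a + m) * m / (a + m) = m ∧
    ∀ p, (Bd a m (p + 1) ∧ (p + 1) * m / (a + m) = p * m / (a + m) + 1) ∨
      (¬ Bd a m (p + 1) ∧ (p + 1) * m / (a + m) = p * m / (a + m))

/-- [Code] EASY. Codes of pairs: an injection of `Fin n × Fin n` into `Fin N` (`n^2 ≤ N`), followed by a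
transposition that moves the image of `(z0, z0)` to `z`. -/
def S_Code : Prop :=
  ∀ (n N : ℕ) (z0 : Fin n) (z : Fin N), n * n ≤ N →
    ∃ c : Fin n → Fin n → Fin N, (∀ x y x' y', c x y = c x' y' → x = x' ∧ y = y') ∧ c z0 z0 = z

/-- The state before the position `p`. -/
def stA (a m : ℕ) {n N : ℕ} (z0 : Fin n) (c : Fin n → Fin n → Fin N) (p : ℕ) (x y : Fin n) :
    Fin N := if Bd a m p then c x z0 else c x y

/-- The state after the position `p`. -/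
def stB (a m : ℕ) {n N : ℕ} (z0 : Fin n) (c : Fin n → Fin n → Fin N) (p : ℕ) (x y : Fin n) :
    Fin N := if Bd a m (p + 1) then c y z0 else c x y

/-- The substitution. -/
noncomputable def th (R : Type) [CommSemiring R] (a m n N : ℕ) (z0 : Fin n)
    (c : Fin n → Fin n → Fin N) (x : Fin (a + m) × Fin N × Fin N) :
    MvPolynomial ((Fin (a + m) × Fin n × Fin n) ⊕ (Fin (a + m) × Fin n × Fin n)) R :=
  ∑ e : Fin n × Fin n, if x.2.1 = stA a m z0 c x.1 e.1 e.2 ∧ x.2.2 = stB a m z0 c x.1 e.1 e.2 then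
    X (lb a m n x.1 e.1 e.2) else 0

/-- [ThU] EASY. The pair is determined by the two states. -/
def S_ThU : Prop :=
  ∀ (a m n N : ℕ) (z0 : Fin n) (c : Fin n → Fin n → Fin N) (p : ℕ) (x y x' y' : Fin n),
    (∀ x y x' y', c x y = c x' y' → x = x' ∧ y = y') →
    stA a m z0 c p x y = stA a m z0 c p x' y' → stB a m z0 c p x y = stB a m z0 c p x' y' →
    x = x' ∧ y = y'

/-- [WMap] MEDIUM (hPos : S_Pos) (hU : S_ThU). For every closed walk `s` in `Fin n` there is a closed walk `w`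
in `Fin N` with `w_p = stA p (s_(it p)) (s_(it p + 1))` and `w_(p+1) = stB p (s_(it p)) (s_(it p + 1))` for
all positions `p` (define `w_p = if Bd p then c (s_(t p)) z0 else c (s_(t p)) (s_(t p + 1))`,
`t p = p m/(a+m)`, `t (a+m) = m`; consistency from `S_Pos`), unique (all `w_p` are given). -/
def S_WMap : Prop :=
  ∀ (a m n N : ℕ) [NeZero m] (z0 : Fin n) (z : Fin N) (c : Fin n → Fin n → Fin N)
    (s : CD.Walk m n z0), c z0 z0 = z →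
    ∃ w : CD.Walk (a + m) N z, ∀ p : Fin (a + m),
      w.1 p.castSucc = stA a m z0 c p (s.1 (it a m p).castSucc) (s.1 (it a m p).succ) ∧
      w.1 p.succ = stB a m z0 c p (s.1 (it a m p).castSucc) (s.1 (it a m p).succ)

/-- [WSur] MEDIUM (hPos : S_Pos) (hZ : S_CntZ). Conversely a closed walk `w` in `Fin N` all steps of which are
consistent comes from a closed walk in `Fin n`: let `w_p = stA p x_p y_p`, `w_(p+1) = stB p x_p y_p`.
If `p + 1` is not first then `c x_p y_p = c x_(p+1) y_(p+1)`; if it is first (and `p + 1 < a+m`) then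
`c y_p z0 = c x_(p+1) z0`, so `x_(p+1) = y_p`; `w_0 = z = c z0 z0` gives `x_0 = z0`, `w_(a+m) = z` gives
`y = z0` at the last position. Put `s_i = x_p`, `p` the first position of step `i`, `s_m = z0`. Then
`x_p = s_(it p)`, `y_p = s_(it p + 1)` for all `p`. -/
def S_WSur : Prop :=
  ∀ (a m n N : ℕ) [NeZero m] (z0 : Fin n) (z : Fin N) (c : Fin n → Fin n → Fin N)
    (w : CD.Walk (a + m) N z), (∀ x y x' y', c x y = c x' y' → x = x' ∧ y = y') → c z0 z0 = z →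
    (∀ p : Fin (a + m), ∃ x y : Fin n, w.1 p.castSucc = stA a m z0 c p x y ∧
      w.1 p.succ = stB a m z0 c p x y) →
    ∃ s : CD.Walk m n z0, ∀ p : Fin (a + m),
      w.1 p.castSucc = stA a m z0 c p (s.1 (it a m p).castSucc) (s.1 (it a m p).succ) ∧
      w.1 p.succ = stB a m z0 c p (s.1 (it a m p).castSucc) (s.1 (it a m p).succ)

/-- [Proj] MEDIUM (hC : S_Code) (hU : S_ThU) (hW : S_WMap) (hS : S_WSur) (hPos : S_Pos) (hZ : S_CntZ). `θ = th`. Every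
`θ x` is a sum of variables, so a linear form. `aeval θ imm = ∑_w ∏_p θ (p, w_p, w_(p+1))`. A walk `w`
contributes only if all its steps are consistent, so (`S_WSur`) it is the image of a walk `s`, unique
(by `S_ThU` the pair at every position is unique, and every `s_i` occurs: `S_CntZ`); for such `w`
every factor is the single variable `X (lb p (s_(it p)) (s_(it p + 1)))` (`S_ThU`). -/
def S_Proj : Prop :=
  ∀ (R : Type) [CommSemiring R] (a m n N : ℕ) [NeZero m] (z0 : Fin n) (z : Fin N), n * n ≤ N →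
    IsLin (imm R N (a + m) z) (pw R a m n z0)

/-- [ProjS] MEDIUM. Simple paths. `V : Fin (d+1) × Fin N ↪ Fin M`. `θ (a, b) = X (p, u, v)` if `a = V (p, u)`,
`b = V (p+1, v)`, `p < d`, (`p = 0 → u = z`), (`p + 1 = d → v = z`), and `0` otherwise (write it as the sum over
all `(p, u, v)` of `if ... then X (p, u, v) else 0`; at most one summand is not `0`). A simple path
`v_0, ..., v_d` with non-zero product has `v_i = V (q_i, w_i)` with `q_(i+1) = q_i + 1 ≤ d`, so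
`q_i = i`, and `w` is a closed walk at `z`; conversely `i ↦ V (i, w_i)` is injective. -/
def S_ProjS : Prop :=
  ∀ (R : Type) [CommSemiring R] (M N d : ℕ) (z : Fin N), 1 ≤ d → (d + 1) * N ≤ M →
    IsLin (spath R M d) (imm R N d z)

/-- [LinT] EASY. Transitivity. -/
def S_LinT : Prop :=
  ∀ (σ τ υ R : Type) [CommSemiring R] (f : MvPolynomial σ R) (g : MvPolynomial τ R)
    (h : MvPolynomial υ R), IsLin f g → IsLin g h → IsLin f h

/-- [Sub] EASY (h : CD.S_CircSubst). Substitution of linear forms into a homogeneous circuit. -/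
def S_Sub : Prop :=
  ∀ (σ τ K : Type) [Field K] (s : ℕ) (F : Fin s → MvPolynomial σ K) (lev : Fin s → ℕ)
    (θ : σ → MvPolynomial τ K), IsHom F lev → (∀ x, (θ x).IsHomogeneous 1) →
    IsHom (fun i => aeval θ (F i)) lev

/-- [Deg] EASY. The coefficient of `μ` in `P + ε S` is `1 + ε (...) ≠ 0`, so the degree of `μ` is `k'`. -/
def S_Deg : Prop :=
  ∀ (k σ : Type) [Field k] (P S : MvPolynomial σ (PowerSeries k)) (μ : σ →₀ ℕ) (d k' : ℕ),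
    P.IsHomogeneous d → coeff μ P = 1 →
    (MvPolynomial.map (algebraMap (PowerSeries k) (LaurentSeries k))
      (P + C PowerSeries.X * S)).IsHomogeneous k' → k' = d

/-- [SubE] EASY. If `F = P + ε S` and `g = P (θ)` then `F (θ) = g + ε S (θ)` (border version of a linear
substitution with coefficients in `k[[ε]]`). -/
def S_SubE : Prop :=
  ∀ (k σ τ : Type) [Field k] (P S : MvPolynomial σ (PowerSeries k))
    (θ : σ → MvPolynomial τ (PowerSeries k)),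
    aeval (fun x => MvPolynomial.map (algebraMap (PowerSeries k) (LaurentSeries k)) (θ x))
      (MvPolynomial.map (algebraMap (PowerSeries k) (LaurentSeries k))
        (P + C PowerSeries.X * S)) =
    MvPolynomial.map (algebraMap (PowerSeries k) (LaurentSeries k))
      (aeval θ P + C PowerSeries.X * aeval θ S)

/-! ## Part N: numbers -/

/-- [Pick] EASY. `m = ⌊d / (r+1)⌋`, `a = d - m`. -/
def S_Pick : Prop :=
  ∀ (d : ℕ) (r : ℝ), 4 ≤ d → 2 ≤ r → r ≤ 7 / 3 →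
    ∃ a m : ℕ, a + m = d ∧ 1 ≤ m ∧ r * m ≤ a ∧ (a : ℝ) ≤ r * m + 10 / 3

/-- [Num] MEDIUM (hQs : S_Qs) (hRho : S_Rho). `n = Nat.sqrt N`, `Λ = ⌈600 (log (s+1)/log (n+1) + 1)⌉₊`,
`d ≥ 1200`. `(n+1)^2 > N ≥ d^14`, so `d^7 ≤ n + 1`, `log (n+1) ≥ (1/2) log N`, so `Λ + 1 ≤ 1200 (1 + log(s+1)/log N)`
(first claim). `al = log (n+1)/r ≥ (3/7) 7 log d ≥ 3 log 1200 ≥ 21`, `exp (al/2) ≥ (n+1)^(3/14) ≥ d^(3/2) ≥ 22 d`;
`256 log(s+1)/al ≤ 600 log(s+1)/log(n+1) ≤ Λ`. Last claim: if `1 ≤ (s+1) exp(-rho (Δ-1) d) (n+1)^3` then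
`rho al Λ (Δ-1) d ≤ log (s+1) + 3 log (n+1)`, so
`d ≤ 64 max(q_(Δ-1), 1) q_Δ r (log (s+1)/log(n+1) + 3) ≤ Λ max(q_(Δ-1), 1) q_Δ ≤ q_(Δ+1)` (`64 * 7/3 ≤ 150`). -/
def S_Num : Prop :=
  ∀ (N d s n Λ Δ : ℕ) (r al : ℝ), 1200 ≤ d → d ^ 14 ≤ N → n = Nat.sqrt N → 1 ≤ Δ →
    Λ = ⌈600 * (Real.log ((s : ℝ) + 1) / Real.log ((n : ℝ) + 1) + 1)⌉₊ → 2 ≤ r → r ≤ 7 / 3 →
    al = Real.log ((n : ℝ) + 1) / r →
    (Λ : ℝ) + 1 ≤ 1200 * (1 + Real.log ((s : ℝ) + 1) / Real.log N) ∧ 4 ≤ Λ ∧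
    n * n ≤ N ∧ 1 ≤ n ∧ d ^ 7 ≤ n + 1 ∧ 21 ≤ al ∧ 22 * (d : ℝ) ≤ Real.exp (al / 2) ∧
    256 * Real.log ((s : ℝ) + 1) / al ≤ Λ ∧
    (1 ≤ ((s : ℝ) + 1) * Real.exp (-(rho al Λ (Δ - 1) * d)) * ((n : ℝ) + 1) ^ 3 →
      d ≤ qs Λ (Δ + 1))

/-! ## The theorem -/

/-- Main theorem for `imm` (captain). -/
def S_Main : Prop :=
  ∀ (k σ : Type) [Field k] (N d Δ s : ℕ) (z : Fin N) (f S : MvPolynomial σ (PowerSeries k))
    (F : Fin s → MvPolynomial σ (LaurentSeries k)) (lev : Fin s → ℕ) (i : Fin s),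
    d ^ 14 ≤ N → 1 ≤ Δ → IsLin f (imm (PowerSeries k) N d z) → IsHom F lev → (∀ j, lev j ≤ Δ) →
    F i = MvPolynomial.map (algebraMap (PowerSeries k) (LaurentSeries k))
      (f + C PowerSeries.X * S) →
    (d : ℝ) ≤ (1200 * (1 + Real.log ((s : ℝ) + 1) / Real.log N)) ^ (Nat.fib (Δ + 2) - 1)

end Pool.Agent.Work.MP_499dc6_lc.HD
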