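import Mathlib
import Pool.Agent.Work.MP_499dc6_lc.HD.Stmts

/-!
# Block HD, item Low: lower bound for the hard polynomial
-/

set_option autoImplicit false

namespace Pool.Agent.Work.MP_499dc6_lc.HD

open MvPolynomial

theorem Low_TT_pos (N p : ℕ) (hN : 1 ≤ N) : 0 < CD.TT N p := by
  unfold CD.TT
  exact Nat.choose_pos (by omega)

/-- the arithmetic at the end -/
theorem Low_arith (a m n : ℕ) (r al c : ℝ) (hm : 1 ≤ m) (hn : 1000 ≤ n) (hmn : m ≤ n)
    (hr2 : 2 ≤ r) (hra : (a : ℝ) ≤ r * m + 10 / 3)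
    (hal : al = Real.log ((n : ℝ) + 1) / r) (T1 T2 : ℝ) (hT1 : 0 < T1) (hT2 : 0 < T2)
    (h : (1 / 2 : ℝ) * ((n : ℝ) ^ (m - 1) * T1 * T2) ≤
      3 * (T1 * Real.exp (al * a)) * T2 * Real.exp (-((a : ℝ) * al - m * (r * al)) / 2) * c) :
    1 ≤ c * ((n : ℝ) + 1) ^ 3 := by
  have hnR : (1000 : ℝ) ≤ n := by exact_mod_cast hn
  have hr0 : 0 < r := by linarith
  obtain ⟨l, hl⟩ : ∃ l, l = Real.log ((n : ℝ) + 1) := ⟨_, rfl⟩
  have hl0 : 0 < l := by rw [hl]; exact Real.log_pos (by linarith)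
  rw [← hl] at hal
  have hral : r * al = l := by rw [hal]; field_simp
  have hal0 : 0 < al := by rw [hal]; positivity
  have hal2 : al ≤ l / 2 := by
    rw [hal]
    exact div_le_div_of_nonneg_left hl0.le (by norm_num) hr2
  have hexp : Real.exp l = (n : ℝ) + 1 := by rw [hl, Real.exp_log (by linarith)]
  -- divide by T1 T2
  have h1 : (n : ℝ) ^ (m - 1) ≤ 6 * c * Real.exp ((a * al + m * l) / 2) := by
    have e : Real.exp (al * a) * Real.exp (-((a : ℝ) * al - m * (r * al)) / 2) =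
        Real.exp ((a * al + m * l) / 2) := by
      rw [← Real.exp_add, hral]
      congr 1
      ring
    have h2 : (T1 * T2) * (n : ℝ) ^ (m - 1) ≤
        (T1 * T2) * (6 * c * Real.exp ((a * al + m * l) / 2)) := by
      rw [← e]
      linarith
    exact le_of_mul_le_mul_left h2 (mul_pos hT1 hT2)
  have hnp : (0 : ℝ) < (n : ℝ) ^ (m - 1) := by positivity
  have hc0 : 0 < c := by
    by_contra hc
    push Not at hc
    have : 6 * c * Real.exp ((a * al + m * l) / 2) ≤ 0 :=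
      mul_nonpos_of_nonpos_of_nonneg (by linarith) (Real.exp_pos _).le
    linarith
  have h3 : (a * al + m * l) / 2 ≤ ((m + 1 : ℕ) : ℝ) * l := by
    have h4 : (a : ℝ) * al ≤ (r * m + 10 / 3) * al := mul_le_mul_of_nonneg_right hra hal0.le
    have h5 : (r * m + 10 / 3) * al = m * l + 10 / 3 * al := by
      rw [← hral]; ring
    push_cast
    linarith
  have h4 : (n : ℝ) ^ (m - 1) ≤ 6 * c * ((n : ℝ) + 1) ^ (m + 1) := by
    refine h1.trans ?_
    refine mul_le_mul_of_nonneg_left ?_ (by positivity)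
    calc Real.exp ((a * al + m * l) / 2) ≤ Real.exp (((m + 1 : ℕ) : ℝ) * l) := Real.exp_le_exp.2 h3
      _ = ((n : ℝ) + 1) ^ (m + 1) := by rw [Real.exp_nat_mul, hexp]
  have h5 : ((n : ℝ) + 1) ^ m ≤ 3 * (n : ℝ) ^ m := by
    have hn0 : (0 : ℝ) < n := by linarith
    have h6 : ((n : ℝ) + 1) ^ m = (n : ℝ) ^ m * (1 + 1 / (n : ℝ)) ^ m := by
      rw [← mul_pow]
      congr 1
      field_simp
    have h7 : (1 + 1 / (n : ℝ)) ^ m ≤ 3 := by
      calc (1 + 1 / (n : ℝ)) ^ m ≤ Real.exp (1 / (n : ℝ)) ^ m := by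
            refine pow_le_pow_left₀ (by positivity) ?_ m
            have := Real.add_one_le_exp (1 / (n : ℝ))
            linarith
        _ = Real.exp ((m : ℝ) * (1 / n)) := by rw [← Real.exp_nat_mul]
        _ ≤ Real.exp 1 := by
            refine Real.exp_le_exp.2 ?_
            rw [mul_one_div, div_le_one hn0]
            exact_mod_cast hmn
        _ ≤ 3 := by
            have := Real.exp_one_lt_d9
            linarith
    rw [h6, mul_comm]
    exact mul_le_mul_of_nonneg_right h7 (by positivity)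
  have h6 : (n : ℝ) ^ m = (n : ℝ) * (n : ℝ) ^ (m - 1) := by
    rw [← pow_succ']
    congr 1
    omega
  have h7 : ((n : ℝ) + 1) ^ m ≤ ((n : ℝ) + 1) ^ m * (18 * n * c * ((n : ℝ) + 1)) := by
    calc ((n : ℝ) + 1) ^ m ≤ 3 * ((n : ℝ) * (n : ℝ) ^ (m - 1)) := by rw [← h6]; exact h5
      _ ≤ 3 * ((n : ℝ) * (6 * c * ((n : ℝ) + 1) ^ (m + 1))) := by
          have hn0 : (0 : ℝ) ≤ n := by linarith
          gcongr
      _ = ((n : ℝ) + 1) ^ m * (18 * n * c * ((n : ℝ) + 1)) := by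
          rw [pow_succ]; ring
  have h8 : 1 ≤ 18 * n * c * ((n : ℝ) + 1) := by
    have h9 : (0 : ℝ) < ((n : ℝ) + 1) ^ m := by positivity
    by_contra hlt
    push Not at hlt
    have := mul_lt_mul_of_pos_left hlt h9
    linarith
  refine h8.trans ?_
  have h10 : 18 * (n : ℝ) ≤ ((n : ℝ) + 1) ^ 2 := by nlinarith
  calc 18 * n * c * ((n : ℝ) + 1) = (18 * (n : ℝ)) * (c * ((n : ℝ) + 1)) := by ring
    _ ≤ ((n : ℝ) + 1) ^ 2 * (c * ((n : ℝ) + 1)) :=
        mul_le_mul_of_nonneg_right h10 (by positivity)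
    _ = c * ((n : ℝ) + 1) ^ 3 := by ring

theorem pr_Low (hHard : S_Hard) (hL : S_LEx) (hRank : CD.S_BBrank) (hLow : CD.S_RankLow) :
    S_Low := by
  intro k _ a m n _ z0 S r al c hd hdn hr2 hr7 hrm hra hal hBB
  have hm : 1 ≤ m := Nat.one_le_iff_ne_zero.2 (NeZero.ne m)
  obtain ⟨d, hdd⟩ : ∃ d, d = a + m := ⟨_, rfl⟩
  have hd' : 1000 ≤ d := by omega
  have hd5 : 100 * d ^ 4 ≤ d ^ 5 := by
    rw [pow_succ d 4, mul_comm (d ^ 4) d]
    exact Nat.mul_le_mul_right _ (by omega)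
  have hd57 : d ^ 5 + 1 ≤ d ^ 7 := by
    have h1 : d ^ 7 = d ^ 5 * (d * d) := by ring
    have h2 : 2 ≤ d * d := by nlinarith
    have h3 : 1 ≤ d ^ 5 := Nat.one_le_pow _ _ (by omega)
    rw [h1]
    nlinarith
  have hdn' : d ^ 7 ≤ n + 1 := by rw [hdd]; exact hdn
  have hn5 : d ^ 5 ≤ n := by omega
  have hdn1 : d ≤ n := le_trans (Nat.le_self_pow (by norm_num) d) hn5
  have hn1000 : 1000 ≤ n := by omega
  have hmn : m ≤ n := by omega
  have hnR : (1000 : ℝ) ≤ n := by exact_mod_cast hn1000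
  have hn0 : (0 : ℝ) < n := by linarith
  obtain ⟨L, hL1, hE, hLn, hTT⟩ := hL a m n r al hm hd hdn hr2 hr7 hal
  obtain ⟨l, hl⟩ : ∃ l, l = (a + m) * n := ⟨_, rfl⟩
  have hl1 : 1 ≤ l := by
    rw [hl]
    exact Nat.mul_pos (by omega) (by omega)
  have hlR : (1 : ℝ) ≤ l := by exact_mod_cast hl1
  have hln : (l : ℝ) = ((a + m : ℕ) : ℝ) * n := by rw [hl]; push_cast; ring
  have hl2 : (l : ℝ) / (((a + m : ℕ) : ℝ) * n * n + l - 1) ≤ (n : ℝ) ^ (-1 : ℝ) := by
    rw [Real.rpow_neg_one, ← hln, ← one_div, div_le_div_iff₀ (by nlinarith) hn0]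
    linarith
  have hm2 : 10 * (m : ℝ) ^ 2 ≤ (n : ℝ) ^ (1 / 2 : ℝ) := by
    rw [← Real.sqrt_eq_rpow]
    refine Real.le_sqrt_of_sq_le ?_
    have h1 : 100 * m ^ 4 ≤ n := by
      calc 100 * m ^ 4 ≤ 100 * d ^ 4 :=
            Nat.mul_le_mul_left _ (Nat.pow_le_pow_left (by omega) 4)
        _ ≤ n := hd5.trans hn5
    have h2 : (100 : ℝ) * (m : ℝ) ^ 4 ≤ n := by exact_mod_cast h1
    have h3 : (10 * (m : ℝ) ^ 2) ^ 2 = 100 * (m : ℝ) ^ 4 := by ring
    exact h3.le.trans h2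
  obtain ⟨I, hI1, hI2, rr, cc, hsub, hcard⟩ := hHard (PowerSeries k) a m n L l z0 r (by omega) hr2
    hrm hLn hl2 hm2
  have : Nonempty (Fin (a + m) × Fin n × Fin n) := ⟨(⟨0, by omega⟩, z0, z0)⟩
  have h1 := hLow (Fin (a + m) × Fin n × Fin n) (Fin (a + m) × Fin n × Fin n) k
    (pw (PowerSeries k) a m n z0) S (L + a) l L (l + m) I rr cc hsub
  have hcY : Fintype.card (Fin (a + m) × Fin n × Fin n) = (a + m) * n * n := by
    rw [Fintype.card_prod, Fintype.card_prod, Fintype.card_fin, Fintype.card_fin, mul_assoc]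
  have hbe : Real.exp (r * al) = (n : ℝ) + 1 := by
    have hr0 : 0 < r := by linarith
    have : r * al = Real.log ((n : ℝ) + 1) := by rw [hal]; field_simp
    rw [this, Real.exp_log (by linarith)]
  have h2 := hRank (Fin (a + m) × Fin n × Fin n) (Fin (a + m) × Fin n × Fin n) (LaurentSeries k)
    al (r * al) _ c L l a m (by omega) (by
      rw [hcY]
      push_cast at hE ⊢
      exact hE) (by
      rw [hcY, hbe, div_le_iff₀ (by positivity)]
      have : (((a + m) * n * n : ℕ) : ℝ) = (l : ℝ) * n := by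
        rw [hl]; push_cast; ring
      rw [this]
      nlinarith) hBB
  have h3 : (1 / 2 : ℝ) * ((n : ℝ) ^ (m - 1) * CD.TT ((a + m) * n * n) L *
      CD.TT ((a + m) * n * n) l) ≤ (CD.TT ((a + m) * n * n) (L + a) : ℝ) *
        CD.TT ((a + m) * n * n) l * Real.exp (-((a : ℝ) * al - m * (r * al)) / 2) * c := by
    rw [hcY] at h2
    refine hcard.trans (le_trans ?_ h2)
    exact_mod_cast h1
  have hNpos : 1 ≤ (a + m) * n * n := Nat.mul_pos (Nat.mul_pos (by omega) (by omega)) (by omega)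
  have hT1 : (0 : ℝ) < CD.TT ((a + m) * n * n) L := by exact_mod_cast Low_TT_pos _ _ hNpos
  have hT2 : (0 : ℝ) < CD.TT ((a + m) * n * n) l := by exact_mod_cast Low_TT_pos _ _ hNpos
  have hT3 : (0 : ℝ) < CD.TT ((a + m) * n * n) (L + a) := by exact_mod_cast Low_TT_pos _ _ hNpos
  have hc0 : 0 ≤ c := by
    by_contra hc
    push Not at hc
    have h4 : (0 : ℝ) < (1 / 2 : ℝ) * ((n : ℝ) ^ (m - 1) * CD.TT ((a + m) * n * n) L *
      CD.TT ((a + m) * n * n) l) := by positivity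
    have h5 : (CD.TT ((a + m) * n * n) (L + a) : ℝ) *
        CD.TT ((a + m) * n * n) l * Real.exp (-((a : ℝ) * al - m * (r * al)) / 2) * c ≤ 0 :=
      mul_nonpos_of_nonneg_of_nonpos (by positivity) hc.le
    linarith
  refine Low_arith a m n r al c hm hn1000 hmn hr2 hra hal _ _ hT1 hT2 (h3.trans ?_)
  refine mul_le_mul_of_nonneg_right ?_ hc0
  refine mul_le_mul_of_nonneg_right ?_ (Real.exp_pos _).le
  exact mul_le_mul_of_nonneg_right hTT hT2.le

end Pool.Agent.Work.MP_499dc6_lc.HD
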