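import Mathlib
import Pool.Agent.Work.MP_499dc6_lc.HD.Stmts

/-!
# Block HD, item Num: numbers
-/

set_option autoImplicit false

namespace Pool.Agent.Work.MP_499dc6_lc.HD

theorem Num_exp7 : Real.exp 7 ≤ 1200 := by
  have h : Real.exp 7 = Real.exp 1 ^ 7 := by
    rw [← Real.exp_nat_mul]
    norm_num
  rw [h]
  calc Real.exp 1 ^ 7 ≤ (2.7182818286 : ℝ) ^ 7 :=
        pow_le_pow_left₀ (Real.exp_pos 1).le Real.exp_one_lt_d9.le 7
    _ ≤ 1200 := by norm_num

theorem pr_Num (hQs : S_Qs) (hRho : S_Rho) : S_Num := by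
  intro N d s n Λ Δ r al hd hdN hn hΔ hΛ hr2 hr7 hal
  have hdR : (1200 : ℝ) ≤ d := by exact_mod_cast hd
  have hd0 : (0 : ℝ) < d := by linarith
  have hr0 : 0 < r := by linarith
  have hN1 : 1 ≤ N := le_trans (Nat.one_le_pow _ _ (by omega)) hdN
  have hnn : n * n ≤ N := by rw [hn]; exact Nat.sqrt_le N
  have hlt : N < (n + 1) * (n + 1) := by rw [hn]; exact Nat.lt_succ_sqrt N
  have hn1 : 1 ≤ n := by
    by_contra h
    have : n = 0 := by omega
    rw [this] at hlt
    omega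
  have hd7 : d ^ 7 ≤ n + 1 := by
    by_contra h
    push Not at h
    have h1 : (n + 1) * (n + 1) ≤ d ^ 7 * d ^ 7 := Nat.mul_le_mul h.le h.le
    have h2 : d ^ 7 * d ^ 7 = d ^ 14 := by rw [← pow_add]
    omega
  -- logarithms
  have hn1R : (1 : ℝ) < (n : ℝ) + 1 := by
    have : (1 : ℝ) ≤ n := by exact_mod_cast hn1
    linarith
  obtain ⟨l, hl⟩ : ∃ l, l = Real.log ((n : ℝ) + 1) := ⟨_, rfl⟩
  have hl0 : 0 < l := by rw [hl]; exact Real.log_pos hn1R
  have hlog7 : (7 : ℝ) ≤ Real.log d := by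
    rw [Real.le_log_iff_exp_le hd0]
    exact Num_exp7.trans hdR
  have hl7 : 7 * Real.log d ≤ l := by
    have h1 : Real.log ((d : ℝ) ^ 7) ≤ l := by
      rw [hl]
      refine Real.log_le_log (by positivity) ?_
      exact_mod_cast hd7
    rw [Real.log_pow] at h1
    push_cast at h1
    exact h1
  have hlN : Real.log N ≤ 2 * l := by
    have hN0 : (0 : ℝ) < N := by exact_mod_cast hN1
    have h1 : Real.log N ≤ Real.log (((n : ℝ) + 1) * ((n : ℝ) + 1)) := by
      refine Real.log_le_log hN0 ?_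
      have : ((N : ℕ) : ℝ) ≤ (((n + 1) * (n + 1) : ℕ) : ℝ) := by exact_mod_cast hlt.le
      push_cast at this
      exact this
    rw [Real.log_mul (by linarith) (by linarith), ← hl] at h1
    linarith
  have hlN0 : 0 < Real.log N := by
    refine Real.log_pos ?_
    have h2 : d ≤ N := le_trans (Nat.le_self_pow (by norm_num) d) hdN
    have h3 : ((d : ℕ) : ℝ) ≤ N := by exact_mod_cast h2
    linarith
  obtain ⟨ls, hls⟩ : ∃ ls, ls = Real.log ((s : ℝ) + 1) := ⟨_, rfl⟩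
  have hls0 : 0 ≤ ls := by
    rw [hls]
    refine Real.log_nonneg ?_
    have : (0 : ℝ) ≤ s := Nat.cast_nonneg s
    linarith
  rw [← hls, ← hl] at hΛ
  rw [← hl] at hal
  obtain ⟨x, hx⟩ : ∃ x, x = ls / l := ⟨_, rfl⟩
  have hx0 : 0 ≤ x := by rw [hx]; positivity
  have hlsx : ls = x * l := by rw [hx]; field_simp
  rw [← hx] at hΛ
  have hΛle : 600 * (x + 1) ≤ Λ := by rw [hΛ]; exact Nat.le_ceil _
  have hΛlt : (Λ : ℝ) < 600 * (x + 1) + 1 := by
    rw [hΛ]
    exact Nat.ceil_lt_add_one (by positivity)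
  have hal0 : 0 < al := by rw [hal]; positivity
  have hal3 : 3 * Real.log d ≤ al := by
    rw [hal, le_div_iff₀ hr0]
    have h1 : 3 * Real.log d * r ≤ 3 * Real.log d * (7 / 3) := by
      apply mul_le_mul_of_nonneg_left hr7
      linarith
    linarith
  have halr : al * r = l := by rw [hal]; field_simp
  have hΛ4 : 4 ≤ Λ := by
    have h1 : (4 : ℝ) ≤ Λ := by linarith
    exact_mod_cast h1
  rw [← hls]
  refine ⟨?_, hΛ4, hnn, hn1, hd7, by linarith, ?_, ?_, ?_⟩
  · have h1 : x ≤ 2 * (ls / Real.log N) := by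
      rw [hx, ← mul_div_assoc, div_le_div_iff₀ hl0 hlN0]
      have := mul_le_mul_of_nonneg_left hlN hls0
      linarith
    linarith
  · have h1 : (3 / 2) * Real.log d ≤ al / 2 := by linarith
    have h2 : Real.exp ((3 / 2) * Real.log d) ≤ Real.exp (al / 2) := Real.exp_le_exp.2 h1
    refine le_trans ?_ h2
    have h3 : Real.exp ((3 / 2) * Real.log d) = Real.exp (Real.log d) * Real.exp (Real.log d / 2) := by
      rw [← Real.exp_add]
      congr 1
      ring
    rw [h3, Real.exp_log hd0, mul_comm]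
    refine mul_le_mul_of_nonneg_left ?_ hd0.le
    have h4 : (22 : ℝ) ≤ Real.exp (7 / 2) := by
      have h5 : Real.exp (7 / 2) * Real.exp (7 / 2) = Real.exp 7 := by
        rw [← Real.exp_add]; norm_num
      have h6 : Real.exp 7 = Real.exp 1 ^ 7 := by
        rw [← Real.exp_nat_mul]; norm_num
      have h7 : (484 : ℝ) ≤ Real.exp 7 := by
        rw [h6]
        calc (484 : ℝ) ≤ (2.7182818283 : ℝ) ^ 7 := by norm_num
          _ ≤ Real.exp 1 ^ 7 := pow_le_pow_left₀ (by norm_num) Real.exp_one_gt_d9.le 7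
      nlinarith [Real.exp_pos (7 / 2 : ℝ)]
    refine h4.trans (Real.exp_le_exp.2 ?_)
    linarith
  · rw [div_le_iff₀ hal0]
    have h1 : 256 * x * r ≤ 600 * (x + 1) := by
      have : x * r ≤ x * (7 / 3) := mul_le_mul_of_nonneg_left hr7 hx0
      linarith
    have h2 : 256 * ls = 256 * x * r * al := by
      rw [hlsx, ← halr]; ring
    rw [h2]
    exact mul_le_mul_of_nonneg_right (h1.trans hΛle) hal0.le
  · intro h1
    obtain ⟨j, rfl⟩ : ∃ j, Δ = j + 1 := ⟨Δ - 1, by omega⟩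
    rw [Nat.add_sub_cancel] at h1
    obtain ⟨hq1, _⟩ := hQs Λ hΛ4
    obtain ⟨_, _, hq3, _⟩ := hRho al Λ hal0 hΛ4
    have hq := hq1 (j + 1) (by omega)
    have hqR : (1 : ℝ) ≤ (qs Λ (j + 1) : ℝ) := by exact_mod_cast hq
    obtain ⟨M, hM⟩ : ∃ M : ℕ, M = max (qs Λ j) 1 := ⟨_, rfl⟩
    have hM1 : 1 ≤ M := by rw [hM]; exact le_max_right _ _
    have hMR : (1 : ℝ) ≤ (M : ℝ) := by exact_mod_cast hM1
    have hsp : (0 : ℝ) < (s : ℝ) + 1 := by positivity
    have hnp : (0 : ℝ) < ((n : ℝ) + 1) ^ 3 := by positivity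
    have h2 : rho al Λ j * d ≤ ls + 3 * l := by
      have h3 := Real.log_nonneg h1
      rw [Real.log_mul (mul_pos hsp (Real.exp_pos _)).ne' hnp.ne',
        Real.log_mul hsp.ne' (Real.exp_pos _).ne', Real.log_exp, Real.log_pow, ← hls, ← hl] at h3
      push_cast at h3
      linarith
    have h4 : rho al Λ j = al / (64 * (M : ℝ) * (qs Λ (j + 1) : ℝ)) := by
      rw [hM]; rfl
    rw [h4, div_mul_eq_mul_div, div_le_iff₀ (by positivity)] at h2
    have h5 : ls + 3 * l = (x + 3) * r * al := by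
      rw [hlsx, ← halr]; ring
    rw [h5] at h2
    have h6 : (d : ℝ) ≤ (x + 3) * r * (64 * (M : ℝ) * (qs Λ (j + 1) : ℝ)) := by
      have h7 : al * d ≤ al * ((x + 3) * r * (64 * (M : ℝ) * (qs Λ (j + 1) : ℝ))) := by
        refine h2.trans (le_of_eq ?_)
        ring
      exact le_of_mul_le_mul_left h7 hal0
    have h8 : (x + 3) * r * 64 ≤ Λ := by
      have : (x + 3) * r ≤ (x + 3) * (7 / 3) := mul_le_mul_of_nonneg_left hr7 (by linarith)
      linarith
    have h9 : (d : ℝ) ≤ Λ * (M : ℝ) * (qs Λ (j + 1) : ℝ) := by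
      calc (d : ℝ) ≤ (x + 3) * r * (64 * (M : ℝ) * (qs Λ (j + 1) : ℝ)) := h6
        _ = ((x + 3) * r * 64) * ((M : ℝ) * (qs Λ (j + 1) : ℝ)) := by ring
        _ ≤ Λ * ((M : ℝ) * (qs Λ (j + 1) : ℝ)) :=
            mul_le_mul_of_nonneg_right h8 (by positivity)
        _ = Λ * (M : ℝ) * (qs Λ (j + 1) : ℝ) := by ring
    have h11 : d ≤ Λ * M * qs Λ (j + 1) := by exact_mod_cast h9
    have h12 := hq3 j
    rw [← hM] at h12
    exact h11.trans h12

end Pool.Agent.Work.MP_499dc6_lc.HD
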