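import Pool.Agent.Work.MP_499dc6_lc.HD.Stmts

/-!
# Homogeneous circuits of constant depth over every field: item Phi, the trivial bound
-/

set_option autoImplicit false

namespace Pool.Agent.Work.MP_499dc6_lc.HD

theorem Phi_geom (q : ℝ) (hq0 : 0 ≤ q) (n : ℕ) :
    (∑ j ∈ Finset.range n, q ^ j) * (1 - q) ≤ 1 := by
  rw [geom_sum_mul_neg]
  have : 0 ≤ q ^ n := pow_nonneg hq0 n
  linarith

/-- the sum of the terms on both sides of the zero -/
theorem Phi_sum (f : ℕ → ℝ) (q A B : ℝ) (k v : ℕ) (hq0 : 0 ≤ q) (hA : 0 ≤ A)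
    (hB : 0 ≤ B) (hvk : v < k) (h1 : ∀ u, u ≤ v → f u = A * q ^ (v - u))
    (h2 : ∀ j : ℕ, f (v + 1 + j) = B * q ^ j) :
    (∑ u ∈ Finset.range (k + 1), f u) * (1 - q) ≤ A + B := by
  have e1 : ∑ u ∈ Finset.range (k + 1), f u =
      ∑ u ∈ Finset.range (v + 1), f u + ∑ u ∈ Finset.Ico (v + 1) (k + 1), f u := by
    rw [Finset.range_eq_Ico, Finset.range_eq_Ico,
      Finset.sum_Ico_consecutive _ (Nat.zero_le _) (by omega)]
  have e2 : ∑ u ∈ Finset.range (v + 1), f u = A * ∑ j ∈ Finset.range (v + 1), q ^ j := by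
    rw [Finset.mul_sum, ← Finset.sum_range_reflect (fun j => A * q ^ j) (v + 1)]
    refine Finset.sum_congr rfl fun u hu => ?_
    rw [Finset.mem_range] at hu
    rw [h1 u (by omega), Nat.add_sub_cancel]
  have e3 : ∑ u ∈ Finset.Ico (v + 1) (k + 1), f u = B * ∑ j ∈ Finset.range (k + 1 - (v + 1)), q ^ j := by
    rw [Finset.sum_Ico_eq_sum_range, Finset.mul_sum]
    exact Finset.sum_congr rfl fun j _ => h2 j
  rw [e1, e2, e3, add_mul, mul_assoc, mul_assoc]
  have g1 := Phi_geom q hq0 (v + 1)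
  have g2 := Phi_geom q hq0 (k + 1 - (v + 1))
  have g3 := mul_le_mul_of_nonneg_left g1 hA
  have g4 := mul_le_mul_of_nonneg_left g2 hB
  linarith

/-- convexity -/
theorem Phi_conv (g h y y' : ℝ) (hy : h ≤ y) (hy' : h ≤ y') (hg : y + y' = g) :
    Real.exp (-(y / 2)) + Real.exp (-(y' / 2)) ≤
      Real.exp (-(h / 2)) + Real.exp (-((g - h) / 2)) := by
  have h1 : Real.exp (-(y / 2)) ≤ Real.exp (-(h / 2)) := Real.exp_le_exp.2 (by linarith)
  have h2 : Real.exp (-((y' - h) / 2)) ≤ 1 := by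
    rw [← Real.exp_zero]
    exact Real.exp_le_exp.2 (by linarith)
  have h3 : Real.exp (-(y' / 2)) = Real.exp (-(h / 2)) * Real.exp (-((y' - h) / 2)) := by
    rw [← Real.exp_add]
    congr 1
    ring
  have h4 : Real.exp (-((g - h) / 2)) = Real.exp (-(y / 2)) * Real.exp (-((y' - h) / 2)) := by
    rw [← Real.exp_add]
    congr 1
    rw [← hg]
    ring
  rw [h3, h4]
  nlinarith [mul_nonneg (sub_nonneg.2 h1) (sub_nonneg.2 h2)]

/-- the last estimate -/
theorem Phi_last (al B x : ℝ) (hal : 21 ≤ al) (hB : B = Real.exp (-(al / 2)))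
    (hx : 7 * B ≤ x) (hxal : x ≤ 5 / 12 * al) :
    Real.exp (-(2 * x)) + 11 / 10 * B ≤ Real.exp (-x) := by
  have hB0 : 0 < B := by rw [hB]; exact Real.exp_pos _
  have hx0 : 0 < x := by linarith
  have h1 : Real.exp (-(2 * x)) = Real.exp (-x) * Real.exp (-x) := by
    rw [← Real.exp_add]
    congr 1
    ring
  have h2 : Real.exp (-x) ≤ 1 / (1 + x) := by
    rw [Real.exp_neg, inv_eq_one_div]
    apply one_div_le_one_div_of_le (by linarith)
    have := Real.add_one_le_exp x
    linarith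
  have hE0 : 0 < Real.exp (-x) := Real.exp_pos _
  by_cases hx1 : x ≤ 1
  · -- small `x`
    have h3 : x / 2 ≤ 1 - Real.exp (-x) := by
      have h4 : 1 / (1 + x) ≤ 1 - x / 2 := by
        rw [div_le_iff₀ (by linarith)]
        nlinarith
      linarith
    have h5 : (9 : ℝ) / 25 ≤ Real.exp (-x) := by
      have h6 : Real.exp (-1) ≤ Real.exp (-x) := Real.exp_le_exp.2 (by linarith)
      have h7 := Real.exp_neg_one_gt_d9
      linarith
    have h8 : 9 / 25 * (x / 2) ≤ Real.exp (-x) * (1 - Real.exp (-x)) :=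
      mul_le_mul h5 h3 (by linarith) hE0.le
    rw [h1]
    nlinarith
  · push Not at hx1
    have h3 : (1 : ℝ) / 2 ≤ 1 - Real.exp (-x) := by
      have h4 : 1 / (1 + x) ≤ 1 / 2 := one_div_le_one_div_of_le (by norm_num) (by linarith)
      linarith
    have h5 : Real.exp (-(5 / 12 * al)) ≤ Real.exp (-x) := Real.exp_le_exp.2 (by linarith)
    have h6 : Real.exp (-(5 / 12 * al)) = B * Real.exp (al / 12) := by
      rw [hB, ← Real.exp_add]
      congr 1
      ring
    have h7 : (11 : ℝ) / 5 ≤ Real.exp (al / 12) := by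
      have := Real.add_one_le_exp (al / 12)
      linarith
    have h8 : B * (11 / 5) ≤ Real.exp (-x) := by
      refine le_trans ?_ h5
      rw [h6]
      exact mul_le_mul_of_nonneg_left h7 hB0.le
    have h9 : B * (11 / 5) * (1 / 2) ≤ Real.exp (-x) * (1 - Real.exp (-x)) :=
      mul_le_mul h8 h3 (by norm_num) hE0.le
    rw [h1]
    linarith

theorem pr_Phi : S_Phi := by
  intro al be ρ k hal hab hbe hk hρ habs
  have hk1 : (1 : ℝ) ≤ k := by exact_mod_cast hk
  obtain ⟨B, hB⟩ : ∃ B, B = Real.exp (-(al / 2)) := ⟨_, rfl⟩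
  rw [← hB] at hρ
  have hB0 : 0 < B := by rw [hB]; exact Real.exp_pos _
  have hρ0 : 0 < ρ := by linarith
  obtain ⟨g, hg⟩ : ∃ g, g = al + be := ⟨_, rfl⟩
  have hg0 : 0 < g := by linarith
  obtain ⟨h, hh⟩ : ∃ h, h = 4 * ρ * k := ⟨_, rfl⟩
  have hh0 : 0 < h := by rw [hh]; positivity
  have hlin : ∀ u : ℕ, (u : ℝ) * al - ((k : ℝ) - u) * be = u * g - k * be := by
    intro u
    rw [hg]
    ring
  rw [← hh] at habs
  simp only [hlin] at habs
  -- the last index with a negative term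
  obtain ⟨v, hv⟩ : ∃ v : ℕ, v = ⌊(k : ℝ) * be / g⌋₊ := ⟨_, rfl⟩
  have hpos : 0 ≤ (k : ℝ) * be / g := by
    have : 0 ≤ be := by linarith
    positivity
  have hv1 : (v : ℝ) ≤ (k : ℝ) * be / g := by rw [hv]; exact Nat.floor_le hpos
  have hv2 : (k : ℝ) * be / g < v + 1 := by rw [hv]; exact Nat.lt_floor_add_one _
  rw [le_div_iff₀ hg0] at hv1
  rw [div_lt_iff₀ hg0] at hv2
  have hvk : v < k := by
    have h1 : (v : ℝ) * g < k * g := by
      refine lt_of_le_of_lt hv1 ?_
      rw [hg]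
      nlinarith
    have h2 : (v : ℝ) < k := lt_of_mul_lt_mul_right h1 hg0.le
    exact_mod_cast h2
  obtain ⟨y, hy⟩ : ∃ y, y = k * be - v * g := ⟨_, rfl⟩
  have hyh : h ≤ y := by
    have h1 := habs v hvk.le
    rwa [abs_of_nonpos (by linarith), neg_sub, ← hy] at h1
  have hy'h : h ≤ g - y := by
    have h1 := habs (v + 1) hvk
    push_cast at h1
    rw [abs_of_nonneg (by linarith)] at h1
    rw [hy]
    linarith
  obtain ⟨q, hq⟩ : ∃ q, q = Real.exp (-(g / 2)) := ⟨_, rfl⟩
  have hq0 : 0 < q := by rw [hq]; exact Real.exp_pos _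
  have hpow : ∀ (c : ℝ) (i : ℕ), Real.exp (-((c + i * g) / 2)) = Real.exp (-(c / 2)) * q ^ i := by
    intro c i
    rw [hq, ← Real.exp_nat_mul, ← Real.exp_add]
    congr 1
    ring
  have hsum : CD.phi al be k * (1 - q) ≤ Real.exp (-(y / 2)) + Real.exp (-((g - y) / 2)) := by
    unfold CD.phi
    refine Phi_sum _ q _ _ k v hq0.le (Real.exp_pos _).le (Real.exp_pos _).le hvk ?_ ?_
    · intro u hu
      have h1 : (u : ℝ) * g - k * be = -(y + ((v - u : ℕ) : ℝ) * g) := by
        rw [hy, Nat.cast_sub hu]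
        ring
      show Real.exp (-(|(u : ℝ) * al - ((k : ℝ) - u) * be| / 2)) = _
      rw [hlin, h1, abs_neg, abs_of_nonneg, hpow]
      have h2 : 0 ≤ ((v - u : ℕ) : ℝ) * g := by positivity
      linarith
    · intro j
      have h1 : ((v + 1 + j : ℕ) : ℝ) * g - k * be = (g - y) + (j : ℝ) * g := by
        rw [hy]
        push_cast
        ring
      show Real.exp (-(|((v + 1 + j : ℕ) : ℝ) * al - ((k : ℝ) - ((v + 1 + j : ℕ) : ℝ)) * be| / 2)) = _
      rw [hlin, h1, abs_of_nonneg, hpow]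
      have h2 : 0 ≤ (j : ℝ) * g := by positivity
      linarith
  have hconv := Phi_conv g h y (g - y) hyh hy'h (by ring)
  have hB2 : q ≤ B * B := by
    rw [hq, hB, ← Real.exp_add]
    exact Real.exp_le_exp.2 (by linarith)
  have hgh : Real.exp (-((g - h) / 2)) ≤ B := by
    rw [hB]
    exact Real.exp_le_exp.2 (by linarith)
  have hBs : B ≤ 1 / 11 := by
    rw [hB, Real.exp_neg, inv_eq_one_div]
    apply one_div_le_one_div_of_le (by norm_num)
    have := Real.add_one_le_exp (al / 2)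
    linarith
  obtain ⟨A, hA⟩ : ∃ A, A = Real.exp (-(h / 2)) := ⟨_, rfl⟩
  have hA0 : 0 < A := by rw [hA]; exact Real.exp_pos _
  have hA1 : A ≤ 1 := by
    rw [hA, ← Real.exp_zero]
    exact Real.exp_le_exp.2 (by linarith)
  rw [← hA] at hconv
  -- the denominator
  have hmain : CD.phi al be k ≤ A + 11 / 10 * B := by
    have hq1 : 0 < 1 - q := by nlinarith
    have h1 : CD.phi al be k * (1 - q) ≤ (A + 11 / 10 * B) * (1 - q) := by
      have h2 : q * (A + 11 / 10 * B) ≤ B * B * (1 + 11 / 10 * (1 / 11)) := by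
        apply mul_le_mul hB2 (by linarith) (by positivity) (by positivity)
      have h3 : B * B * (1 + 11 / 10 * (1 / 11)) ≤ 1 / 10 * B := by
        nlinarith
      linarith
    exact le_of_mul_le_mul_right h1 hq1
  have hlast := Phi_last al B (ρ * k) hal hB (by nlinarith) (by linarith)
  have hA' : A = Real.exp (-(2 * (ρ * k))) := by
    rw [hA, hh]
    congr 1
    ring
  rw [hA'] at hmain
  linarith

end Pool.Agent.Work.MP_499dc6_lc.HD
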