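import Pool.Agent.Work.MP_499dc6_lc.HD.Stmts

set_option autoImplicit false

namespace Pool.Agent.Work.MP_499dc6_lc.HD

theorem pr_Pick : S_Pick := by
  intro d r hd h1 h2
  have hd' : (4 : ℝ) ≤ d := by exact_mod_cast hd
  have hr : (0 : ℝ) < r + 1 := by linarith
  have hq : 0 ≤ (d : ℝ) / (r + 1) := by positivity
  set m : ℕ := ⌊(d : ℝ) / (r + 1)⌋₊ with hm
  have h3 : (m : ℝ) ≤ (d : ℝ) / (r + 1) := Nat.floor_le hq
  have h4 : (d : ℝ) / (r + 1) < m + 1 := Nat.lt_floor_add_one _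
  rw [le_div_iff₀ hr] at h3
  rw [div_lt_iff₀ hr] at h4
  have hm1 : 1 ≤ m := by
    by_contra hh
    have : m = 0 := by omega
    rw [this] at h4
    push_cast at h4
    linarith
  have hmd : m ≤ d := by
    have : (m : ℝ) ≤ d := by nlinarith
    exact_mod_cast this
  refine ⟨d - m, m, by omega, hm1, ?_, ?_⟩
  · rw [Nat.cast_sub hmd]
    linarith
  · rw [Nat.cast_sub hmd]
    linarith

end Pool.Agent.Work.MP_499dc6_lc.HD
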