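import Pool.Agent.Work.MP_499dc6_lc.HD.Stmts

/-!
# Block HD, item Pos (helper37)
-/

set_option autoImplicit false

namespace Pool.Agent.Work.MP_499dc6_lc.HD

theorem Pos_step (x d m : ℕ) (hm : 1 ≤ m) (hmd : m ≤ d) :
    ((x + m) % d < m ∧ (x + m) / d = x / d + 1) ∨ (¬ (x + m) % d < m ∧ (x + m) / d = x / d) := by
  have h1 := Nat.div_add_mod x d
  have hd : 0 < d := by omega
  have h2 := Nat.mod_lt x hd
  rcases Nat.lt_or_ge (x % d + m) d with h | h
  · right
    obtain ⟨h3, h4⟩ := (Nat.div_mod_unique hd (a := x + m) (c := x % d + m) (d := x / d)).2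
      ⟨by omega, h⟩
    rw [h3, h4]
    exact ⟨by omega, rfl⟩
  · left
    have h5 : d * (x / d + 1) = d * (x / d) + d := Nat.mul_succ _ _
    obtain ⟨h3, h4⟩ := (Nat.div_mod_unique hd (a := x + m) (c := x % d + m - d)
      (d := x / d + 1)).2 ⟨by omega, by omega⟩
    rw [h3, h4]
    exact ⟨by omega, rfl⟩

theorem pr_Pos : S_Pos := by
  intro a m hm
  refine ⟨?_, ?_, ?_, ?_⟩
  · show 0 * m % (a + m) < m
    rw [Nat.zero_mul, Nat.zero_mod]
    exact hm
  · show (a + m) * m % (a + m) < m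
    rw [Nat.mul_mod_right]
    exact hm
  · exact Nat.mul_div_cancel_left m (by omega)
  · intro p
    have h := Pos_step (p * m) (a + m) m hm (by omega)
    rw [← Nat.succ_mul] at h
    exact h

end Pool.Agent.Work.MP_499dc6_lc.HD
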