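import Pool.Agent.Work.MP_499dc6_lc.HD.Stmts

/-!
# Item Proj of block HD: the hard polynomial is a projection of iterated matrix multiplication
-/

set_option autoImplicit false

namespace Pool.Agent.Work.MP_499dc6_lc.HD

open MvPolynomial

/-- The substitution at a consistent step is one variable. -/
theorem Proj_th (hU : S_ThU) (R : Type) [CommSemiring R] (a m n N : ℕ) (z0 : Fin n)
    (c : Fin n → Fin n → Fin N) (hc : ∀ x y x' y', c x y = c x' y' → x = x' ∧ y = y')
    (p : Fin (a + m)) (x y : Fin n) :
    th R a m n N z0 c (p, stA a m z0 c p x y, stB a m z0 c p x y) = X (lb a m n p x y) := by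
  unfold th
  rw [Finset.sum_eq_single (x, y)]
  · rw [if_pos]
    exact ⟨rfl, rfl⟩
  · intro e _ he
    rw [if_neg]
    rintro ⟨h1, h2⟩
    obtain ⟨h3, h4⟩ := hU a m n N z0 c p x y e.1 e.2 hc h1 h2
    exact he (Prod.ext h3.symm h4.symm)
  · intro h
    exact absurd (Finset.mem_univ _) h

/-- The substitution at an inconsistent step is zero. -/
theorem Proj_th_zero (R : Type) [CommSemiring R] (a m n N : ℕ) (z0 : Fin n)
    (c : Fin n → Fin n → Fin N) (p : Fin (a + m)) (u v : Fin N)
    (h : ¬ ∃ x y : Fin n, u = stA a m z0 c p x y ∧ v = stB a m z0 c p x y) :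
    th R a m n N z0 c (p, u, v) = 0 := by
  unfold th
  refine Finset.sum_eq_zero fun e _ => ?_
  rw [if_neg]
  rintro ⟨h1, h2⟩
  exact h ⟨e.1, e.2, h1, h2⟩

theorem Proj_ext {d N : ℕ} {z : Fin N} (w w' : CD.Walk d N z)
    (h : ∀ p : Fin d, w.1 p.castSucc = w'.1 p.castSucc) : w = w' := by
  apply Subtype.ext
  funext j
  induction j using Fin.lastCases with
  | last => rw [w.2.2, w'.2.2]
  | cast p => exact h p

theorem pr_Proj (hC : S_Code) (hU : S_ThU) (hW : S_WMap) (hS : S_WSur) (hZ : S_CntZ) :
    S_Proj := by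
  intro R _ a m n N _ z0 z hnN
  obtain ⟨c, hcinj, hc0⟩ := hC n N z0 z hnN
  refine ⟨th R a m n N z0 c, ?_, ?_⟩
  · intro x
    unfold th
    refine MvPolynomial.IsHomogeneous.sum _ _ _ fun e _ => ?_
    split_ifs
    · exact MvPolynomial.isHomogeneous_X _ _
    · exact MvPolynomial.isHomogeneous_zero _ _ _
  · choose W hWs using fun s : CD.Walk m n z0 => hW a m n N z0 z c s hc0
    unfold imm pw
    rw [map_sum]
    have hinj : Function.Injective W := by
      intro s s' hss
      refine Proj_ext s s' fun i => ?_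
      have hcard := hZ a m i
      obtain ⟨p, hp⟩ : (Finset.univ.filter
          (fun p : Fin (a + m) => Bd a m p ∧ it a m p = i)).Nonempty := by
        rw [← Finset.card_pos, hcard]
        exact Nat.zero_lt_one
      rw [Finset.mem_filter] at hp
      have h1 := hWs s p
      have h2 := hWs s' p
      rw [← hss] at h2
      have h3 := hU a m n N z0 c p _ _ _ _ hcinj (h1.1.symm.trans h2.1) (h1.2.symm.trans h2.2)
      rw [← hp.2.2]
      exact h3.1
    refine (Fintype.sum_of_injective W hinj _ _ ?_ ?_).symm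
    · intro w hw
      rw [map_prod]
      by_cases hcons : ∀ p : Fin (a + m), ∃ x y : Fin n,
          w.1 p.castSucc = stA a m z0 c p x y ∧ w.1 p.succ = stB a m z0 c p x y
      · exfalso
        obtain ⟨s, hs⟩ := hS a m n N z0 z c w hcinj hc0 hcons
        refine hw ⟨s, ?_⟩
        refine Proj_ext _ _ fun p => ?_
        rw [(hWs s p).1, (hs p).1]
      · push Not at hcons
        obtain ⟨p, hp⟩ := hcons
        refine Finset.prod_eq_zero (Finset.mem_univ p) ?_
        rw [aeval_X]
        refine Proj_th_zero R a m n N z0 c p _ _ ?_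
        rintro ⟨x, y, h1, h2⟩
        exact hp x y h1 h2
    · intro s
      rw [map_prod]
      refine Finset.prod_congr rfl fun p _ => ?_
      rw [aeval_X, (hWs s p).1, (hWs s p).2]
      exact (Proj_th hU R a m n N z0 c hcinj p _ _).symm

end Pool.Agent.Work.MP_499dc6_lc.HD
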