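import Pool.Agent.Work.MP_499dc6_lc.HD.Stmts

/-!
# Block HD, item ProjS: simple paths and iterated matrix multiplication
-/

set_option autoImplicit false

namespace Pool.Agent.Work.MP_499dc6_lc.HD

open MvPolynomial

theorem ProjS_lt {M N d : ℕ} (h : (d + 1) * N ≤ M) (p : Fin (d + 1)) (u : Fin N) :
    (u : ℕ) + N * (p : ℕ) < M := by
  have h1 : N * (p : ℕ) + N ≤ (d + 1) * N := by
    have h2 : (p : ℕ) + 1 ≤ d + 1 := p.2
    calc N * (p : ℕ) + N = ((p : ℕ) + 1) * N := by ring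
      _ ≤ (d + 1) * N := Nat.mul_le_mul_right _ h2
  have h3 := u.2
  omega

/-- the vertex of the layer `p` with the number `u` -/
def ProjS_V {M N d : ℕ} (h : (d + 1) * N ≤ M) (p : Fin (d + 1)) (u : Fin N) : Fin M :=
  ⟨(u : ℕ) + N * (p : ℕ), ProjS_lt h p u⟩

theorem ProjS_div {M N d : ℕ} (h : (d + 1) * N ≤ M) (p : Fin (d + 1)) (u : Fin N) :
    (ProjS_V h p u : ℕ) / N = p := by
  have hN : 0 < N := lt_of_le_of_lt (Nat.zero_le _) u.2
  show ((u : ℕ) + N * (p : ℕ)) / N = p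
  rw [Nat.add_mul_div_left _ _ hN, Nat.div_eq_of_lt u.2, zero_add]

theorem ProjS_mod {M N d : ℕ} (h : (d + 1) * N ≤ M) (p : Fin (d + 1)) (u : Fin N) :
    (ProjS_V h p u : ℕ) % N = u := by
  show ((u : ℕ) + N * (p : ℕ)) % N = u
  rw [Nat.add_mul_mod_self_left, Nat.mod_eq_of_lt u.2]

theorem ProjS_inj {M N d : ℕ} (h : (d + 1) * N ≤ M) {p p' : Fin (d + 1)} {u u' : Fin N}
    (hh : ProjS_V h p u = ProjS_V h p' u') : p = p' ∧ u = u' := by
  refine ⟨Fin.ext ?_, Fin.ext ?_⟩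
  · rw [← ProjS_div h p u, ← ProjS_div h p' u', hh]
  · rw [← ProjS_mod h p u, ← ProjS_mod h p' u', hh]

/-- the condition for the entry `e` of the matrices -/
def ProjS_P {M N d : ℕ} (h : (d + 1) * N ≤ M) (z : Fin N) (x : Fin M × Fin M)
    (e : Fin d × Fin N × Fin N) : Prop :=
  x.1 = ProjS_V h e.1.castSucc e.2.1 ∧ x.2 = ProjS_V h e.1.succ e.2.2 ∧
    ((e.1 : ℕ) = 0 → e.2.1 = z) ∧ ((e.1 : ℕ) + 1 = d → e.2.2 = z)

open Classical in
/-- the substitution -/
noncomputable def ProjS_th (R : Type) [CommSemiring R] {M N d : ℕ} (h : (d + 1) * N ≤ M)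
    (z : Fin N) (x : Fin M × Fin M) : MvPolynomial (Fin d × Fin N × Fin N) R :=
  ∑ e : Fin d × Fin N × Fin N, if ProjS_P h z x e then X e else 0

theorem ProjS_hom (R : Type) [CommSemiring R] {M N d : ℕ} (h : (d + 1) * N ≤ M)
    (z : Fin N) (x : Fin M × Fin M) : (ProjS_th R h z x).IsHomogeneous 1 := by
  unfold ProjS_th
  refine MvPolynomial.IsHomogeneous.sum _ _ _ ?_
  intro e _
  split_ifs
  · exact isHomogeneous_X R e
  · exact isHomogeneous_zero _ R 1

theorem ProjS_one (R : Type) [CommSemiring R] {M N d : ℕ} (h : (d + 1) * N ≤ M)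
    (z : Fin N) (x : Fin M × Fin M) (e : Fin d × Fin N × Fin N) (he : ProjS_P h z x e) :
    ProjS_th R h z x = X e := by
  unfold ProjS_th
  rw [Finset.sum_eq_single e]
  · exact if_pos he
  · intro e' _ hne
    refine if_neg ?_
    intro he'
    apply hne
    have h1 := ProjS_inj h (he'.1.symm.trans he.1)
    have h2 := ProjS_inj h (he'.2.1.symm.trans he.2.1)
    refine Prod.ext ?_ (Prod.ext h1.2 h2.2)
    exact Fin.castSucc_injective d h1.1
  · intro hn
    exact absurd (Finset.mem_univ e) hn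

theorem ProjS_ex (R : Type) [CommSemiring R] {M N d : ℕ} (h : (d + 1) * N ≤ M)
    (z : Fin N) (x : Fin M × Fin M) (hx : ProjS_th R h z x ≠ 0) :
    ∃ e, ProjS_P h z x e := by
  unfold ProjS_th at hx
  obtain ⟨e, -, he⟩ := Finset.exists_ne_zero_of_sum_ne_zero hx
  refine ⟨e, ?_⟩
  by_contra hcon
  exact he (if_neg hcon)

/-- the simple path of a walk -/
def ProjS_e {M N d : ℕ} (h : (d + 1) * N ≤ M) (w : Fin (d + 1) → Fin N) : Fin (d + 1) ↪ Fin M :=
  ⟨fun i => ProjS_V h i (w i), fun _ _ hij => (ProjS_inj h hij).1⟩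

theorem ProjS_surj {M N d : ℕ} (hd : 1 ≤ d) (h : (d + 1) * N ≤ M) (z : Fin N)
    (v : Fin (d + 1) ↪ Fin M)
    (hv : ∀ i : Fin d, ∃ e, ProjS_P h z (v i.castSucc, v i.succ) e) :
    ∃ w : CD.Walk d N z, ProjS_e h w.1 = v := by
  -- the layers
  have hstep : ∀ i : Fin d, (v i.succ : ℕ) / N = (v i.castSucc : ℕ) / N + 1 := by
    intro i
    obtain ⟨e, h1, h2, -, -⟩ := hv i
    have h1' : v i.castSucc = ProjS_V h e.1.castSucc e.2.1 := h1
    have h2' : v i.succ = ProjS_V h e.1.succ e.2.2 := h2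
    rw [h1', h2', ProjS_div, ProjS_div]
    rfl
  have hlay : ∀ (j : ℕ) (hj : j < d + 1), (v ⟨j, hj⟩ : ℕ) / N = (v 0 : ℕ) / N + j := by
    intro j
    induction j with
    | zero => exact fun _ => rfl
    | succ j ih =>
      intro hj
      have h1 := ih (by omega)
      have h2 := hstep ⟨j, by omega⟩
      have h3 : (⟨j, by omega⟩ : Fin d).succ = ⟨j + 1, hj⟩ := rfl
      have h4 : (⟨j, by omega⟩ : Fin d).castSucc = ⟨j, by omega⟩ := rfl
      rw [h3, h4] at h2
      rw [h2, h1]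
      omega
  have hzero : (v 0 : ℕ) / N = 0 := by
    obtain ⟨e, -, h2, -, -⟩ := hv ⟨d - 1, by omega⟩
    have h2' : v (⟨d - 1, by omega⟩ : Fin d).succ = ProjS_V h e.1.succ e.2.2 := h2
    have h3 : (v (⟨d - 1, by omega⟩ : Fin d).succ : ℕ) / N = (e.1.succ : ℕ) := by
      rw [h2', ProjS_div]
    have h4 : (v (⟨d - 1, by omega⟩ : Fin d).succ : ℕ) / N = (v 0 : ℕ) / N + (d - 1 + 1) :=
      hlay (d - 1 + 1) (by omega)
    have h6 : ((e.1.succ : Fin (d + 1)) : ℕ) = (e.1 : ℕ) + 1 := rfl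
    have h7 : (e.1 : ℕ) < d := e.1.2
    rw [h4, h6] at h3
    generalize (v 0 : ℕ) / N = y at h3
    omega
  have hlay' : ∀ i : Fin (d + 1), (v i : ℕ) / N = (i : ℕ) := by
    intro i
    have h1 := hlay i.1 i.2
    rw [hzero, zero_add] at h1
    exact h1
  -- every vertex is of the form `V (i, u)`
  have hform : ∀ i : Fin (d + 1), ∃ u : Fin N, v i = ProjS_V h i u ∧ ((i : ℕ) = 0 → u = z) ∧
      ((i : ℕ) = d → u = z) := by
    intro i
    by_cases hi : (i : ℕ) = d
    · obtain ⟨e, -, h2, -, h4⟩ := hv ⟨d - 1, by omega⟩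
      have h5 : (⟨d - 1, by omega⟩ : Fin d).succ = i := by
        apply Fin.ext
        show d - 1 + 1 = (i : ℕ)
        omega
      have h2' : v (⟨d - 1, by omega⟩ : Fin d).succ = ProjS_V h e.1.succ e.2.2 := h2
      rw [h5] at h2'
      have h6 := hlay' i
      rw [h2', ProjS_div] at h6
      have h7 : e.1.succ = i := Fin.ext h6
      rw [h7] at h2'
      have h8 : (e.1 : ℕ) + 1 = d := by
        have h9 : ((e.1.succ : Fin (d + 1)) : ℕ) = (e.1 : ℕ) + 1 := rfl
        rw [← h9, h7, hi]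
      refine ⟨e.2.2, h2', ?_, fun _ => h4 h8⟩
      intro h0
      omega
    · obtain ⟨j, hj⟩ : ∃ j : Fin d, j.castSucc = i :=
        ⟨⟨i.1, by have := i.2; omega⟩, rfl⟩
      obtain ⟨e, h1, -, h3, -⟩ := hv j
      have h1' : v j.castSucc = ProjS_V h e.1.castSucc e.2.1 := h1
      rw [hj] at h1'
      have h6 := hlay' i
      rw [h1', ProjS_div] at h6
      have h7 : e.1.castSucc = i := Fin.ext h6
      rw [h7] at h1'
      refine ⟨e.2.1, h1', ?_, fun h0 => absurd h0 hi⟩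
      intro h0
      apply h3
      have h9 : ((e.1.castSucc : Fin (d + 1)) : ℕ) = (e.1 : ℕ) := rfl
      rw [← h9, h7, h0]
  choose w hw1 hw2 hw3 using hform
  refine ⟨⟨w, hw2 0 rfl, hw3 (Fin.last d) rfl⟩, ?_⟩
  ext i
  exact congrArg Fin.val (hw1 i).symm

theorem pr_ProjS : S_ProjS := by
  intro R _ M N d z hd h
  refine ⟨ProjS_th R h z, ProjS_hom R h z, ?_⟩
  unfold spath imm
  rw [map_sum]
  symm
  refine Finset.sum_of_injOn (fun w : CD.Walk d N z => ProjS_e h w.1) ?_ ?_ ?_ ?_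
  · intro w _ w' _ hww
    refine Subtype.ext (funext fun i => ?_)
    have h1 : ProjS_V h i (w.1 i) = ProjS_V h i (w'.1 i) :=
      congrArg (fun v : Fin (d + 1) ↪ Fin M => v i) hww
    exact (ProjS_inj h h1).2
  · intro w _
    exact Finset.mem_coe.2 (Finset.mem_univ _)
  · intro v _ hv
    rw [map_prod]
    by_contra hcon
    apply hv
    have h1 : ∀ i : Fin d, ∃ e, ProjS_P h z (v i.castSucc, v i.succ) e := by
      intro i
      refine ProjS_ex R h z _ ?_
      intro h0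
      apply hcon
      refine Finset.prod_eq_zero (Finset.mem_univ i) ?_
      rw [aeval_X]
      exact h0
    obtain ⟨w, hw⟩ := ProjS_surj hd h z v h1
    exact ⟨w, Finset.mem_coe.2 (Finset.mem_univ _), hw⟩
  · intro w _
    rw [map_prod]
    refine Finset.prod_congr rfl ?_
    intro i _
    rw [aeval_X]
    refine (ProjS_one R h z _ (i, w.1 i.castSucc, w.1 i.succ) ⟨rfl, rfl, ?_, ?_⟩).symm
    · intro h0
      have h1 : i.castSucc = 0 := Fin.ext h0
      show w.1 i.castSucc = z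
      rw [h1]
      exact w.2.1
    · intro h0
      have h1 : i.succ = Fin.last d := Fin.ext h0
      show w.1 i.succ = z
      rw [h1]
      exact w.2.2

end Pool.Agent.Work.MP_499dc6_lc.HD
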