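import Mathlib
import Pool.Agent.Work.MP_499dc6_lc.HD.Stmts

/-!
# Block HD, item PwBi: the hard polynomial is bihomogeneous

Author: helper57 (model: `CD.pr_PWhom`, `Bd/B02.lean`).
-/

set_option autoImplicit false

namespace Pool.Agent.Work.MP_499dc6_lc.HD

open MvPolynomial

theorem PwBi_sum {Y Z : Type} [Fintype Y] [Fintype Z] {R : Type} [CommSemiring R] {ι : Type}
    (s : Finset ι) (f : ι → MvPolynomial (Y ⊕ Z) R) (x y : ℕ) (h : ∀ i ∈ s, CD.IsBi (f i) x y) :
    CD.IsBi (∑ i ∈ s, f i) x y := by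
  intro m hm
  rw [coeff_sum] at hm
  obtain ⟨i, hi, hne⟩ := Finset.exists_ne_zero_of_sum_ne_zero hm
  exact h i hi m hne

theorem PwBi_one {Y Z : Type} [Fintype Y] [Fintype Z] {R : Type} [CommSemiring R] :
    CD.IsBi (1 : MvPolynomial (Y ⊕ Z) R) 0 0 := by
  intro m hm
  classical
  rw [coeff_one] at hm
  have h0 : 0 = m := by
    by_contra h
    simp [h] at hm
  subst h0
  simp [CD.dY, CD.dZ]

theorem PwBi_inl {Y Z : Type} [Fintype Y] [Fintype Z] {R : Type} [CommSemiring R] (i : Y) :
    CD.IsBi (X (Sum.inl i) : MvPolynomial (Y ⊕ Z) R) 1 0 := by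
  intro m hm
  classical
  rw [coeff_X] at hm
  have h0 : Finsupp.single (Sum.inl i) 1 = m := by
    by_contra h
    simp [h] at hm
  subst h0
  simp [CD.dY, CD.dZ, Finsupp.single_apply]

theorem PwBi_inr {Y Z : Type} [Fintype Y] [Fintype Z] {R : Type} [CommSemiring R] (i : Z) :
    CD.IsBi (X (Sum.inr i) : MvPolynomial (Y ⊕ Z) R) 0 1 := by
  intro m hm
  classical
  rw [coeff_X] at hm
  have h0 : Finsupp.single (Sum.inr i) 1 = m := by
    by_contra h
    simp [h] at hm
  subst h0
  simp [CD.dY, CD.dZ, Finsupp.single_apply]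

theorem PwBi_prod (hmul : CD.S_BiMul) {Y Z : Type} [Fintype Y] [Fintype Z] {R : Type}
    [CommSemiring R] {ι : Type} (s : Finset ι) (f : ι → MvPolynomial (Y ⊕ Z) R)
    (x y : ι → ℕ) (h : ∀ i ∈ s, CD.IsBi (f i) (x i) (y i)) :
    CD.IsBi (∏ i ∈ s, f i) (∑ i ∈ s, x i) (∑ i ∈ s, y i) := by
  classical
  induction s using Finset.induction_on with
  | empty => simpa using PwBi_one
  | insert a s ha ih =>
    rw [Finset.prod_insert ha, Finset.sum_insert ha, Finset.sum_insert ha]
    exact hmul Y Z R _ _ _ _ _ _ (h a (Finset.mem_insert_self _ _))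
      (ih fun i hi => h i (Finset.mem_insert_of_mem hi))

theorem PwBi_card (hZ : S_CntZ) (a m : ℕ) [NeZero m] :
    (Finset.univ.filter (fun p : Fin (a + m) => Bd a m p)).card = m := by
  have h := Finset.card_eq_sum_card_fiberwise
    (s := Finset.univ.filter (fun p : Fin (a + m) => Bd a m p))
    (t := (Finset.univ : Finset (Fin m))) (f := fun p => it a m p)
    (fun _ _ => Finset.mem_coe.2 (Finset.mem_univ _))
  rw [h]
  calc ∑ i : Fin m, ((Finset.univ.filter (fun p : Fin (a + m) => Bd a m p)).filter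
        (fun p => it a m p = i)).card
      = ∑ _i : Fin m, 1 := by
        refine Finset.sum_congr rfl fun i _ => ?_
        rw [Finset.filter_filter]
        exact hZ a m i
    _ = m := by simp

theorem pr_PwBi (hZ : S_CntZ) (hmul : CD.S_BiMul) : S_PwBi := by
  intro R _ a m n _ z0
  unfold pw
  refine PwBi_sum _ _ _ _ fun s _ => ?_
  have key : CD.IsBi (∏ p : Fin (a + m),
      (X (lb a m n p (s.1 (it a m p).castSucc) (s.1 (it a m p).succ)) :
        MvPolynomial ((Fin (a + m) × Fin n × Fin n) ⊕ (Fin (a + m) × Fin n × Fin n)) R))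
      (∑ p : Fin (a + m), if ¬ Bd a m p then 1 else 0)
      (∑ p : Fin (a + m), if Bd a m p then 1 else 0) := by
    refine PwBi_prod hmul _ _ _ _ fun p _ => ?_
    by_cases hp : Bd a m p
    · rw [if_neg (not_not.2 hp), if_pos hp]
      unfold lb
      rw [if_pos hp]
      exact PwBi_inr _
    · rw [if_pos hp, if_neg hp]
      unfold lb
      rw [if_neg hp]
      exact PwBi_inl _
  rw [← Finset.card_filter, ← Finset.card_filter] at key
  have h1 := PwBi_card hZ a m
  have h2 := Finset.card_filter_add_card_filter_not (s := (Finset.univ : Finset (Fin (a + m))))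
    (fun p : Fin (a + m) => Bd a m p)
  rw [h1, Finset.card_univ, Fintype.card_fin] at h2
  have h3 : (Finset.univ.filter (fun p : Fin (a + m) => ¬ Bd a m p)).card = a := by omega
  rw [h1, h3] at key
  exact key

end Pool.Agent.Work.MP_499dc6_lc.HD
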