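import Mathlib
import Pool.Agent.Work.MP_499dc6_lc.HD.Stmts

/-!
# Block HD, item PwCo: the coefficient of the constant walk
-/

set_option autoImplicit false

namespace Pool.Agent.Work.MP_499dc6_lc.HD

open MvPolynomial

/-- the exponent of a walk -/
noncomputable def PwCo_nu (a m n : ℕ) [NeZero m] (s : Fin (m + 1) → Fin n) :
    (Fin (a + m) × Fin n × Fin n) ⊕ (Fin (a + m) × Fin n × Fin n) →₀ ℕ :=
  ∑ p : Fin (a + m),
    Finsupp.single (lb a m n p (s (it a m p).castSucc) (s (it a m p).succ)) 1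

/-- the product of a walk is a monomial -/
theorem PwCo_prod (R : Type) [CommSemiring R] (a m n : ℕ) [NeZero m] (s : Fin (m + 1) → Fin n) :
    (∏ p : Fin (a + m),
      (X (lb a m n p (s (it a m p).castSucc) (s (it a m p).succ)) :
        MvPolynomial ((Fin (a + m) × Fin n × Fin n) ⊕ (Fin (a + m) × Fin n × Fin n)) R)) =
      monomial (PwCo_nu a m n s) 1 := by
  unfold PwCo_nu
  rw [monomial_sum_one]
  rfl

/-- a walk with the exponent of the constant walk is constant -/
theorem PwCo_const (hZ : S_CntZ) (a m n : ℕ) [NeZero m] (z0 : Fin n) (s : Fin (m + 1) → Fin n)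
    (hs : s (Fin.last m) = z0) (h : PwCo_nu a m n s = PwCo_nu a m n (fun _ => z0)) :
    s = fun _ => z0 := by
  have hstep : ∀ i : Fin m, s i.castSucc = z0 := by
    intro i
    have hcard := hZ a m i
    obtain ⟨p, hp⟩ := Finset.card_pos.1 (by rw [hcard]; exact one_pos)
    rw [Finset.mem_filter] at hp
    obtain ⟨-, hB, hit⟩ := hp
    have h1 : 1 ≤ PwCo_nu a m n s (Sum.inr (p, s i.castSucc, s i.succ)) := by
      unfold PwCo_nu
      rw [Finsupp.finsetSum_apply]
      have h2 : (Finsupp.single (lb a m n p (s (it a m p).castSucc) (s (it a m p).succ)) 1 :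
          (Fin (a + m) × Fin n × Fin n) ⊕ (Fin (a + m) × Fin n × Fin n) →₀ ℕ)
          (Sum.inr (p, s i.castSucc, s i.succ)) = 1 := by
        unfold lb
        rw [if_pos hB, hit, Finsupp.single_eq_same]
      exact h2.symm.le.trans (Finset.single_le_sum (f := fun p₁ : Fin (a + m) =>
        (Finsupp.single (lb a m n p₁ (s (it a m p₁).castSucc) (s (it a m p₁).succ)) 1 :
          (Fin (a + m) × Fin n × Fin n) ⊕ (Fin (a + m) × Fin n × Fin n) →₀ ℕ)
            (Sum.inr (p, s i.castSucc, s i.succ))) (fun _ _ => Nat.zero_le _)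
        (Finset.mem_univ p))
    rw [h] at h1
    unfold PwCo_nu at h1
    rw [Finsupp.finsetSum_apply] at h1
    obtain ⟨p', -, hp'⟩ := Finset.exists_ne_zero_of_sum_ne_zero (Nat.one_le_iff_ne_zero.1 h1)
    simp only at hp'
    have h3 : lb a m n p' z0 z0 = Sum.inr (p, s i.castSucc, s i.succ) := by
      by_contra hne
      exact hp' (Finsupp.single_eq_of_ne (Ne.symm hne))
    unfold lb at h3
    by_cases hB' : Bd a m p'
    · rw [if_pos hB'] at h3
      have h4 := Sum.inr.inj h3
      exact (congrArg (fun t => t.2.1) h4).symm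
    · rw [if_neg hB'] at h3
      exact absurd h3 (by simp)
  funext j
  refine Fin.lastCases ?_ (fun i => ?_) j
  · exact hs
  · exact hstep i

/-- PwCo -/
theorem pr_PwCo (hZ : S_CntZ) : S_PwCo := by
  intro R _ a m n _ z0
  classical
  refine ⟨PwCo_nu a m n (fun _ => z0), ?_⟩
  unfold pw
  rw [Finset.sum_congr rfl (fun s _ => PwCo_prod R a m n s.1), coeff_sum,
    Finset.sum_eq_single (⟨fun _ => z0, rfl, rfl⟩ : CD.Walk m n z0)]
  · rw [coeff_monomial, if_pos rfl]
  · intro s _ hs
    rw [coeff_monomial, if_neg]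
    intro h
    exact hs (Subtype.ext (PwCo_const hZ a m n z0 s.1 s.2.2 h))
  · intro h
    exact absurd (Finset.mem_univ _) h

end Pool.Agent.Work.MP_499dc6_lc.HD
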