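import Pool.Agent.Work.MP_499dc6_lc.HD.Stmts

set_option autoImplicit false

namespace Pool.Agent.Work.MP_499dc6_lc.HD

theorem Rho_pos (hQs : S_Qs) (Λ : ℕ) (hΛ : 4 ≤ Λ) (j : ℕ) : 1 ≤ qs Λ (j + 1) :=
  (hQs Λ hΛ).1 (j + 1) (Nat.succ_le_succ (Nat.zero_le j))

theorem Rho_mul (hQs : S_Qs) (Λ : ℕ) (hΛ : 4 ≤ Λ) (j : ℕ) :
    Λ * max (qs Λ j) 1 * qs Λ (j + 1) ≤ qs Λ (j + 2) := by
  cases j with
  | zero => simp [qs]
  | succ k =>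
    have h1 := Rho_pos hQs Λ hΛ k
    rw [max_eq_left h1]
    show Λ * qs Λ (k + 1) * qs Λ (k + 2) ≤ Λ * qs Λ (k + 1) * qs Λ (k + 2) + qs Λ (k + 1)
    exact Nat.le_add_right _ _

theorem pr_Rho (hQs : S_Qs) : S_Rho := by
  intro al Λ hal hΛ
  have hp : ∀ j, (0 : ℝ) < qs Λ (j + 1) := fun j => by
    exact_mod_cast Rho_pos hQs Λ hΛ j
  have hm : ∀ j, (0 : ℝ) < ((max (qs Λ j) 1 : ℕ) : ℝ) := fun j => by
    exact_mod_cast lt_of_lt_of_le Nat.one_pos (le_max_right _ _)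
  refine ⟨fun j => ?_, fun j => ?_, Rho_mul hQs Λ hΛ, fun Δ hΔ => ?_⟩
  · unfold rho
    have := hp j
    have := hm j
    positivity
  · have h2 : 2 * max (qs Λ j) 1 ≤ qs Λ (j + 2) := by
      have h3 := Rho_mul hQs Λ hΛ j
      have h4 := Rho_pos hQs Λ hΛ j
      calc 2 * max (qs Λ j) 1 ≤ Λ * max (qs Λ j) 1 := Nat.mul_le_mul_right _ (by omega)
        _ = Λ * max (qs Λ j) 1 * 1 := (Nat.mul_one _).symm
        _ ≤ Λ * max (qs Λ j) 1 * qs Λ (j + 1) := Nat.mul_le_mul_left _ h4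
        _ ≤ qs Λ (j + 2) := h3
    have h2' : 2 * ((max (qs Λ j) 1 : ℕ) : ℝ) ≤ qs Λ (j + 2) := by exact_mod_cast h2
    have h5 : max (qs Λ (j + 1)) 1 = qs Λ (j + 1) := max_eq_left (Rho_pos hQs Λ hΛ j)
    unfold rho
    rw [h5]
    have ha := hp j
    have hb := hp (j + 1)
    have hc := hm j
    have e1 : 2 * (al / (64 * ((qs Λ (j + 1) : ℕ) : ℝ) * (qs Λ (j + 1 + 1) : ℝ))) =
        al / (32 * (qs Λ (j + 1) : ℝ) * (qs Λ (j + 2) : ℝ)) := by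
      field_simp
      ring
    rw [e1]
    apply div_le_div_of_nonneg_left hal.le (by positivity)
    have : 64 * ((max (qs Λ j) 1 : ℕ) : ℝ) * (qs Λ (j + 1) : ℝ) =
      32 * (qs Λ (j + 1) : ℝ) * (2 * ((max (qs Λ j) 1 : ℕ) : ℝ)) := by ring
    rw [this]
    exact mul_le_mul_of_nonneg_left h2' (by positivity)
  · obtain ⟨h1, h2⟩ := (hQs Λ hΛ).2.2.2.2.1 Δ hΔ
    have hq : (0 : ℝ) < qs Λ Δ := by
      exact_mod_cast lt_of_lt_of_le Nat.one_pos ((hQs Λ hΛ).1 Δ hΔ)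
    have h1' : (qs Λ Δ : ℝ) ≤ ps Λ Δ := by exact_mod_cast h1
    have h3 : 3 * ps Λ Δ ≤ 4 * qs Λ Δ := by omega
    have h3' : 3 * (ps Λ Δ : ℝ) ≤ 4 * qs Λ Δ := by exact_mod_cast h3
    unfold sl
    constructor
    · have : 1 ≤ (ps Λ Δ : ℝ) / qs Λ Δ := (one_le_div hq).2 h1'
      linarith
    · have : (ps Λ Δ : ℝ) / qs Λ Δ ≤ 4 / 3 := by
        rw [div_le_iff₀ hq]
        linarith
      linarith

end Pool.Agent.Work.MP_499dc6_lc.HD
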