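import Pool.Agent.Work.MP_499dc6_lc.HD.Stmts

/-!
# Block HD, item Sub: substitution of linear forms into a homogeneous circuit (helper2)
-/

set_option autoImplicit false

namespace Pool.Agent.Work.MP_499dc6_lc.HD

open MvPolynomial

theorem pr_Sub (h : CD.S_CircSubst) : S_Sub := by
  intro σ τ K _ s F lev θ hF hθ
  refine ⟨h σ τ K s 1 F lev θ hF.1 fun i => (hθ i).totalDegree_le, fun i => ?_⟩
  obtain ⟨k, hk⟩ := hF.2 i
  exact ⟨1 * k, hk.aeval θ hθ⟩

end Pool.Agent.Work.MP_499dc6_lc.HD
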