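import Pool.Agent.Work.MP_499dc6_lc.HD.Stmts

/-!
# Homogeneous circuits of constant depth over every field: item SubE, border version of a linear
substitution
-/

set_option autoImplicit false

namespace Pool.Agent.Work.MP_499dc6_lc.HD

open MvPolynomial

theorem SubE_map {R S σ τ : Type} [CommSemiring R] [CommSemiring S] [Algebra R S]
    (θ : σ → MvPolynomial τ R) (p : MvPolynomial σ R) :
    aeval (fun x => MvPolynomial.map (algebraMap R S) (θ x)) (MvPolynomial.map (algebraMap R S) p) =
      MvPolynomial.map (algebraMap R S) (aeval θ p) := by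
  induction p using MvPolynomial.induction_on with
  | C a => rw [map_C, algHom_C, algHom_C, algebraMap_eq, algebraMap_eq, map_C]
  | add p q hp hq => rw [map_add, map_add, map_add, map_add, hp, hq]
  | mul_X p i hp => rw [map_mul, map_mul, map_mul, map_mul, hp, map_X, aeval_X, aeval_X]

theorem pr_SubE : S_SubE := by
  intro k σ τ _ P S θ
  rw [SubE_map, map_add (aeval θ), map_mul (aeval θ), algHom_C, algebraMap_eq]

end Pool.Agent.Work.MP_499dc6_lc.HD
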