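import Pool.Agent.Work.MP_499dc6_lc.HD.Stmts

/-!
# Block HD, item ThU: the pair is determined by the two states
-/

set_option autoImplicit false

namespace Pool.Agent.Work.MP_499dc6_lc.HD

theorem pr_ThU : S_ThU := by
  intro a m n N z0 c p x y x' y' hc h1 h2
  unfold stA at h1
  unfold stB at h2
  by_cases hp : Bd a m p
  · rw [if_pos hp, if_pos hp] at h1
    by_cases hq : Bd a m (p + 1)
    · rw [if_pos hq, if_pos hq] at h2
      exact ⟨(hc _ _ _ _ h1).1, (hc _ _ _ _ h2).1⟩
    · rw [if_neg hq, if_neg hq] at h2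
      exact hc _ _ _ _ h2
  · rw [if_neg hp, if_neg hp] at h1
    exact hc _ _ _ _ h1

end Pool.Agent.Work.MP_499dc6_lc.HD
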