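import Pool.Agent.Work.MP_499dc6_lc.HD.Stmts
import Pool.Agent.Work.MP_499dc6_lc.Fib.I_Qs
import Pool.Agent.Work.MP_499dc6_lc.Fib.I_CF

/-!
# Block HD, item Tr: transfer of the statements on continued fractions
-/

set_option autoImplicit false

namespace Pool.Agent.Work.MP_499dc6_lc.HD

/-- the two sequences of denominators agree -/
theorem Tr_qs (Λ : ℕ) : ∀ j : ℕ, qs Λ j = Fib.qs Λ j
  | 0 => rfl
  | 1 => rfl
  | 2 => rfl
  | (j + 3) => by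
    rw [qs, Fib.qs, Tr_qs Λ (j + 1), Tr_qs Λ (j + 2)]

/-- the two sequences of numerators agree -/
theorem Tr_ps (Λ : ℕ) : ∀ j : ℕ, ps Λ j = Fib.ps Λ j
  | 0 => rfl
  | 1 => rfl
  | 2 => rfl
  | (j + 3) => by
    rw [ps, Fib.ps, Tr_qs Λ (j + 1), Tr_ps Λ (j + 1), Tr_ps Λ (j + 2)]

theorem Tr_qs' : qs = Fib.qs := funext fun Λ => funext fun j => Tr_qs Λ j

theorem Tr_ps' : ps = Fib.ps := funext fun Λ => funext fun j => Tr_ps Λ j

theorem pr_Tr : S_Tr := by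
  refine ⟨?_, ?_⟩
  · unfold S_Qs
    rw [Tr_qs', Tr_ps']
    exact Fib.pr_Qs
  · unfold S_CF
    rw [Tr_qs', Tr_ps']
    exact Fib.pr_CF Fib.pr_Qs

end Pool.Agent.Work.MP_499dc6_lc.HD
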