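import Mathlib
import Pool.Agent.Work.MP_499dc6_lc.HD.Stmts

/-!
# Block HD, item WSur: consistent walks come from walks
-/

set_option autoImplicit false

namespace Pool.Agent.Work.MP_499dc6_lc.HD

theorem WSur_core (hPos : S_Pos) (a m n N : ℕ) (hm : 1 ≤ m) (z0 : Fin n) (z : Fin N)
    (c : Fin n → Fin n → Fin N) (hc : ∀ x y x' y', c x y = c x' y' → x = x' ∧ y = y')
    (hz : c z0 z0 = z) (W : ℕ → Fin N) (X Y : ℕ → Fin n) (hW0 : W 0 = z) (hWd : W (a + m) = z)
    (hA : ∀ p, p < a + m → W p = stA a m z0 c p (X p) (Y p))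
    (hB : ∀ p, p < a + m → W (p + 1) = stB a m z0 c p (X p) (Y p)) :
    ∃ s : ℕ → Fin n, s 0 = z0 ∧ s m = z0 ∧
      ∀ p, p < a + m → X p = s (p * m / (a + m)) ∧ Y p = s (p * m / (a + m) + 1) := by
  obtain ⟨hP0, hPd, hPm, hPs⟩ := hPos a m hm
  have hX0 : X 0 = z0 := by
    have h1 := hA 0 (by omega)
    rw [hW0, ← hz, stA, if_pos hP0] at h1
    exact (hc _ _ _ _ h1).1.symm
  have hmono : ∀ p q : ℕ, p ≤ q → p * m / (a + m) ≤ q * m / (a + m) := fun p q h =>
    Nat.div_le_div_right (Nat.mul_le_mul_right m h)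
  have key : ∀ P : ℕ, 1 ≤ P → P ≤ a + m → ∃ s : ℕ → Fin n, s 0 = z0 ∧
      ∀ p, p < P → X p = s (p * m / (a + m)) ∧ Y p = s (p * m / (a + m) + 1) := by
    intro P hP
    induction P, hP using Nat.le_induction with
    | base =>
      intro _
      refine ⟨fun i => if i = 0 then z0 else Y 0, by simp, fun p hp => ?_⟩
      have hp0 : p = 0 := by omega
      subst hp0
      simp [hX0]
    | succ P hP ih =>
      intro hPa
      obtain ⟨s, hs0, hs⟩ := ih (by omega)
      obtain ⟨q, rfl⟩ : ∃ q, P = q + 1 := ⟨P - 1, by omega⟩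
      have h1 := hB q (by omega)
      have h2 := hA (q + 1) (by omega)
      obtain ⟨hq1, hq2⟩ := hs q (by omega)
      rcases hPs q with ⟨hb, ht⟩ | ⟨hb, ht⟩
      · rw [h1, stB, stA, if_pos hb, if_pos hb] at h2
        have h3 := (hc _ _ _ _ h2).1
        refine ⟨Function.update s ((q + 1) * m / (a + m) + 1) (Y (q + 1)), ?_, fun p hp => ?_⟩
        · have e1 : 0 ≠ (q + 1) * m / (a + m) + 1 := (Nat.succ_ne_zero _).symm
          rw [Function.update_of_ne e1, hs0]
        · rcases Nat.lt_succ_iff_lt_or_eq.1 hp with hp | hp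
          · obtain ⟨h4, h5⟩ := hs p hp
            have h6 := hmono p q (by omega)
            have e1 : p * m / (a + m) ≠ (q + 1) * m / (a + m) + 1 := by
              rw [ht]
              exact (Nat.lt_succ_of_lt (Nat.lt_succ_of_le h6)).ne
            have e2 : p * m / (a + m) + 1 ≠ (q + 1) * m / (a + m) + 1 := by
              rw [ht]
              exact (Nat.succ_lt_succ (Nat.lt_succ_of_le h6)).ne
            rw [Function.update_of_ne e1, Function.update_of_ne e2]
            exact ⟨h4, h5⟩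
          · subst hp
            have e1 : (q + 1) * m / (a + m) ≠ (q + 1) * m / (a + m) + 1 := (Nat.lt_succ_self _).ne
            rw [Function.update_self, Function.update_of_ne e1, ht, ← h3]
            exact ⟨hq2, rfl⟩
      · rw [h1, stB, stA, if_neg hb, if_neg hb] at h2
        obtain ⟨h3, h4⟩ := hc _ _ _ _ h2
        refine ⟨s, hs0, fun p hp => ?_⟩
        rcases Nat.lt_succ_iff_lt_or_eq.1 hp with hp | hp
        · exact hs p hp
        · subst hp
          rw [ht, ← h3, ← h4]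
          exact ⟨hq1, hq2⟩
  obtain ⟨s, hs0, hs⟩ := key (a + m) (by omega) le_rfl
  refine ⟨s, hs0, ?_, hs⟩
  obtain ⟨q, hq⟩ : ∃ q, a + m = q + 1 := ⟨a + m - 1, by omega⟩
  have h1 := hB q (by omega)
  rw [← hq, hWd, ← hz, stB] at h1
  have hbq : Bd a m (q + 1) := by rw [← hq]; exact hPd
  rw [if_pos hbq] at h1
  have h2 := (hc _ _ _ _ h1).1
  have h3 : (q + 1) * m / (a + m) = q * m / (a + m) + 1 := by
    rcases hPs q with ⟨_, ht⟩ | ⟨hb, _⟩
    · exact ht
    · exact absurd hbq hb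
  have h4 : q * m / (a + m) + 1 = m := by
    rw [← h3, ← hq]
    exact hPm
  have h5 := (hs q (by omega)).2
  rw [h4] at h5
  rw [← h5, ← h2]

theorem pr_WSur (hPos : S_Pos) : S_WSur := by
  intro a m n N _ z0 z c w hc hz hw
  have hm : 1 ≤ m := Nat.one_le_iff_ne_zero.2 (NeZero.ne m)
  choose x y hA hB using hw
  obtain ⟨s, hs0, hsm, hs⟩ := WSur_core hPos a m n N hm z0 z c hc hz
    (fun p => if h : p < a + m + 1 then w.1 ⟨p, h⟩ else z)
    (fun p => if h : p < a + m then x ⟨p, h⟩ else z0)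
    (fun p => if h : p < a + m then y ⟨p, h⟩ else z0)
    (by
      rw [dif_pos (by omega)]
      exact w.2.1)
    (by
      rw [dif_pos (by omega)]
      exact w.2.2)
    (by
      intro p hp
      rw [dif_pos (by omega), dif_pos hp, dif_pos hp]
      exact hA ⟨p, hp⟩)
    (by
      intro p hp
      rw [dif_pos (by omega), dif_pos hp, dif_pos hp]
      exact hB ⟨p, hp⟩)
  refine ⟨⟨fun i => s i, hs0, hsm⟩, fun p => ?_⟩
  obtain ⟨h1, h2⟩ := hs p p.2
  rw [dif_pos p.2] at h1 h2
  have h3 := hA p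
  have h4 := hB p
  have e1 : s ((it a m p).castSucc : ℕ) = x p := h1.symm
  have e2 : s ((it a m p).succ : ℕ) = y p := h2.symm
  simp only [e1, e2]
  exact ⟨h3, h4⟩

end Pool.Agent.Work.MP_499dc6_lc.HD
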