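import Pool.Agent.Work.MP_499dc6_lc.HD.Defs

/-!
# Iterated matrix multiplication as a sum over walks
-/

set_option autoImplicit false

namespace Pool.Agent.Work.MP_499dc6_lc.HD

open MvPolynomial

theorem Imm_path {A : Type} [CommSemiring A] {N : ℕ} (d : ℕ) :
    ∀ (M : Fin d → Matrix (Fin N) (Fin N) A) (u v : Fin N),
    (List.ofFn M).prod u v = ∑ w : Fin (d + 1) → Fin N,
      if w 0 = u ∧ w (Fin.last d) = v then ∏ i : Fin d, M i (w i.castSucc) (w i.succ) else 0 := by
  induction d with
  | zero =>
    intro M u v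
    rw [List.ofFn_zero, List.prod_nil, Matrix.one_apply]
    rw [← (Equiv.funUnique (Fin 1) (Fin N)).symm.sum_comp]
    by_cases h : u = v
    · subst h
      rw [if_pos rfl, Finset.sum_eq_single u]
      · simp
      · intro b _ hb
        rw [if_neg]
        intro hh
        exact hb hh.1
      · intro hh
        exact absurd (Finset.mem_univ _) hh
    · rw [if_neg h]
      symm
      refine Finset.sum_eq_zero fun b _ => ?_
      rw [if_neg]
      rintro ⟨h1, h2⟩
      exact h (h1.symm.trans h2)
  | succ d ih =>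
    intro M u v
    rw [List.ofFn_succ, List.prod_cons, Matrix.mul_apply]
    have h1 : ∀ x : Fin N, M 0 u x * (List.ofFn fun i : Fin d => M i.succ).prod x v =
        ∑ w : Fin (d + 1) → Fin N, if w 0 = x ∧ w (Fin.last d) = v then
          M 0 u (w 0) * ∏ i : Fin d, M i.succ (w i.castSucc) (w i.succ) else 0 := by
      intro x
      rw [ih (fun i : Fin d => M i.succ) x v, Finset.mul_sum]
      refine Finset.sum_congr rfl fun w _ => ?_
      by_cases h : w 0 = x ∧ w (Fin.last d) = v
      · rw [if_pos h, if_pos h, h.1]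
      · rw [if_neg h, if_neg h, mul_zero]
    rw [Finset.sum_congr rfl fun x _ => h1 x, Finset.sum_comm]
    rw [← (Fin.consEquiv (fun _ : Fin (d + 2) => Fin N)).sum_comp, Fintype.sum_prod_type]
    rw [Finset.sum_eq_single u]
    · refine Finset.sum_congr rfl fun w _ => ?_
      rw [Finset.sum_eq_single (w 0)]
      · have e0 : (Fin.consEquiv (fun _ : Fin (d + 2) => Fin N)) (u, w) 0 = u := rfl
        have e1 : (Fin.consEquiv (fun _ : Fin (d + 2) => Fin N)) (u, w) (Fin.last (d + 1)) =
            w (Fin.last d) := rfl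
        rw [e0, e1]
        by_cases h : w (Fin.last d) = v
        · rw [if_pos ⟨rfl, h⟩, if_pos ⟨rfl, h⟩, Fin.prod_univ_succ]
          rfl
        · rw [if_neg (fun hh => h hh.2), if_neg (fun hh => h hh.2)]
      · intro b _ hb
        rw [if_neg (fun hh => hb hh.1.symm)]
      · intro hh
        exact absurd (Finset.mem_univ _) hh
    · intro b _ hb
      refine Finset.sum_eq_zero fun w _ => ?_
      rw [if_neg]
      intro hh
      exact hb hh.1
    · intro hh
      exact absurd (Finset.mem_univ _) hh

theorem Imm_eq (R : Type) [CommSemiring R] (N d : ℕ) (z : Fin N) :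
    (List.ofFn fun i : Fin d => Matrix.of fun u v : Fin N =>
      (X (i, u, v) : MvPolynomial (Fin d × Fin N × Fin N) R)).prod z z = imm R N d z := by
  classical
  rw [Imm_path]
  unfold imm
  rw [← Finset.sum_filter]
  symm
  refine Finset.sum_bij (fun w _ => w.1) ?_ ?_ ?_ ?_
  · intro w _
    rw [Finset.mem_filter]
    exact ⟨Finset.mem_univ _, w.2⟩
  · intro w _ w' _ h
    exact Subtype.ext h
  · intro w hw
    exact ⟨⟨w, (Finset.mem_filter.1 hw).2⟩, Finset.mem_univ _, rfl⟩
  · intro w _
    rfl

end Pool.Agent.Work.MP_499dc6_lc.HD
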