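import Pool.Agent.Work.MP_499dc6_lc.HD.MainA
import Pool.Agent.Work.MP_499dc6_lc.HD.Imm
import Pool.Agent.Work.MP_499dc6_lc.HD.I_Tr
import Pool.Agent.Work.MP_499dc6_lc.HD.I_CFR
import Pool.Agent.Work.MP_499dc6_lc.HD.I_Phi
import Pool.Agent.Work.MP_499dc6_lc.HD.I_Lin
import Pool.Agent.Work.MP_499dc6_lc.HD.I_Rho
import Pool.Agent.Work.MP_499dc6_lc.HD.I_Comb
import Pool.Agent.Work.MP_499dc6_lc.HD.I_Gates
import Pool.Agent.Work.MP_499dc6_lc.HD.I_CntZ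
import Pool.Agent.Work.MP_499dc6_lc.HD.I_CntY
import Pool.Agent.Work.MP_499dc6_lc.HD.I_PwBi
import Pool.Agent.Work.MP_499dc6_lc.HD.I_PwCo
import Pool.Agent.Work.MP_499dc6_lc.HD.I_Hard
import Pool.Agent.Work.MP_499dc6_lc.HD.I_LEx
import Pool.Agent.Work.MP_499dc6_lc.HD.I_Low
import Pool.Agent.Work.MP_499dc6_lc.HD.I_Pos
import Pool.Agent.Work.MP_499dc6_lc.HD.I_Code
import Pool.Agent.Work.MP_499dc6_lc.HD.I_ThU
import Pool.Agent.Work.MP_499dc6_lc.HD.I_WMap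
import Pool.Agent.Work.MP_499dc6_lc.HD.I_WSur
import Pool.Agent.Work.MP_499dc6_lc.HD.I_Proj
import Pool.Agent.Work.MP_499dc6_lc.HD.I_ProjS
import Pool.Agent.Work.MP_499dc6_lc.HD.I_LinT
import Pool.Agent.Work.MP_499dc6_lc.HD.I_Sub
import Pool.Agent.Work.MP_499dc6_lc.HD.I_Deg
import Pool.Agent.Work.MP_499dc6_lc.HD.I_SubE
import Pool.Agent.Work.MP_499dc6_lc.HD.I_Pick
import Pool.Agent.Work.MP_499dc6_lc.HD.I_Num
import Pool.Agent.Work.MP_499dc6_lc.Bd.B02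
import Pool.Agent.Work.MP_499dc6_lc.Bd.B03
import Pool.Agent.Work.MP_499dc6_lc.Bd.B04

/-!
# Homogeneous circuits of constant depth over every field: the theorem without hypotheses
-/

set_option autoImplicit false

namespace Pool.Agent.Work.MP_499dc6_lc.HD

theorem bBBphi : CD.S_BBphi := CD.pr_BBphi CD.pr_BiDec

theorem bBBmul : CD.S_BBmul := CD.pr_BBmul CD.pr_BiMul

theorem bBBrank : CD.S_BBrank := CD.pr_BBrank CD.pr_MatMul CD.pr_MatZero CD.pr_Grow1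
  CD.pr_Grow2 CD.pr_BiMul

theorem main : S_Main := by
  have hQs : S_Qs := pr_Tr.1
  have hCF : S_CF := pr_Tr.2
  have hCFR : S_CFR := pr_CFR hQs hCF
  have hRho : S_Rho := pr_Rho hQs
  have hComb : S_Comb := pr_Comb hQs hCFR pr_Phi hRho bBBphi
  have hGates : S_Gates := pr_Gates CD.pr_BBsmul bBBmul CD.pr_BBone
  have hZ : S_CntZ := pr_CntZ
  have hY : S_CntY := pr_CntY hZ
  have hPwBi : S_PwBi := pr_PwBi hZ CD.pr_BiMul
  have hPwCo : S_PwCo := pr_PwCo hZ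
  have hHard : S_Hard := pr_Hard (CD.pr_Conf CD.pr_Grow1) CD.pr_Walk CD.pr_CardWalk hZ hY
  have hLEx : S_LEx := pr_LEx CD.pr_Grow2
  have hLow : S_Low := pr_Low hHard hLEx bBBrank CD.pr_RankLow
  have hWMap : S_WMap := pr_WMap pr_Pos
  have hWSur : S_WSur := pr_WSur pr_Pos
  have hProj : S_Proj := pr_Proj pr_Code pr_ThU hWMap hWSur hZ
  have hSub : S_Sub := pr_Sub CD.pr_CircSubst
  have hNum : S_Num := pr_Num hQs hRho
  exact pr_Main hQs CD.pr_BiHom (pr_Lin bBBphi) hRho hComb hGates hPwBi hPwCo hLow hProj pr_LinT hSub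
    pr_Deg pr_SubE pr_Pick hNum

theorem projS : S_ProjS := pr_ProjS

end Pool.Agent.Work.MP_499dc6_lc.HD
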