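import Mathlib
import Pool.Agent.Work.MP_499dc6_lc.CD.Defs

/-!
# Homogeneous circuits of constant depth over every field: definitions
-/

set_option autoImplicit false

namespace Pool.Agent.Work.MP_499dc6_lc.HD

open MvPolynomial

/-- Iterated matrix multiplication: the entry `(z, z)` of the product of `d` matrices of variables
of order `N`, that is the sum over all closed walks `z = w_0, w_1, ..., w_d = z` in `Fin N` of the
products of the variables `(i, w_i, w_(i+1))`. -/
noncomputable def imm (R : Type) [CommSemiring R] (N d : ℕ) (z : Fin N) :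
    MvPolynomial (Fin d × Fin N × Fin N) R :=
  ∑ w : CD.Walk d N z, ∏ i : Fin d, X (i, w.1 i.castSucc, w.1 i.succ)

/-- The sum over all simple directed paths with `d` edges in `Fin M` of the products of the
variables of their edges. -/
noncomputable def spath (R : Type) [CommSemiring R] (M d : ℕ) :
    MvPolynomial (Fin M × Fin M) R :=
  ∑ v : Fin (d + 1) ↪ Fin M, ∏ i : Fin d, X (v i.castSucc, v i.succ)

/-- `g` arises from `f` by the substitution of homogeneous linear forms (for instance of variables
and zeros) for the variables. -/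
def IsLin {σ τ R : Type} [CommSemiring R] (f : MvPolynomial σ R) (g : MvPolynomial τ R) : Prop :=
  ∃ θ : σ → MvPolynomial τ R, (∀ x, (θ x).IsHomogeneous 1) ∧ aeval θ f = g

/-- Homogeneous circuits with `s` gates: every gate is a homogeneous polynomial and either an
affine form plus a linear combination of any number of earlier gates of level at most its own
level, or a product of powers of any number of earlier gates of smaller level. -/
def IsHom {K σ : Type} [Field K] {s : ℕ} (F : Fin s → MvPolynomial σ K) (lev : Fin s → ℕ) :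
    Prop :=
  CD.IsCircuit 1 F lev ∧ ∀ i, ∃ k, (F i).IsHomogeneous k

/-! ## The hard polynomial -/

theorem it_lt {a m : ℕ} [NeZero m] (p : Fin (a + m)) : (p : ℕ) * m / (a + m) < m := by
  have hm : 0 < m := Nat.pos_of_ne_zero (NeZero.ne m)
  apply Nat.div_lt_of_lt_mul
  exact Nat.mul_lt_mul_of_pos_right p.2 hm

/-- The step of the position `p`. -/
def it (a m : ℕ) [NeZero m] (p : Fin (a + m)) : Fin m := ⟨(p : ℕ) * m / (a + m), it_lt p⟩

/-- The position `p` is the first one of its step (also true for `p = a + m`). -/
def Bd (a m p : ℕ) : Prop := p * m % (a + m) < m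

instance (a m p : ℕ) : Decidable (Bd a m p) := inferInstanceAs (Decidable (p * m % (a + m) < m))

/-- The variable read at the position `p` if the ends of its step are `x` and `y`: a variable `Z` at
the first position of every step, a variable `Y` at all other positions. -/
def lb (a m n : ℕ) (p : Fin (a + m)) (x y : Fin n) :
    (Fin (a + m) × Fin n × Fin n) ⊕ (Fin (a + m) × Fin n × Fin n) :=
  if Bd a m p then Sum.inr (p, x, y) else Sum.inl (p, x, y)

/-- The hard polynomial: closed walks with `m` steps in `Fin n`, read at `a + m` positions. -/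
noncomputable def pw (R : Type) [CommSemiring R] (a m n : ℕ) [NeZero m] (z0 : Fin n) :
    MvPolynomial ((Fin (a + m) × Fin n × Fin n) ⊕ (Fin (a + m) × Fin n × Fin n)) R :=
  ∑ s : CD.Walk m n z0, ∏ p : Fin (a + m),
    X (lb a m n p (s.1 (it a m p).castSucc) (s.1 (it a m p).succ))

/-! ## Continued fractions and rates -/

/-- Denominators. -/
def qs (Λ : ℕ) : ℕ → ℕ
  | 0 => 0
  | 1 => 1
  | 2 => Λ
  | (j + 3) => Λ * qs Λ (j + 1) * qs Λ (j + 2) + qs Λ (j + 1)

/-- Numerators. -/
def ps (Λ : ℕ) : ℕ → ℕ
  | 0 => 1
  | 1 => 1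
  | 2 => Λ + 1
  | (j + 3) => Λ * qs Λ (j + 1) * ps Λ (j + 2) + ps Λ (j + 1)

/-- The slope `β / α`. -/
noncomputable def sl (Λ Δ : ℕ) : ℝ := 1 + (ps Λ Δ : ℝ) / qs Λ Δ

/-- The rates. -/
noncomputable def rho (al : ℝ) (Λ j : ℕ) : ℝ :=
  al / (64 * ((max (qs Λ j) 1 : ℕ) : ℝ) * qs Λ (j + 1))

end Pool.Agent.Work.MP_499dc6_lc.HD
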