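import Pool.Agent.Work.MP_499dc6_lc.HD.Stmts

/-!
Item CntZ of block HD: every step has exactly one first position.
-/

set_option autoImplicit false

namespace Pool.Agent.Work.MP_499dc6_lc.HD

open MvPolynomial

theorem CntZ_iff (a m : ℕ) [NeZero m] (i : Fin m) (p : Fin (a + m)) :
    (Bd a m p ∧ it a m p = i) ↔
      ((i : ℕ) * (a + m) ≤ (p : ℕ) * m ∧ (p : ℕ) * m < (i : ℕ) * (a + m) + m) := by
  have hm : 0 < m := Nat.pos_of_ne_zero (NeZero.ne m)
  have hd : 0 < a + m := by omega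
  have hdm := Nat.div_add_mod ((p : ℕ) * m) (a + m)
  constructor
  · rintro ⟨h1, h2⟩
    have h3 : (p : ℕ) * m / (a + m) = (i : ℕ) := congrArg Fin.val h2
    have h4 : (p : ℕ) * m % (a + m) < m := h1
    rw [h3, Nat.mul_comm (a + m) (i : ℕ)] at hdm
    constructor <;> omega
  · rintro ⟨h1, h2⟩
    have h3 : (p : ℕ) * m / (a + m) = (i : ℕ) := by
      apply Nat.div_eq_of_lt_le h1
      rw [Nat.succ_mul]
      omega
    refine ⟨?_, Fin.ext h3⟩
    rw [h3, Nat.mul_comm (a + m) (i : ℕ)] at hdm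
    change (p : ℕ) * m % (a + m) < m
    omega

theorem pr_CntZ : S_CntZ := by
  intro a m _ i
  have hm : 0 < m := Nat.pos_of_ne_zero (NeZero.ne m)
  have hi : (i : ℕ) < m := i.2
  -- the first position of the step `i`
  have h1 : ((i : ℕ) * (a + m) + (m - 1)) / m * m ≤ (i : ℕ) * (a + m) + (m - 1) :=
    Nat.div_mul_le_self _ _
  have h2 : (i : ℕ) * (a + m) ≤ ((i : ℕ) * (a + m) + (m - 1)) / m * m := by
    have h3 := Nat.div_add_mod ((i : ℕ) * (a + m) + (m - 1)) m
    have h4 := Nat.mod_lt ((i : ℕ) * (a + m) + (m - 1)) hm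
    rw [Nat.mul_comm m] at h3
    omega
  have h5 : ((i : ℕ) * (a + m) + (m - 1)) / m < a + m := by
    apply Nat.lt_of_mul_lt_mul_right (a := m)
    have h6 : ((i : ℕ) + 1) * (a + m) ≤ m * (a + m) := Nat.mul_le_mul_right _ hi
    rw [Nat.succ_mul, Nat.mul_comm m (a + m)] at h6
    omega
  rw [Finset.card_eq_one]
  refine ⟨⟨((i : ℕ) * (a + m) + (m - 1)) / m, h5⟩, ?_⟩
  ext p
  rw [Finset.mem_filter, Finset.mem_singleton, CntZ_iff]
  constructor
  · rintro ⟨_, h7, h8⟩
    apply Fin.ext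
    change (p : ℕ) = ((i : ℕ) * (a + m) + (m - 1)) / m
    apply Nat.le_antisymm
    · apply Nat.le_of_lt_succ
      apply Nat.lt_of_mul_lt_mul_right (a := m)
      rw [Nat.succ_mul]
      omega
    · apply Nat.le_of_lt_succ
      apply Nat.lt_of_mul_lt_mul_right (a := m)
      rw [Nat.succ_mul]
      omega
  · rintro rfl
    refine ⟨Finset.mem_univ _, h2, ?_⟩
    change ((i : ℕ) * (a + m) + (m - 1)) / m * m < _
    omega

end Pool.Agent.Work.MP_499dc6_lc.HD
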