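import Mathlib
import Pool.Agent.Work.MP_499dc6_lc.HD.Stmts

/-!
# Block HD, item WMap
-/

set_option autoImplicit false

namespace Pool.Agent.Work.MP_499dc6_lc.HD

open MvPolynomial

/-- The walk, extended by `z0`. -/
def WMap_sg {m n : ℕ} {z0 : Fin n} (s : CD.Walk m n z0) (i : ℕ) : Fin n :=
  if h : i ≤ m then s.1 ⟨i, Nat.lt_succ_of_le h⟩ else z0

theorem WMap_zero {m n : ℕ} {z0 : Fin n} (s : CD.Walk m n z0) : WMap_sg s 0 = z0 := by
  rw [WMap_sg, dif_pos (Nat.zero_le m)]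
  exact s.2.1

theorem WMap_last {m n : ℕ} {z0 : Fin n} (s : CD.Walk m n z0) : WMap_sg s m = z0 := by
  rw [WMap_sg, dif_pos (le_refl m)]
  exact s.2.2

theorem WMap_castSucc {a m n : ℕ} [NeZero m] {z0 : Fin n} (s : CD.Walk m n z0)
    (p : Fin (a + m)) : s.1 (it a m p).castSucc = WMap_sg s ((p : ℕ) * m / (a + m)) := by
  rw [WMap_sg, dif_pos (it_lt p).le]
  rfl

theorem WMap_succ {a m n : ℕ} [NeZero m] {z0 : Fin n} (s : CD.Walk m n z0)
    (p : Fin (a + m)) : s.1 (it a m p).succ = WMap_sg s ((p : ℕ) * m / (a + m) + 1) := by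
  rw [WMap_sg, dif_pos (Nat.succ_le_of_lt (it_lt p))]
  rfl

/-- The states. -/
def WMap_w (a : ℕ) {m n N : ℕ} {z0 : Fin n} (c : Fin n → Fin n → Fin N) (s : CD.Walk m n z0)
    (p : ℕ) : Fin N :=
  if Bd a m p then c (WMap_sg s (p * m / (a + m))) z0
  else c (WMap_sg s (p * m / (a + m))) (WMap_sg s (p * m / (a + m) + 1))

/-- Item WMap. -/
theorem pr_WMap (hPos : S_Pos) : S_WMap := by
  intro a m n N _ z0 z c s hc
  obtain ⟨hB0, hBl, htl, hstep⟩ := hPos a m (Nat.pos_of_ne_zero (NeZero.ne m))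
  refine ⟨⟨fun p => WMap_w a c s p, ?_, ?_⟩, fun p => ⟨?_, ?_⟩⟩
  · show WMap_w a c s 0 = z
    rw [WMap_w, if_pos hB0, Nat.zero_mul, Nat.zero_div, WMap_zero, hc]
  · show WMap_w a c s (a + m) = z
    rw [WMap_w, if_pos hBl, htl, WMap_last, hc]
  · show WMap_w a c s (p : ℕ) = _
    rw [WMap_castSucc, WMap_succ, WMap_w, stA]
  · show WMap_w a c s ((p : ℕ) + 1) = _
    rw [WMap_castSucc, WMap_succ, WMap_w, stB]
    rcases hstep p with ⟨h1, h2⟩ | ⟨h1, h2⟩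
    · rw [if_pos h1, if_pos h1, h2]
    · rw [if_neg h1, if_neg h1, h2]

end Pool.Agent.Work.MP_499dc6_lc.HD
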