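import Pool.Agent.Work.MP_499dc6_lc.HD.Stmts

/-!
# Homogeneous circuits of constant depth over every field: assembly
-/

set_option autoImplicit false

namespace Pool.Agent.Work.MP_499dc6_lc.HD

open MvPolynomial

theorem pr_Main (hQs : S_Qs) (hBiHom : CD.S_BiHom) (hLin : S_Lin) (hRho : S_Rho) (hComb : S_Comb)
    (hGates : S_Gates) (hPwBi : S_PwBi) (hPwCo : S_PwCo) (hLow : S_Low) (hProj : S_Proj)
    (hLinT : S_LinT) (hSub : S_Sub) (hDeg : S_Deg) (hSubE : S_SubE) (hPick : S_Pick)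
    (hNum : S_Num) : S_Main := by
  intro k σ _ N d Δ s z f S F lev i hdN hΔ hlin hF hlev hFi
  have hN1 : 1 ≤ N := by
    have := z.2
    omega
  have hN1' : (1 : ℝ) ≤ N := by exact_mod_cast hN1
  have hlogN : 0 ≤ Real.log N := Real.log_nonneg hN1'
  have hlogs : 0 ≤ Real.log ((s : ℝ) + 1) :=
    Real.log_nonneg (by have : (0 : ℝ) ≤ s := Nat.cast_nonneg s
                        linarith)
  have hbase : (1200 : ℝ) ≤ 1200 * (1 + Real.log ((s : ℝ) + 1) / Real.log N) := by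
    have : 0 ≤ Real.log ((s : ℝ) + 1) / Real.log N := div_nonneg hlogs hlogN
    linarith
  have hfib : 1 ≤ Nat.fib (Δ + 2) - 1 := by
    have h3 : Nat.fib 3 ≤ Nat.fib (Δ + 2) := Nat.fib_mono (by omega)
    have h4 : Nat.fib 3 = 2 := rfl
    omega
  by_cases hd : d < 1200
  · have h1 : (d : ℝ) ≤ 1200 := by exact_mod_cast hd.le
    calc (d : ℝ) ≤ 1200 := h1
      _ ≤ 1200 * (1 + Real.log ((s : ℝ) + 1) / Real.log N) := hbase
      _ = (1200 * (1 + Real.log ((s : ℝ) + 1) / Real.log N)) ^ 1 := (pow_one _).symm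
      _ ≤ _ := pow_le_pow_right₀ (by linarith) hfib
  push Not at hd
  obtain ⟨n, hn⟩ : ∃ n, n = Nat.sqrt N := ⟨_, rfl⟩
  obtain ⟨Λ, hΛ⟩ : ∃ Λ, Λ = ⌈600 * (Real.log ((s : ℝ) + 1) / Real.log ((n : ℝ) + 1) + 1)⌉₊ :=
    ⟨_, rfl⟩
  -- the conclusion follows from `d ≤ q_(Δ+1)`
  have hconcl : 4 ≤ Λ → (Λ : ℝ) + 1 ≤ 1200 * (1 + Real.log ((s : ℝ) + 1) / Real.log N) →
      d ≤ qs Λ (Δ + 1) →
      (d : ℝ) ≤ (1200 * (1 + Real.log ((s : ℝ) + 1) / Real.log N)) ^ (Nat.fib (Δ + 2) - 1) := by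
    intro h4 h5 h6
    have h7 := (hQs Λ h4).2.2.2.2.2.2 (Δ + 1) (by omega)
    have h8 : (d : ℝ) ≤ ((Λ : ℝ) + 1) ^ (Nat.fib (Δ + 2) - 1) := by
      exact_mod_cast h6.trans h7
    refine h8.trans (pow_le_pow_left₀ (by positivity) h5 _)
  -- the slope
  obtain ⟨r, hr⟩ : ∃ r, r = sl Λ Δ := ⟨_, rfl⟩
  have hΛ4' : 4 ≤ Λ := by
    have h1 : (600 : ℝ) ≤ 600 * (Real.log ((s : ℝ) + 1) / Real.log ((n : ℝ) + 1) + 1) := by
      have h2 : 0 ≤ Real.log ((n : ℝ) + 1) :=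
        Real.log_nonneg (by have : (0 : ℝ) ≤ n := Nat.cast_nonneg n
                            linarith)
      have h3 : 0 ≤ Real.log ((s : ℝ) + 1) / Real.log ((n : ℝ) + 1) := div_nonneg hlogs h2
      linarith
    have h4 : (600 : ℝ) ≤ Λ := by
      rw [hΛ]
      exact h1.trans (Nat.le_ceil _)
    have h5 : (600 : ℕ) ≤ Λ := by exact_mod_cast h4
    omega
  obtain ⟨al, hal⟩ : ∃ al, al = Real.log ((n : ℝ) + 1) / r := ⟨_, rfl⟩
  have hsl := (hRho 1 Λ one_pos hΛ4').2.2.2 Δ hΔ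
  rw [← hr] at hsl
  obtain ⟨g1, g2, g3, g4, g5, g6, g7, g8, g9⟩ :=
    hNum N d s n Λ Δ r al hd hdN hn hΔ hΛ hsl.1 hsl.2 hal
  by_cases hq : d ≤ qs Λ (Δ + 1)
  · exact hconcl g2 g1 hq
  push Not at hq
  exfalso
  -- the positions
  obtain ⟨a, m, ham, hm1, ha1, ha2⟩ := hPick d r (by omega) hsl.1 hsl.2
  subst ham
  have : NeZero m := ⟨by omega⟩
  let z0 : Fin n := ⟨0, g4⟩
  obtain ⟨θ, hθ1, hθ2⟩ := hLinT σ _ _ (PowerSeries k) f (imm (PowerSeries k) N (a + m) z)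
    (pw (PowerSeries k) a m n z0) hlin (hProj (PowerSeries k) a m n N z0 z g3)
  -- the new circuit
  let θ' : σ → MvPolynomial ((Fin (a + m) × Fin n × Fin n) ⊕ (Fin (a + m) × Fin n × Fin n))
      (LaurentSeries k) :=
    fun x => MvPolynomial.map (algebraMap (PowerSeries k) (LaurentSeries k)) (θ x)
  have hθ' : ∀ x, (θ' x).IsHomogeneous 1 := fun x => (hθ1 x).map _
  have hF' := hSub σ _ (LaurentSeries k) s F lev θ' hF hθ'
  have hFi' : aeval θ' (F i) = MvPolynomial.map (algebraMap (PowerSeries k) (LaurentSeries k))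
      (pw (PowerSeries k) a m n z0 + C PowerSeries.X * aeval θ S) := by
    rw [hFi, ← hθ2]
    exact hSubE k σ _ f S θ
  obtain ⟨k', hk'⟩ := hF'.2 i
  have hk'' : k' = a + m := by
    obtain ⟨μ, hμ⟩ := hPwCo (PowerSeries k) a m n z0
    have h1 := hBiHom _ _ (PowerSeries k) _ a m (hPwBi (PowerSeries k) a m n z0)
    have hk2 := hk'
    simp only at hk2
    rw [hFi'] at hk2
    exact hDeg k _ _ _ μ (a + m) k' h1 hμ hk2
  subst hk''
  have hal0 : 0 < al := by linarith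
  obtain ⟨r1, r2, r3, -⟩ := hRho al Λ hal0 g2
  have hbe : al ≤ r * al := by nlinarith
  have hU := hGates _ _ (LaurentSeries k) al (r * al) s Δ (fun i => aeval θ' (F i)) lev (rho al Λ)
    hF' r1 (fun j => by have := r1 (j + 1); have := r2 j; linarith)
    (fun l hl => hLin _ _ (LaurentSeries k) al (r * al) Λ l g6 hbe hl)
    (fun l k1 f h1 h2 h3 h4 => by
      rw [hr] at h4 ⊢
      refine hComb _ _ (LaurentSeries k) al Λ Δ s l k1 f g2 g6 ?_ g8 h1 h2 h3 h4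
      have h5 : (qs Λ (Δ + 1) : ℝ) ≤ ((a + m : ℕ) : ℝ) := by exact_mod_cast hq.le
      refine le_trans ?_ g7
      linarith)
    hΔ i (hlev i) (a + m) (by omega) hk'
  have hU' : CD.BB al (r * al) (aeval θ' (F i)) _ := hU
  rw [hFi'] at hU'
  have hL := hLow k a m n z0 (aeval θ S) r al _ (by omega) g5 hsl.1 hsl.2 ha1 ha2 hal hU'
  have := g9 hL
  omega

end Pool.Agent.Work.MP_499dc6_lc.HD
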